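import Pool.Agent.Lib.MP_6babc4_nt.TN.Lat

/-!
# Module Blk: the theta constants of a block matrix

The theta constants of the block matrix with the blocks `τ`, `τ'` are the products of those of `τ` and `τ'`.
-/

set_option autoImplicit false

namespace FreySH

open FreyTN

/-- The block matrix. -/
private def blkMat {R : Type*} [Zero R] {g g' : ℕ} (A : Matrix (Fin g) (Fin g) R)
    (B : Matrix (Fin g') (Fin g') R) : Matrix (Fin (g + g')) (Fin (g + g')) R :=
  (Matrix.fromBlocks A 0 0 B).submatrix finSumFinEquiv.symm finSumFinEquiv.symm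

private lemma blk_map {g g' : ℕ} (A : Matrix (Fin g) (Fin g) ℂ) (B : Matrix (Fin g') (Fin g') ℂ) :
    (blkMat A B).map Complex.im = blkMat (A.map Complex.im) (B.map Complex.im) := by
  unfold blkMat
  rw [← Matrix.submatrix_map, Matrix.fromBlocks_map]
  simp [Matrix.map_zero]

private lemma blk_quad {R : Type*} [CommRing R] {g g' : ℕ} (A : Matrix (Fin g) (Fin g) R)
    (B : Matrix (Fin g') (Fin g') R) (m : Fin (g + g') → ℤ) :
    quad (blkMat A B) m =
      quad A (fun i => m (Fin.castAdd g' i)) + quad B (fun i => m (Fin.natAdd g i)) := by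
  unfold quad blkMat
  simp [Fin.sum_univ_add]

private lemma blk_posDef {g g' : ℕ} {A : Matrix (Fin g) (Fin g) ℝ} {B : Matrix (Fin g') (Fin g') ℝ}
    (hA : A.PosDef) (hB : B.PosDef) : (blkMat A B).PosDef := by
  unfold blkMat
  refine Matrix.PosDef.submatrix ?_ finSumFinEquiv.symm.injective
  refine Matrix.PosDef.of_dotProduct_mulVec_pos ?_ fun x hx => ?_
  · exact hA.isHermitian.fromBlocks (by simp) hB.isHermitian
  · have h1 : star x ⬝ᵥ (Matrix.fromBlocks A 0 0 B).mulVec x =
        star (x ∘ Sum.inl) ⬝ᵥ A.mulVec (x ∘ Sum.inl) +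
          star (x ∘ Sum.inr) ⬝ᵥ B.mulVec (x ∘ Sum.inr) := by
      rw [Matrix.fromBlocks_mulVec]
      simp [dotProduct, Fintype.sum_sum_type]
    rw [h1]
    by_cases hl : x ∘ Sum.inl = 0
    · have hr : x ∘ Sum.inr ≠ 0 := by
        intro hr
        apply hx
        funext i
        rcases i with i | i
        · exact congrFun hl i
        · exact congrFun hr i
      rw [hl]
      have h2 := hB.dotProduct_mulVec_pos hr
      simpa using h2
    · have h2 := hA.dotProduct_mulVec_pos hl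
      have h3 := hB.posSemidef.dotProduct_mulVec_nonneg (x ∘ Sum.inr)
      linarith

private lemma blk_siegel {g g' : ℕ} {ρ : ℝ} (hρ : 0 < ρ) {τ : Matrix (Fin g) (Fin g) ℂ}
    {τ' : Matrix (Fin g') (Fin g') ℂ} (hτ : Siegel ρ τ) (hτ' : Siegel ρ τ') :
    Siegel ρ (blkMat τ τ') := by
  obtain ⟨h1, h2, h3⟩ := hτ
  obtain ⟨h1', h2', h3'⟩ := hτ'
  have h0 : ∀ {n : ℕ} {Y : Matrix (Fin n) (Fin n) ℝ}, (∀ m : Fin n → ℤ, m ≠ 0 → ρ ≤ quad Y m) →
      ∀ m : Fin n → ℤ, 0 ≤ quad Y m := by
    intro n Y h m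
    by_cases hm : m = 0
    · rw [hm]
      simp [quad]
    · exact hρ.le.trans (h m hm)
  refine ⟨?_, ?_, ?_⟩
  · unfold blkMat
    exact (h1.fromBlocks (by simp) h1').submatrix _
  · rw [blk_map]
    exact blk_posDef h2 h2'
  · intro m hm
    rw [blk_map, blk_quad]
    by_cases hl : (fun i => m (Fin.castAdd g' i)) = 0
    · have hr : (fun i => m (Fin.natAdd g i)) ≠ 0 := by
        intro hr
        apply hm
        funext i
        refine Fin.addCases (fun i => ?_) (fun i => ?_) i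
        · exact congrFun hl i
        · exact congrFun hr i
      have h4 := h3' _ hr
      have h5 := h0 h3 (fun i => m (Fin.castAdd g' i))
      linarith
    · have h4 := h3 _ hl
      have h5 := h0 h3' (fun i => m (Fin.natAdd g i))
      linarith

private lemma blk_sgn {g g' : ℕ} (b : GI (g + g')) (m : Fin (g + g') → ℤ) :
    sgn b m = sgn (fun i => b (Fin.castAdd g' i)) (fun i => m (Fin.castAdd g' i)) *
      sgn (fun i => b (Fin.natAdd g i)) (fun i => m (Fin.natAdd g i)) := by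
  have h : ∀ x y : ZMod 2, (if x + y = 0 then (1 : ℤ) else -1) =
      (if x = 0 then (1 : ℤ) else -1) * (if y = 0 then (1 : ℤ) else -1) := by decide
  unfold sgn
  rw [Fin.sum_univ_add, h]

private lemma blk_summable {g : ℕ} {ρ : ℝ} (hρ : 0 < ρ) {τ : Matrix (Fin g) (Fin g) ℂ}
    (hτ : Siegel ρ τ) (b : GI g) : Summable fun m : Fin g → ℤ =>
      ‖(sgn b m : ℂ) * Complex.exp (Real.pi * Complex.I * quad τ m)‖ := by
  obtain ⟨δ, -, h⟩ := lat_bound g hρ
  refine (h _ hτ.2.1 hτ.2.2 0).1.congr fun m => ?_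
  have h1 : ‖((sgn b m : ℤ) : ℂ)‖ = 1 := by
    unfold sgn
    split_ifs <;> simp
  have h2 : quad (τ.map Complex.im) m = (quad τ m).im := by
    unfold quad
    rw [Complex.im_sum]
    refine Finset.sum_congr rfl fun i _ => ?_
    rw [Complex.im_sum]
    refine Finset.sum_congr rfl fun j _ => ?_
    simp
  rw [norm_mul, h1, one_mul, Complex.norm_exp, h2]
  congr 1
  simp [Complex.mul_re, Complex.mul_im]

theorem theta_block {g g' : ℕ} {ρ : ℝ} (hρ : 0 < ρ) {τ : Matrix (Fin g) (Fin g) ℂ}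
    {τ' : Matrix (Fin g') (Fin g') ℂ} (hτ : Siegel ρ τ) (hτ' : Siegel ρ τ') :
    ∃ τ₂ : Matrix (Fin (g + g')) (Fin (g + g')) ℂ, Siegel ρ τ₂ ∧ ∀ b : GI (g + g'),
      theta τ₂ b = theta τ (fun i => b (Fin.castAdd g' i)) * theta τ' (fun i => b (Fin.natAdd g i)) := by
  refine ⟨blkMat τ τ', blk_siegel hρ hτ hτ', fun b => ?_⟩
  unfold theta
  rw [tsum_mul_tsum_of_summable_norm (blk_summable hρ hτ _) (blk_summable hρ hτ' _),
    ← (Fin.appendEquiv (α := ℤ) g g').tsum_eq]
  refine tsum_congr fun x => ?_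
  have h1 : (fun i => Fin.appendEquiv (α := ℤ) g g' x (Fin.castAdd g' i)) = x.1 := by
    funext i
    simp [Fin.appendEquiv]
  have h2 : (fun i => Fin.appendEquiv (α := ℤ) g g' x (Fin.natAdd g i)) = x.2 := by
    funext i
    simp [Fin.appendEquiv]
  rw [blk_sgn, blk_quad, h1, h2, mul_add, Complex.exp_add]
  push_cast
  ring

end FreySH
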