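import Pool.Agent.Lib.MP_6babc4_nt.SH.Cn4

/-!
# Module Cn5: the count over all the towers of `r` square roots
-/

set_option autoImplicit false

open NumberField IsDedekindDomain Module Filter Topology

namespace FreySH

open FreyTN FreyCyc FreySparse

/-- The count over all the towers of `r` square roots, in `ℂ`. -/
theorem tset_tower (g : ℕ) {δ : ℕ → ℝ} (hδ : Tendsto δ atTop (𝓝 0)) (d r : ℕ) {ε : ℝ}
    (hε : 0 < ε) : ∃ (k A : ℕ) (C : ℝ), 1 ≤ C ∧ ∀ (K : IntermediateField ℚ ℂ) [NumberField K],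
      finrank ℚ K ≤ d → ∀ w : ℕ, w ≠ 0 → 2 ∣ w → ∀ R : ℝ, 1 ≤ R →
        ∃ T : Finset (GI g → ℂ), (T.card : ℝ) ≤ C * |(discr K : ℝ)| ^ A * (w : ℝ) ^ ε * R ^ ε ∧
          (∀ z ∈ T, z ≠ 0) ∧
          ∀ F ∈ Tow K w r, ∀ [NumberField F], ∀ u ∈ TSet δ k (k * 2 ^ g) F w R,
            ∃ z ∈ T, ∀ a b, ((u a : F) : ℂ) * z b = ((u b : F) : ℂ) * z a := by
  classical
  obtain ⟨k, C₁, hC₁, hcnt⟩ := tset_sel g hδ (2 ^ r * d) hε
  obtain ⟨m, hm⟩ : ∃ m : ℕ, m = k * 2 ^ g := ⟨_, rfl⟩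
  obtain ⟨e, he⟩ : ∃ e : ℕ, e = 2 ^ r + 2 ^ r * 2 ^ m := ⟨_, rfl⟩
  obtain ⟨A, C₂, hC₂, hsel⟩ := sel_all d
  obtain ⟨C₃, hC₃, hom⟩ := omega_pow ((2 ^ d) ^ e) hε
  refine ⟨k, A * e, C₂ ^ e * C₃ * C₁, ?_, ?_⟩
  · exact one_le_mul_of_one_le_of_one_le
      (one_le_mul_of_one_le_of_one_le (one_le_pow₀ hC₂) hC₃) hC₁
  intro K _ hK w hw h2 R hR
  rw [← hm] at hcnt ⊢
  obtain ⟨n, h1, hn, hS⟩ := hsel K hK w hw h2
  obtain ⟨hfin, hcard, hF1⟩ := tow_card h2 h1 hS r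
  have hRε : 0 ≤ R ^ ε := Real.rpow_nonneg (by linarith) _
  have hn0 : (0 : ℝ) ≤ n := Nat.cast_nonneg n
  obtain ⟨B, hB⟩ : ∃ B : ℝ, B = C₁ * (n : ℝ) ^ (2 ^ r * 2 ^ m) * R ^ ε := ⟨_, rfl⟩
  have hB0 : 0 ≤ B := by
    rw [hB]
    exact mul_nonneg (mul_nonneg (by linarith) (pow_nonneg hn0 _)) hRε
  have key : ∀ F : IntermediateField ℚ ℂ, ∃ T : Finset (GI g → ℂ),
      (T.card : ℝ) ≤ B ∧ (∀ z ∈ T, z ≠ 0) ∧
      (F ∈ Tow K w r → ∀ u ∈ TSet δ k m F w R,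
        ∃ z ∈ T, ∀ a b, ((u a : F) : ℂ) * z b = ((u b : F) : ℂ) * z a) := by
    intro F
    by_cases hF : F ∈ Tow K w r
    · obtain ⟨-, -, hdeg⟩ := tow_field r F hF
      obtain ⟨hNF, hSF⟩ := hF1 F hF
      have hdeg' : finrank ℚ F ≤ 2 ^ r * d := hdeg.trans (Nat.mul_le_mul_left _ hK)
      obtain ⟨T, hT1, hT2, hT3⟩ := hcnt F hdeg' w (n ^ 2 ^ r) h2 (Nat.one_le_pow _ _ h1) hSF R hR
      refine ⟨T.image fun z b => ((z b : F) : ℂ), ?_, ?_, fun _ u hu => ?_⟩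
      · have h3 : (((T.image fun z b => ((z b : F) : ℂ)).card : ℕ) : ℝ) ≤ (T.card : ℝ) := by
          exact_mod_cast Finset.card_image_le
        refine h3.trans (hT1.trans (le_of_eq ?_))
        rw [hB]
        push_cast
        rw [← pow_mul]
      · intro z hz
        obtain ⟨y, hy, rfl⟩ := Finset.mem_image.mp hz
        obtain ⟨b, hb⟩ := hT2 y hy
        intro h0
        have h3 : ((y b : F) : ℂ) = 0 := congrFun h0 b
        refine hb (RingOfIntegers.ext ?_)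
        apply Subtype.ext
        rw [h3]
        simp
      · obtain ⟨z, hz, hzu⟩ := hT3 u hu
        refine ⟨_, Finset.mem_image_of_mem _ hz, fun a b => ?_⟩
        unfold NPr at hzu
        push Not at hzu
        have h3 := hzu a b
        have h4 := congrArg (fun x : 𝓞 F => ((x : F) : ℂ)) h3
        push_cast at h4
        exact h4
    · refine ⟨∅, ?_, fun z hz => absurd hz (Finset.notMem_empty z), fun h => absurd h hF⟩
      rw [Finset.card_empty, Nat.cast_zero]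
      exact hB0
  choose T hT1 hT2 hT3 using key
  refine ⟨hfin.toFinset.biUnion T, ?_, ?_, ?_⟩
  · have h4 : (hfin.toFinset.biUnion T).card ≤ ∑ F ∈ hfin.toFinset, (T F).card :=
      Finset.card_biUnion_le
    have h5 : (((hfin.toFinset.biUnion T).card : ℕ) : ℝ) ≤
        ∑ F ∈ hfin.toFinset, ((T F).card : ℝ) := by exact_mod_cast h4
    have h6 : ((hfin.toFinset.card : ℕ) : ℝ) ≤ (n : ℝ) ^ 2 ^ r := by
      rw [← Set.ncard_eq_toFinset_card _ hfin]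
      exact_mod_cast hcard
    have h7 : (((hfin.toFinset.biUnion T).card : ℕ) : ℝ) ≤ (n : ℝ) ^ e * (C₁ * R ^ ε) := by
      refine h5.trans ((Finset.sum_le_sum fun F _ => hT1 F).trans ?_)
      rw [Finset.sum_const, nsmul_eq_mul]
      calc ((hfin.toFinset.card : ℕ) : ℝ) * B ≤ (n : ℝ) ^ 2 ^ r * B :=
            mul_le_mul_of_nonneg_right h6 hB0
        _ = (n : ℝ) ^ e * (C₁ * R ^ ε) := by rw [hB, he, pow_add]; ring
    have h8 : (n : ℝ) ^ e ≤ C₂ ^ e * |(discr K : ℝ)| ^ (A * e) *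
        (((2 ^ d) ^ e : ℕ) : ℝ) ^ w.primeFactors.card := by
      refine (pow_le_pow_left₀ hn0 hn _).trans (le_of_eq ?_)
      rw [mul_pow, mul_pow, ← pow_mul, ← pow_mul]
      congr 1
      push_cast
      rw [← pow_mul, ← pow_mul, ← pow_mul]
      congr 1
      ring
    have h9 := hom w hw
    have hD : 0 ≤ |(discr K : ℝ)| ^ (A * e) := by positivity
    have hC2m : 0 ≤ C₂ ^ e := by
      have : 0 ≤ C₂ := by linarith
      positivity
    have hCR : 0 ≤ C₁ * R ^ ε := mul_nonneg (by linarith) hRε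
    calc (((hfin.toFinset.biUnion T).card : ℕ) : ℝ) ≤ (n : ℝ) ^ e * (C₁ * R ^ ε) := h7
      _ ≤ (C₂ ^ e * |(discr K : ℝ)| ^ (A * e) *
          (((2 ^ d) ^ e : ℕ) : ℝ) ^ w.primeFactors.card) * (C₁ * R ^ ε) :=
          mul_le_mul_of_nonneg_right h8 hCR
      _ ≤ (C₂ ^ e * |(discr K : ℝ)| ^ (A * e) * (C₃ * (w : ℝ) ^ ε)) * (C₁ * R ^ ε) :=
          mul_le_mul_of_nonneg_right (mul_le_mul_of_nonneg_left h9 (mul_nonneg hC2m hD)) hCR
      _ = _ := by ring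
  · intro z hz
    obtain ⟨F, -, hF⟩ := Finset.mem_biUnion.mp hz
    exact hT2 F z hF
  · intro F hF _ u hu
    obtain ⟨z, hz, hzu⟩ := hT3 F hF u hu
    exact ⟨z, Finset.mem_biUnion.mpr ⟨F, hfin.mem_toFinset.mpr hF, hz⟩, hzu⟩

end FreySH
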