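import Pool.Agent.Lib.MP_6babc4_nt.SH.Se2

/-!
# Module Sel: the classes modulo squares for all even `w`
-/

set_option autoImplicit false

open NumberField IsDedekindDomain Module Filter Topology

namespace FreySH

open FreyTN FreyCyc FreySparse

set_option linter.deprecated false in
private lemma sel_prime (K : Type) [Field K] [NumberField K] {p : ℕ} (hp : p.Prime) :
    ∃ s : Finset (HeightOneSpectrum (𝓞 K)), (∀ P, P ∈ s ↔ (p : 𝓞 K) ∈ P.asIdeal) ∧
      s.card ≤ finrank ℚ K := by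
  classical
  have hpm : (Ideal.span {(p : ℤ)}).IsMaximal :=
    PrincipalIdealRing.isMaximal_of_irreducible (Nat.prime_iff_prime_int.mp hp).irreducible
  have hp0 : Ideal.span {(p : ℤ)} ≠ ⊥ := by
    rw [Ne, Ideal.span_singleton_eq_bot]
    exact_mod_cast hp.ne_zero
  set X := IsDedekindDomain.primesOverFinset (Ideal.span {(p : ℤ)}) (𝓞 K) with hX
  have hmem : ∀ P : HeightOneSpectrum (𝓞 K), (p : 𝓞 K) ∈ P.asIdeal → P.asIdeal ∈ X := by
    intro P hP
    rw [hX, IsDedekindDomain.mem_primesOverFinset_iff hp0]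
    refine ⟨P.isPrime, ⟨?_⟩⟩
    refine hpm.eq_of_le ?_ ?_
    · exact (P.isPrime.comap (algebraMap ℤ (𝓞 K))).ne_top
    · rw [Ideal.span_singleton_le_iff_mem]
      change algebraMap ℤ (𝓞 K) (p : ℤ) ∈ P.asIdeal
      rw [map_natCast]
      exact hP
  have hinj : Function.Injective (fun P : HeightOneSpectrum (𝓞 K) => P.asIdeal) :=
    fun P Q h => HeightOneSpectrum.ext h
  have hfin : {P : HeightOneSpectrum (𝓞 K) | (p : 𝓞 K) ∈ P.asIdeal}.Finite :=
    Set.Finite.of_injOn (f := fun P : HeightOneSpectrum (𝓞 K) => P.asIdeal) (t := (X : Set _))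
      (fun P hP => hmem P hP) hinj.injOn X.finite_toSet
  refine ⟨hfin.toFinset, fun P => hfin.mem_toFinset, ?_⟩
  calc hfin.toFinset.card ≤ X.card :=
        Finset.card_le_card_of_injOn (fun P : HeightOneSpectrum (𝓞 K) => P.asIdeal)
          (fun P hP => hmem P (hfin.mem_toFinset.mp hP)) hinj.injOn
    _ ≤ finrank ℚ K := Ideal.card_primesOverFinset_le_finrank (𝓞 K) ℚ K hp0

theorem primes_card (K : Type) [Field K] [NumberField K] {w : ℕ} (hw : w ≠ 0) :
    ∃ s : Finset (HeightOneSpectrum (𝓞 K)), (∀ P, P ∈ s ↔ (w : 𝓞 K) ∈ P.asIdeal) ∧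
      s.card ≤ finrank ℚ K * w.primeFactors.card := by
  classical
  have key : ∀ p : ℕ, ∃ s : Finset (HeightOneSpectrum (𝓞 K)),
      (p.Prime → ∀ P, P ∈ s ↔ (p : 𝓞 K) ∈ P.asIdeal) ∧ s.card ≤ finrank ℚ K := by
    intro p
    by_cases hp : p.Prime
    · obtain ⟨s, h1, h2⟩ := sel_prime K hp
      exact ⟨s, fun _ => h1, h2⟩
    · exact ⟨∅, fun h => absurd h hp, Nat.zero_le _⟩
  choose S hS1 hS2 using key
  refine ⟨w.primeFactors.biUnion S, fun P => ?_, ?_⟩
  · rw [Finset.mem_biUnion]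
    constructor
    · rintro ⟨p, hp, hP⟩
      rw [hS1 p (Nat.prime_of_mem_primeFactors hp)] at hP
      obtain ⟨c, hc⟩ := Nat.dvd_of_mem_primeFactors hp
      rw [hc, Nat.cast_mul]
      exact Ideal.mul_mem_right _ _ hP
    · intro hP
      have h1 : (w : 𝓞 K) = ∏ p ∈ w.primeFactors, (p : 𝓞 K) ^ w.factorization p := by
        have h2 := Nat.prod_factorization_pow_eq_self hw
        conv_lhs => rw [← h2]
        rw [Finsupp.prod, Nat.support_factorization]
        push_cast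
        rfl
      rw [h1, Ideal.IsPrime.prod_mem_iff] at hP
      obtain ⟨p, hp, hpP⟩ := hP
      exact ⟨p, hp, (hS1 p (Nat.prime_of_mem_primeFactors hp) P).mpr
        (P.isPrime.mem_of_pow_mem _ hpP)⟩
  · calc (w.primeFactors.biUnion S).card ≤ ∑ p ∈ w.primeFactors, (S p).card :=
          Finset.card_biUnion_le
      _ ≤ ∑ _p ∈ w.primeFactors, finrank ℚ K := Finset.sum_le_sum fun p _ => hS2 p
      _ = finrank ℚ K * w.primeFactors.card := by
          rw [Finset.sum_const, smul_eq_mul, mul_comm]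

theorem sel_all (d : ℕ) : ∃ (A : ℕ) (C : ℝ), 1 ≤ C ∧ ∀ (K : Type) [Field K] [NumberField K],
    finrank ℚ K ≤ d → ∀ w : ℕ, w ≠ 0 → 2 ∣ w →
      ∃ n : ℕ, 1 ≤ n ∧ (n : ℝ) ≤ C * |(discr K : ℝ)| ^ A * ((2 ^ d : ℕ) : ℝ) ^ w.primeFactors.card ∧
        SelLe K w n := by
  classical
  obtain ⟨A, C, hC, h⟩ := sel_two d
  refine ⟨A, C, hC, fun K _ _ hK w hw h2 => ?_⟩
  obtain ⟨n, h1, hn, R, hR1, hR2, hR3⟩ := h K hK
  obtain ⟨s, hs, hsc⟩ := primes_card K hw
  refine ⟨n * 2 ^ s.card, Nat.mul_pos h1 (Nat.two_pow_pos _), ?_, ?_⟩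
  · have h3 : 2 ^ s.card ≤ (2 ^ d) ^ w.primeFactors.card := by
      rw [← pow_mul]
      exact Nat.pow_le_pow_right (by norm_num) (hsc.trans (Nat.mul_le_mul_right _ hK))
    have h4 : ((2 ^ s.card : ℕ) : ℝ) ≤ ((2 ^ d : ℕ) : ℝ) ^ w.primeFactors.card := by
      exact_mod_cast h3
    rw [Nat.cast_mul]
    exact mul_le_mul hn h4 (Nat.cast_nonneg _) ((Nat.cast_nonneg _).trans hn)
  -- the elements of even order outside `2` are in the set for `w`
  have h2w : ∀ P : HeightOneSpectrum (𝓞 K), (w : 𝓞 K) ∉ P.asIdeal → ((2 : ℕ) : 𝓞 K) ∉ P.asIdeal := by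
    intro P hP h
    apply hP
    obtain ⟨c, hc⟩ := h2
    rw [hc, Nat.cast_mul]
    exact Ideal.mul_mem_right _ _ h
  have hmul : ∀ a b : K, InSel w a → InSel w b → InSel w (a * b) := by
    intro a b ha hb
    refine ⟨mul_ne_zero ha.1 hb.1, fun P hP => ?_⟩
    rw [ord_mul P ha.1 hb.1]
    exact (ha.2 P hP).add (hb.2 P hP)
  have hone : InSel w (1 : K) := by
    refine ⟨one_ne_zero, fun P _ => ?_⟩
    rw [ord_one]
    exact Even.zero
  let par : K → Finset (HeightOneSpectrum (𝓞 K)) := fun a => s.filter fun P => Even (ord P a)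
  obtain ⟨rep, hrep1, hrep2⟩ : ∃ rep : Finset (HeightOneSpectrum (𝓞 K)) → K,
      (∀ f, InSel w (rep f)) ∧ ∀ a, InSel w a → par (rep (par a)) = par a := by
    refine ⟨fun f => if h : ∃ a, InSel w a ∧ par a = f then h.choose else 1, fun f => ?_,
      fun a ha => ?_⟩
    · dsimp only
      split_ifs with h
      · exact h.choose_spec.1
      · exact hone
    · have h5 : ∃ b, InSel w b ∧ par b = par a := ⟨a, ha, rfl⟩
      dsimp only
      rw [dif_pos h5]
      exact h5.choose_spec.2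
  refine ⟨(s.powerset ×ˢ R).image fun t => rep t.1 * t.2, ?_, ?_, ?_⟩
  · refine Finset.card_image_le.trans ?_
    rw [Finset.card_product, Finset.card_powerset, mul_comm]
    exact Nat.mul_le_mul_right _ hR1
  · intro r hr
    obtain ⟨t, ht, rfl⟩ := Finset.mem_image.mp hr
    refine hmul _ _ (hrep1 _) ?_
    have h5 := hR2 t.2 (Finset.mem_product.mp ht).2
    exact ⟨h5.1, fun P hP => h5.2 P (h2w P hP)⟩
  · intro a ha
    obtain ⟨c, hc⟩ : ∃ c, c = rep (par a) := ⟨_, rfl⟩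
    have hcS : InSel w c := by rw [hc]; exact hrep1 _
    have hcp : par c = par a := by rw [hc]; exact hrep2 a ha
    have hx : InSel 2 (a * c⁻¹) := by
      have hx0 : a * c⁻¹ ≠ 0 := mul_ne_zero ha.1 (inv_ne_zero hcS.1)
      refine ⟨hx0, fun P _ => ?_⟩
      have h6 : ord P a = ord P (a * c⁻¹) + ord P c := by
        rw [← ord_mul P hx0 hcS.1, mul_assoc, inv_mul_cancel₀ hcS.1, mul_one]
      have h7 : Even (ord P a) ↔ Even (ord P c) := by
        by_cases hP : P ∈ s
        · have h8 : P ∈ par c ↔ P ∈ par a := by rw [hcp]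
          simp only [par, Finset.mem_filter, hP, true_and] at h8
          exact h8.symm
        · have hPw : (w : 𝓞 K) ∉ P.asIdeal := fun h => hP ((hs P).mpr h)
          exact ⟨fun _ => hcS.2 P hPw, fun _ => ha.2 P hPw⟩
      rw [h6, Int.even_add] at h7
      by_cases hc' : Even (ord P c)
      · exact (h7.mpr hc').mpr hc'
      · by_contra hne
        exact hc' (h7.mp ⟨fun h => absurd h hne, fun h => absurd h hc'⟩)
    obtain ⟨r, hr, b, hb, hrb⟩ := hR3 _ hx
    refine ⟨c * r, ?_, b, hb, ?_⟩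
    · refine Finset.mem_image.mpr ⟨(par a, r), ?_, ?_⟩
      · exact Finset.mem_product.mpr ⟨Finset.mem_powerset.mpr (Finset.filter_subset _ _), hr⟩
      · rw [hc]
    · rw [mul_assoc, ← hrb, mul_comm c, mul_assoc, inv_mul_cancel₀ hcS.1, mul_one]

end FreySH
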