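import Pool.Agent.Lib.MP_6babc4_nt.SH.Ram

/-!
# Module Nrm: the classes over a quadratic extension
-/

set_option autoImplicit false

open NumberField IsDedekindDomain Module

namespace FreySH

open FreyTN FreyCyc FreySparse

private lemma nrm_mul {L : Type} [Field L] [NumberField L] {w : ℕ} {a c : L} (ha : InSel w a)
    (hc : InSel w c) : InSel w (a * c) := by
  refine ⟨mul_ne_zero ha.1 hc.1, fun P hP => ?_⟩
  rw [ord_mul P ha.1 hc.1]
  exact (ha.2 P hP).add (hc.2 P hP)

/-- Ring homomorphisms preserve the evenness. -/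
private lemma nrm_map {F L : Type} [Field F] [NumberField F] [Field L] [NumberField L]
    (f : F →+* L) {w : ℕ} {c : F} (hc : InSel w c) : InSel w (f c) := by
  let _ := f.toAlgebra
  refine ⟨(map_ne_zero f).2 hc.1, fun P' hP' => ?_⟩
  obtain ⟨P, e, hab, -, he⟩ := ord_algebraMap (E := F) P'
  have h1 : ord P' (f c) = e * ord P c := he c
  rw [h1]
  refine Even.mul_left (hc.2 P fun hw => hP' ?_) _
  have h2 := (mem_iff_of_above hab (w : 𝓞 F)).mpr hw
  rwa [map_natCast] at h2

/-- If `a = c y²` then `c` has even orders. -/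
private lemma nrm_sq {L : Type} [Field L] [NumberField L] {w : ℕ} {a c y : L} (ha : InSel w a)
    (h : a = c * y ^ 2) : InSel w c := by
  have hc : c ≠ 0 := by
    rintro rfl
    exact ha.1 (by rw [h, zero_mul])
  have hy : y ≠ 0 := by
    rintro rfl
    exact ha.1 (by rw [h]; ring)
  refine ⟨hc, fun P hP => ?_⟩
  have h1 := ha.2 P hP
  rw [h, ord_mul P hc (pow_ne_zero _ hy), ord_pow P hy] at h1
  rcases h1 with ⟨k, hk⟩
  refine ⟨k - ord P y, ?_⟩
  push_cast at hk
  omega

/-- An element of `F` which has even orders in `L` has even orders in `F`. -/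
private lemma nrm_down {F L : Type} [Field F] [NumberField F] [Field L] [NumberField L]
    [Algebra F L] {w : ℕ} (h2 : 2 ∣ w) {b : F} (hb : InSel w b) {x : L}
    (hx : x ^ 2 = algebraMap F L b)
    (htop : ∀ y : L, ∃ p q : F, y = algebraMap F L p + algebraMap F L q * x) {c : F}
    (hc : InSel w (algebraMap F L c)) : InSel w c := by
  refine ⟨fun h => hc.1 (by rw [h, map_zero]), fun v hv => ?_⟩
  obtain ⟨P, hP⟩ := exists_above L v
  obtain ⟨v', e, hab, -, he⟩ := ord_algebraMap (E := F) P
  obtain rfl : v' = v := below_unique hab hP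
  have hwP : (w : 𝓞 L) ∉ P.asIdeal := by
    intro h
    apply hv
    have h3 := (mem_iff_of_above hab (w : 𝓞 F)).mp
    rw [map_natCast] at h3
    exact h3 h
  have hodd : Odd e := odd_ram h2 hb hx htop hwP hab he
  have h4 := hc.2 P hwP
  rw [he, Int.even_mul] at h4
  rcases h4 with h4 | h4
  · exact absurd ((Int.even_coe_nat e).1 h4) (Nat.not_even_iff_odd.2 hodd)
  · exact h4

/-- The conjugation of a quadratic extension. -/
private lemma nrm_conj {F L : Type} [Field F] [Field L] [Algebra F L] {b : F} {x : L}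
    (hx : x ^ 2 = algebraMap F L b)
    (htop : ∀ y : L, ∃ p q : F, y = algebraMap F L p + algebraMap F L q * x)
    (hxF : ∀ c : F, algebraMap F L c ≠ x) :
    ∃ σ : L →+* L, (∀ c : F, σ (algebraMap F L c) = algebraMap F L c) ∧ σ x = -x ∧
      ∀ y, ∃ m : F, y * σ y = algebraMap F L m := by
  have key : ∀ p q p' q' : F, algebraMap F L p + algebraMap F L q * x =
      algebraMap F L p' + algebraMap F L q' * x → p = p' ∧ q = q' := by
    intro p q p' q' h
    have hq : q = q' := by
      by_contra hne
      have h3 : algebraMap F L q - algebraMap F L q' ≠ 0 := by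
        rw [← map_sub]
        exact (map_ne_zero _).2 (sub_ne_zero.2 hne)
      refine hxF ((p' - p) / (q - q')) ?_
      rw [map_div₀, map_sub, map_sub, div_eq_iff h3]
      linear_combination (-1 : L) * h
    subst hq
    exact ⟨(algebraMap F L).injective (add_right_cancel h), rfl⟩
  choose p q hpq using htop
  have hpF : ∀ c : F, p (algebraMap F L c) = c ∧ q (algebraMap F L c) = 0 := by
    intro c
    refine key _ _ _ _ ?_
    rw [← hpq, map_zero, zero_mul, add_zero]
  have hpx : p x = 0 ∧ q x = 1 := by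
    refine key _ _ _ _ ?_
    rw [← hpq, map_zero, map_one, one_mul, zero_add]
  have hadd : ∀ y z, p (y + z) = p y + p z ∧ q (y + z) = q y + q z := by
    intro y z
    refine key _ _ _ _ ?_
    rw [← hpq]
    conv_lhs => rw [hpq y, hpq z]
    rw [map_add, map_add]
    ring
  have hmul : ∀ y z, p (y * z) = p y * p z + q y * q z * b ∧ q (y * z) = p y * q z + q y * p z := by
    intro y z
    refine key _ _ _ _ ?_
    rw [← hpq]
    conv_lhs => rw [hpq y, hpq z]
    simp only [map_add, map_mul]
    rw [← hx]
    ring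
  let σ : L →+* L :=
    { toFun := fun y => algebraMap F L (p y) - algebraMap F L (q y) * x
      map_one' := by
        have h3 := hpF 1
        rw [map_one] at h3
        rw [h3.1, h3.2, map_one, map_zero, zero_mul, sub_zero]
      map_mul' := by
        intro y z
        rw [(hmul y z).1, (hmul y z).2]
        simp only [map_add, map_mul]
        rw [← hx]
        ring
      map_zero' := by
        have h3 := hpF 0
        rw [map_zero] at h3
        rw [h3.1, h3.2, map_zero, zero_mul, sub_zero]
      map_add' := by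
        intro y z
        rw [(hadd y z).1, (hadd y z).2, map_add, map_add]
        ring }
  have hσ : ∀ y, σ y = algebraMap F L (p y) - algebraMap F L (q y) * x := fun y => rfl
  refine ⟨σ, fun c => ?_, ?_, fun y => ⟨p y ^ 2 - q y ^ 2 * b, ?_⟩⟩
  · rw [hσ, (hpF c).1, (hpF c).2, map_zero, zero_mul, sub_zero]
  · rw [hσ, hpx.1, hpx.2, map_zero, map_one, one_mul, zero_sub]
  · rw [hσ, map_sub, map_mul, map_pow, map_pow]
    linear_combination (algebraMap F L (p y) - algebraMap F L (q y) * x) * hpq y -
      algebraMap F L (q y) ^ 2 * hx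

theorem sel_quad {F L : Type} [Field F] [NumberField F] [Field L] [NumberField L] [Algebra F L]
    {w : ℕ} (h2 : 2 ∣ w) {b : F} (hb : InSel w b) {x : L} (hx : x ^ 2 = algebraMap F L b)
    (htop : ∀ y : L, ∃ p q : F, y = algebraMap F L p + algebraMap F L q * x)
    {n : ℕ} (h1 : 1 ≤ n) (hn : SelLe F w n) : SelLe L w (n ^ 2) := by
  classical
  obtain ⟨R, hR1, hR2, hR3⟩ := hn
  have hinj := (algebraMap F L).injective
  by_cases hxF : ∃ c : F, algebraMap F L c = x
  · -- the degenerate case: `L = F`
    obtain ⟨x₀, hx₀⟩ := hxF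
    refine ⟨R.image (algebraMap F L), ?_, ?_, ?_⟩
    · refine Finset.card_image_le.trans (hR1.trans ?_)
      nlinarith
    · intro r hr
      obtain ⟨s, hs, rfl⟩ := Finset.mem_image.1 hr
      exact nrm_map _ (hR2 s hs)
    · intro a ha
      obtain ⟨p, q, hpq⟩ := htop a
      have hpq' : a = algebraMap F L (p + q * x₀) := by
        rw [hpq, map_add, map_mul, hx₀]
      have h3 : InSel w (p + q * x₀) := by
        apply nrm_down h2 hb hx htop
        rwa [← hpq']
      obtain ⟨r, hr, c, hc, hac⟩ := hR3 _ h3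
      refine ⟨algebraMap F L r, Finset.mem_image_of_mem _ hr, algebraMap F L c,
        (map_ne_zero _).2 hc, ?_⟩
      rw [hpq', hac, map_mul, map_pow]
  · push Not at hxF
    obtain ⟨σ, hσF, hσx, hσN⟩ := nrm_conj hx htop hxF
    have hx0 : x ≠ 0 := by
      intro h
      exact hxF 0 (by rw [h, map_zero])
    have hσne : ∀ y, y ≠ 0 → σ y ≠ 0 := fun y hy => (map_ne_zero σ).2 hy
    -- the norms of the elements of even orders
    have hN : ∀ a : L, InSel w a → ∃ r ∈ R, ∃ c : F, c ≠ 0 ∧ a * σ a = algebraMap F L (r * c ^ 2) := by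
      intro a ha
      obtain ⟨m, hm⟩ := hσN a
      have h3 : InSel w (algebraMap F L m) := by
        rw [← hm]
        exact nrm_mul ha (nrm_map σ ha)
      obtain ⟨r, hr, c, hc, hmc⟩ := hR3 m (nrm_down h2 hb hx htop h3)
      exact ⟨r, hr, c, hc, by rw [hm, hmc]⟩
    -- representatives
    have hrep : ∀ r : F, ∃ a : L, InSel w a ∧ ((∃ a' : L, InSel w a' ∧ ∃ c : F, c ≠ 0 ∧
        a' * σ a' = algebraMap F L (r * c ^ 2)) → ∃ c : F, c ≠ 0 ∧
        a * σ a = algebraMap F L (r * c ^ 2)) := by
      intro r
      by_cases h : ∃ a' : L, InSel w a' ∧ ∃ c : F, c ≠ 0 ∧ a' * σ a' = algebraMap F L (r * c ^ 2)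
      · obtain ⟨a', h3, h4⟩ := h
        exact ⟨a', h3, fun _ => h4⟩
      · refine ⟨1, ⟨one_ne_zero, fun P _ => ?_⟩, fun h' => absurd h' h⟩
        rw [ord_one]
        exact Even.zero
    choose rep hrep1 hrep2 using hrep
    refine ⟨(R ×ˢ R).image fun z => rep z.1 * algebraMap F L z.2, ?_, ?_, ?_⟩
    · refine Finset.card_image_le.trans ?_
      rw [Finset.card_product, pow_two]
      exact Nat.mul_le_mul hR1 hR1
    · intro r hr
      obtain ⟨z, hz, rfl⟩ := Finset.mem_image.1 hr
      exact nrm_mul (hrep1 _) (nrm_map _ (hR2 _ (Finset.mem_product.1 hz).2))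
    · intro a ha
      obtain ⟨r, hr, c, hc, hac⟩ := hN a ha
      obtain ⟨c₁, hc₁, hac₁⟩ := hrep2 r ⟨a, ha, c, hc, hac⟩
      have hr0 : r ≠ 0 := (hR2 r hr).1
      obtain ⟨t, ht⟩ : ∃ t : F, t = r * c * c₁ := ⟨_, rfl⟩
      have ht0 : t ≠ 0 := by
        rw [ht]
        exact mul_ne_zero (mul_ne_zero hr0 hc) hc₁
      have hrep0 : rep r ≠ 0 := (hrep1 r).1
      have htL : algebraMap F L t ≠ 0 := (map_ne_zero _).2 ht0
      -- `a rep r = f l²`
      obtain ⟨f, l, hf, hl, hfl⟩ : ∃ (f : F) (l : L), f ≠ 0 ∧ l ≠ 0 ∧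
          a * rep r = algebraMap F L f * l ^ 2 := by
        obtain ⟨α, hα⟩ : ∃ α : L, α = a * rep r / algebraMap F L t := ⟨_, rfl⟩
        have hαt : a * rep r = α * algebraMap F L t := by
          rw [hα, div_mul_cancel₀ _ htL]
        have hN1 : α * σ α = 1 := by
          have h3 : (a * rep r) * σ (a * rep r) = algebraMap F L t ^ 2 := by
            rw [map_mul]
            calc a * rep r * (σ a * σ (rep r)) = (a * σ a) * (rep r * σ (rep r)) := by ring
              _ = algebraMap F L (r * c ^ 2) * algebraMap F L (r * c₁ ^ 2) := by rw [hac, hac₁]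
              _ = _ := by
                rw [← map_mul, ← map_pow]
                congr 1
                rw [ht]
                ring
          rw [hαt, map_mul, hσF] at h3
          have h4 : (α * σ α - 1) * algebraMap F L t ^ 2 = 0 := by linear_combination h3
          rcases mul_eq_zero.1 h4 with h5 | h5
          · exact sub_eq_zero.1 h5
          · exact absurd h5 (pow_ne_zero _ htL)
        -- Hilbert 90
        obtain ⟨l, hl, hαl⟩ : ∃ l : L, l ≠ 0 ∧ α * σ l = l := by
          by_cases h5 : 1 + α = 0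
          · refine ⟨x, hx0, ?_⟩
            rw [hσx]
            linear_combination (-x) * h5
          · refine ⟨1 + α, h5, ?_⟩
            rw [map_add, map_one]
            linear_combination hN1
        obtain ⟨m, hm⟩ := hσN l
        have hm0 : m ≠ 0 := by
          rintro rfl
          rw [map_zero] at hm
          exact mul_ne_zero hl (hσne l hl) hm
        have hmL : algebraMap F L m ≠ 0 := (map_ne_zero _).2 hm0
        refine ⟨t / m, l, div_ne_zero ht0 hm0, hl, ?_⟩
        have h6 : α * algebraMap F L m = l ^ 2 := by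
          rw [← hm, pow_two]
          linear_combination l * hαl
        rw [hαt, map_div₀, ← h6]
        field_simp
      have hfS : InSel w f := by
        apply nrm_down h2 hb hx htop
        exact nrm_sq (nrm_mul ha (hrep1 r)) hfl
      obtain ⟨s, hs, b₁, hb₁, hfs⟩ := hR3 f hfS
      have hb₁L : algebraMap F L b₁ ≠ 0 := (map_ne_zero _).2 hb₁
      refine ⟨rep r * algebraMap F L s, Finset.mem_image.2 ⟨(r, s), Finset.mem_product.2 ⟨hr, hs⟩,
        rfl⟩, algebraMap F L b₁ * l / rep r, div_ne_zero (mul_ne_zero hb₁L hl) hrep0, ?_⟩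
      have h7 : a * rep r = algebraMap F L s * algebraMap F L b₁ ^ 2 * l ^ 2 := by
        rw [hfl, hfs, map_mul, map_pow]
      field_simp
      linear_combination h7

end FreySH
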