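import Pool.Agent.Lib.MP_6babc4_nt.SH.Twf
import Pool.Agent.Lib.MP_6babc4_nt.SH.Nrm

/-!
# Module Twc: the number of towers
-/

set_option autoImplicit false

open NumberField IsDedekindDomain Module

namespace FreySH

open FreyTN FreyCyc FreySparse

/-- the field depends only on the class modulo squares -/
private theorem twc_eq {F : IntermediateField ℚ ℂ} {a r b : F} (hb : b ≠ 0) (h : a = r * b ^ 2)
    {x y : ℂ} (hx : x ^ 2 = (a : ℂ)) (hy : y ^ 2 = (r : ℂ)) :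
    F ⊔ IntermediateField.adjoin ℚ {x} = F ⊔ IntermediateField.adjoin ℚ {y} := by
  have hb' : (b : ℂ) ≠ 0 := by
    simpa using hb
  have h1 : x ^ 2 = (b * y) ^ 2 := by
    rw [hx, h, mul_pow, hy]
    push_cast
    ring
  have h2 : ∃ c : F, c ≠ 0 ∧ x = c * y := by
    rcases sq_eq_sq_iff_eq_or_eq_neg.1 h1 with h | h
    · exact ⟨b, hb, h⟩
    · exact ⟨-b, neg_ne_zero.2 hb, by rw [h]; push_cast; ring⟩
  obtain ⟨c, hc, h3⟩ := h2
  have hc' : (c : ℂ) ≠ 0 := by
    simpa using hc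
  refine le_antisymm (sup_le le_sup_left ?_) (sup_le le_sup_left ?_)
  · rw [IntermediateField.adjoin_simple_le_iff]
    exact (twf_mem hy).2 ⟨0, c, by rw [h3]; simp⟩
  · rw [IntermediateField.adjoin_simple_le_iff]
    refine (twf_mem hx).2 ⟨0, c⁻¹, ?_⟩
    rw [h3]
    push_cast
    field_simp
    simp

private theorem twc_fin {F : IntermediateField ℚ ℂ} [NumberField F] {w n : ℕ}
    (hn : SelLe F w n) : ∃ s : Finset (IntermediateField ℚ ℂ), s.card ≤ n ∧
      ∀ (a : F) (x : ℂ), InSel w a → x ^ 2 = (a : ℂ) → F ⊔ IntermediateField.adjoin ℚ {x} ∈ s := by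
  classical
  obtain ⟨R, hR, -, hR2⟩ := hn
  have hs : ∀ r : F, ∃ y : ℂ, y ^ 2 = (r : ℂ) := fun r =>
    IsAlgClosed.exists_pow_nat_eq _ two_pos
  choose s hs using hs
  refine ⟨R.image fun r => F ⊔ IntermediateField.adjoin ℚ {s r}, Finset.card_image_le.trans hR,
    fun a x ha hx => ?_⟩
  obtain ⟨r, hr, b, hb, h⟩ := hR2 a ha
  rw [twc_eq hb h hx (hs r)]
  exact Finset.mem_image_of_mem _ hr

private theorem twc_sel {F : IntermediateField ℚ ℂ} [NumberField F] {w : ℕ} (h2 : 2 ∣ w) {n : ℕ}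
    (h1 : 1 ≤ n) (hn : SelLe F w n) {a : F} (ha : InSel w a) {x : ℂ} (hx : x ^ 2 = (a : ℂ)) :
    ∃ _ : NumberField (F ⊔ IntermediateField.adjoin ℚ {x} : IntermediateField ℚ ℂ),
      SelLe (F ⊔ IntermediateField.adjoin ℚ {x} : IntermediateField ℚ ℂ) w (n ^ 2) := by
  have hN := (twf_step hx).1
  refine ⟨hN, ?_⟩
  have hF : F ≤ F ⊔ IntermediateField.adjoin ℚ {x} := le_sup_left
  let _ : Algebra F (F ⊔ IntermediateField.adjoin ℚ {x} : IntermediateField ℚ ℂ) :=
    (IntermediateField.inclusion hF).toRingHom.toAlgebra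
  have hxF : x ∈ F ⊔ IntermediateField.adjoin ℚ {x} :=
    (le_sup_right : IntermediateField.adjoin ℚ {x} ≤ F ⊔ IntermediateField.adjoin ℚ {x})
      (IntermediateField.mem_adjoin_simple_self ℚ x)
  refine sel_quad h2 ha (x := ⟨x, hxF⟩) ?_ (fun y => ?_) h1 hn
  · exact Subtype.ext hx
  · obtain ⟨p, q, h⟩ := (twf_mem hx).1 y.2
    exact ⟨p, q, Subtype.ext h⟩

theorem tow_card {K : IntermediateField ℚ ℂ} [NumberField K] {w : ℕ} (h2 : 2 ∣ w) {n : ℕ}
    (h1 : 1 ≤ n) (hn : SelLe K w n) (m : ℕ) :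
    (Tow K w m).Finite ∧ (Tow K w m).ncard ≤ n ^ (2 ^ m) ∧
      ∀ F ∈ Tow K w m, ∃ _ : NumberField F, SelLe F w (n ^ (2 ^ m)) := by
  classical
  induction m with
  | zero =>
    refine ⟨Set.finite_singleton K, ?_, ?_⟩
    · show ({K} : Set (IntermediateField ℚ ℂ)).ncard ≤ _
      rw [Set.ncard_singleton, pow_zero, pow_one]
      exact h1
    · rintro F rfl
      exact ⟨inferInstance, by simpa using hn⟩
  | succ m ih =>
    obtain ⟨hfin, hcard, hsel⟩ := ih
    have hs : ∀ F : IntermediateField ℚ ℂ, ∃ s : Finset (IntermediateField ℚ ℂ),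
        s.card ≤ n ^ 2 ^ m ∧ (F ∈ Tow K w m → ∀ (_ : NumberField F) (a : F) (x : ℂ), InSel w a →
          x ^ 2 = (a : ℂ) → F ⊔ IntermediateField.adjoin ℚ {x} ∈ s) := by
      intro F
      by_cases hF : F ∈ Tow K w m
      · obtain ⟨hN, hS⟩ := hsel F hF
        obtain ⟨s, hs, hs2⟩ := twc_fin hS
        exact ⟨s, hs, fun _ _ a x ha hx => hs2 a x ha hx⟩
      · exact ⟨∅, by simp, fun h => absurd h hF⟩
    choose s hs hs2 using hs
    have hsub : Tow K w (m + 1) ⊆ (hfin.toFinset.biUnion s : Finset (IntermediateField ℚ ℂ)) := by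
      rintro F' ⟨F, hF, hN, a, x, ha, hx, rfl⟩
      rw [Finset.mem_coe, Finset.mem_biUnion]
      exact ⟨F, hfin.mem_toFinset.2 hF, hs2 F hF hN a x ha hx⟩
    refine ⟨(Finset.finite_toSet _).subset hsub, ?_, ?_⟩
    · refine (Set.ncard_le_ncard hsub (Finset.finite_toSet _)).trans ?_
      rw [Set.ncard_coe_finset]
      refine (Finset.card_biUnion_le_card_mul _ _ (n ^ 2 ^ m) fun F _ => hs F).trans ?_
      rw [← Set.ncard_eq_toFinset_card _ hfin, pow_succ 2 m, pow_mul, pow_two]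
      exact Nat.mul_le_mul_right _ hcard
    · rintro F' ⟨F, hF, hN, a, x, ha, hx, rfl⟩
      obtain ⟨hN', hS⟩ := hsel F hF
      obtain ⟨hN2, hS2⟩ := twc_sel h2 (Nat.one_le_pow _ _ h1) hS ha hx
      refine ⟨hN2, ?_⟩
      rw [pow_succ 2 m, pow_mul]
      exact hS2

end FreySH
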