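import Pool.Agent.Lib.MP_6babc4_nt.SH.Defs

/-!
# Module Twf: the fields of a tower
-/

set_option autoImplicit false

open NumberField IsDedekindDomain Module

namespace FreySH

open FreyTN FreyCyc FreySparse

/-- the field generated by a square root -/
theorem twf_mem {F : IntermediateField ℚ ℂ} {x : ℂ} {a : F} (hx : x ^ 2 = (a : ℂ)) {y : ℂ} :
    y ∈ F ⊔ IntermediateField.adjoin ℚ {x} ↔ ∃ p q : F, y = p + q * x := by
  constructor
  · intro hy
    have hint : IsIntegral F x := by
      refine ⟨Polynomial.X ^ 2 - Polynomial.C a, Polynomial.monic_X_pow_sub_C a two_ne_zero, ?_⟩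
      simp only [Polynomial.eval₂_sub, Polynomial.eval₂_X_pow, Polynomial.eval₂_C]
      rw [hx]
      exact sub_self _
    rw [← IntermediateField.restrictScalars_adjoin_eq_sup,
      IntermediateField.mem_restrictScalars, ← IntermediateField.mem_toSubalgebra,
      IntermediateField.adjoin_simple_toSubalgebra_of_isAlgebraic hint.isAlgebraic] at hy
    induction hy using Algebra.adjoin_induction with
    | mem y hy =>
      rw [Set.mem_singleton_iff] at hy
      exact ⟨0, 1, by rw [hy]; simp⟩
    | algebraMap r => exact ⟨r, 0, by simp⟩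
    | add y z _ _ hy hz =>
      obtain ⟨p, q, rfl⟩ := hy
      obtain ⟨p', q', rfl⟩ := hz
      exact ⟨p + p', q + q', by push_cast; ring⟩
    | mul y z _ _ hy hz =>
      obtain ⟨p, q, rfl⟩ := hy
      obtain ⟨p', q', rfl⟩ := hz
      refine ⟨p * p' + q * q' * a, p * q' + q * p', ?_⟩
      push_cast
      rw [← hx]
      ring
  · rintro ⟨p, q, rfl⟩
    have h1 : F ≤ F ⊔ IntermediateField.adjoin ℚ {x} := le_sup_left
    have h2 : IntermediateField.adjoin ℚ {x} ≤ F ⊔ IntermediateField.adjoin ℚ {x} := le_sup_right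
    exact add_mem (h1 p.2) (mul_mem (h1 q.2)
      (h2 (IntermediateField.mem_adjoin_simple_self ℚ x)))

theorem twf_step {F : IntermediateField ℚ ℂ} [NumberField F] {x : ℂ} {a : F}
    (hx : x ^ 2 = (a : ℂ)) : NumberField (F ⊔ IntermediateField.adjoin ℚ {x} : IntermediateField ℚ ℂ) ∧
      finrank ℚ (F ⊔ IntermediateField.adjoin ℚ {x} : IntermediateField ℚ ℂ) ≤
        2 * finrank ℚ F := by
  let F' : IntermediateField ℚ ℂ := F ⊔ IntermediateField.adjoin ℚ {x}
  have hF : F ≤ F' := le_sup_left
  have hxF : x ∈ F' := (le_sup_right : IntermediateField.adjoin ℚ {x} ≤ F')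
    (IntermediateField.mem_adjoin_simple_self ℚ x)
  let φ : (F × F) →ₗ[ℚ] F' :=
    { toFun := fun z => ⟨z.1 + z.2 * x, add_mem (hF z.1.2) (mul_mem (hF z.2.2) hxF)⟩
      map_add' := fun z z' => by
        apply Subtype.ext
        push_cast [Prod.fst_add, Prod.snd_add]
        ring
      map_smul' := fun c z => by
        apply Subtype.ext
        simp only [Prod.smul_fst, Prod.smul_snd, RingHom.id_apply, IntermediateField.coe_smul]
        rw [smul_add, smul_mul_assoc] }
  have hφ : Function.Surjective φ := fun y => by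
    obtain ⟨p, q, h⟩ := (twf_mem hx).1 y.2
    exact ⟨(p, q), Subtype.ext h.symm⟩
  have hfin : FiniteDimensional ℚ F' := Module.Finite.of_surjective φ hφ
  refine ⟨{ to_charZero := inferInstance, to_finiteDimensional := hfin }, ?_⟩
  have h1 := LinearMap.finrank_le_finrank_of_surjective (f := φ) hφ
  rw [Module.finrank_prod] at h1
  change finrank ℚ F' ≤ _
  omega

theorem tow_field {K : IntermediateField ℚ ℂ} [NumberField K] {w : ℕ} (m : ℕ) :
    ∀ F ∈ Tow K w m, K ≤ F ∧ NumberField F ∧ finrank ℚ F ≤ 2 ^ m * finrank ℚ K := by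
  induction m with
  | zero =>
    rintro F rfl
    exact ⟨le_rfl, inferInstance, by simp⟩
  | succ m ih =>
    rintro F' ⟨F, hF, hN, a, x, ha, hx, rfl⟩
    obtain ⟨h1, h2, h3⟩ := ih F hF
    obtain ⟨h4, h5⟩ := twf_step hx
    refine ⟨h1.trans le_sup_left, h4, h5.trans ?_⟩
    rw [pow_succ]
    nlinarith

end FreySH
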