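import Pool.Agent.Lib.MP_6babc4_nt.SH.Om
import Pool.Agent.Lib.MP_6babc4_nt.SH.Sel
import Pool.Agent.Lib.MP_6babc4_nt.SH.Twf
import Pool.Agent.Lib.MP_6babc4_nt.SH.Twc
import Pool.Agent.Lib.MP_6babc4_nt.TN.Fxd

/-!
# Module Cnt: the count over one field
-/

set_option autoImplicit false

open NumberField IsDedekindDomain Module Filter Topology

namespace FreySH

open FreyTN FreyCyc FreySparse

/-- The points over `K` with an arc over a tower. -/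
def TSet {g : ℕ} (δ : ℕ → ℝ) (k m : ℕ) (K : IntermediateField ℚ ℂ) (w : ℕ) (R : ℝ) :
    Set (GI g → 𝓞 K) :=
  {u | (∃ b, u b ≠ 0) ∧ ∃ F ∈ Tow K w m, ∃ (_ : NumberField F) (v : ℕ → GI g → 𝓞 F),
    Arc k R δ F.val.toRingHom v ∧ ∀ b, ((v 0 b : F) : ℂ) = ((u b : K) : ℂ)}

private lemma cnt_max {α : Type*} (P : Finset α → Prop) (h0 : P ∅) (N : ℕ)
    (hN : ∀ U, P U → U.card ≤ N) : ∃ U, P U ∧ ∀ V, P V → V.card ≤ U.card := by
  classical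
  have hex : ∃ n, ∃ U, P U ∧ U.card = n := ⟨0, ∅, h0, rfl⟩
  have hb : ∀ n, (∃ U, P U ∧ U.card = n) → n ≤ N := by
    rintro n ⟨U, hU, rfl⟩
    exact hN U hU
  obtain ⟨U, hU, hc⟩ := Nat.findGreatest_spec (P := fun n => ∃ U, P U ∧ U.card = n)
    (Nat.zero_le N) ⟨∅, h0, rfl⟩
  refine ⟨U, hU, fun V hV => ?_⟩
  rw [hc]
  exact Nat.le_findGreatest (hb _ ⟨V, hV, rfl⟩) ⟨V, hV, rfl⟩

/-- One field. -/
private lemma cnt_one (g : ℕ) {δ : ℕ → ℝ} {k M₀ M : ℕ} {C ε : ℝ}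
    (hfix : ∀ (E F : Type) [Field E] [NumberField E] [Field F] [NumberField F] [Algebra E F],
      finrank ℚ E ≤ M₀ → finrank ℚ F ≤ M → ∀ (σ : F →+* ℂ) (R : ℝ), 1 ≤ R →
        ∀ U : Finset (GI g → 𝓞 E), (∀ u ∈ U, ∀ w ∈ U, u ≠ w → NPr u w) →
          (∀ u ∈ U, ∃ v : ℕ → GI g → 𝓞 F,
            Arc k R δ σ v ∧ ∀ b, v 0 b = algebraMap (𝓞 E) (𝓞 F) (u b)) →
          (U.card : ℝ) ≤ C * R ^ ε)
    (K F : IntermediateField ℚ ℂ) [NumberField K] [NumberField F] (hKF : K ≤ F)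
    (hK : finrank ℚ K ≤ M₀) (hF : finrank ℚ F ≤ M) {R : ℝ} (hR : 1 ≤ R) :
    ∃ T : Finset (GI g → 𝓞 K), (T.card : ℝ) ≤ C * R ^ ε ∧ (∀ z ∈ T, ∃ b, z b ≠ 0) ∧
      ∀ u : GI g → 𝓞 K, (∃ b, u b ≠ 0) → (∃ v : ℕ → GI g → 𝓞 F,
        Arc k R δ F.val.toRingHom v ∧ ∀ b, ((v 0 b : F) : ℂ) = ((u b : K) : ℂ)) →
          ∃ z ∈ T, ¬ NPr u z := by
  classical
  let _ : Algebra K F := (IntermediateField.inclusion hKF).toRingHom.toAlgebra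
  obtain ⟨P, hP⟩ : ∃ P : Finset (GI g → 𝓞 K) → Prop, P = fun U =>
      (∀ u ∈ U, ∀ w ∈ U, u ≠ w → NPr u w) ∧ ∀ u ∈ U, (∃ i, u i ≠ 0) ∧
        ∃ v : ℕ → GI g → 𝓞 F, Arc k R δ F.val.toRingHom v ∧
          ∀ b, ((v 0 b : F) : ℂ) = ((u b : K) : ℂ) := ⟨_, rfl⟩
  have hPc : ∀ U, P U → (U.card : ℝ) ≤ C * R ^ ε := by
    intro U hU
    rw [hP] at hU
    refine hfix K F hK hF F.val.toRingHom R hR U hU.1 fun u hu => ?_
    obtain ⟨-, v, hv, hvu⟩ := hU.2 u hu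
    refine ⟨v, hv, fun b => RingOfIntegers.ext ?_⟩
    apply Subtype.ext
    exact hvu b
  obtain ⟨U, hU, hmax⟩ := cnt_max P (by
    rw [hP]
    refine ⟨fun u hu => ?_, fun u hu => ?_⟩
    · exact absurd hu (Finset.notMem_empty u)
    · exact absurd hu (Finset.notMem_empty u)) ⌊C * R ^ ε⌋₊ (fun U hU => Nat.le_floor (hPc U hU))
  have hUc := hPc U hU
  have hU' := hU
  rw [hP] at hU'
  obtain ⟨hU1, hU2⟩ := hU'
  refine ⟨U, hUc, fun z hz => (hU2 z hz).1, fun u hu hv => ?_⟩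
  by_contra hcon
  push Not at hcon
  have hnot : u ∉ U := by
    intro hmem
    obtain ⟨i, j, hij⟩ := hcon u hmem
    exact hij (mul_comm _ _)
  have hP' : P (insert u U) := by
    rw [hP]
    refine ⟨?_, ?_⟩
    · intro x hx y hy hxy
      rw [Finset.mem_insert] at hx hy
      rcases hx with rfl | hx
      · rcases hy with rfl | hy
        · exact absurd rfl hxy
        · exact hcon y hy
      · rcases hy with rfl | hy
        · obtain ⟨i, j, hij⟩ := hcon x hx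
          refine ⟨i, j, fun he => hij ?_⟩
          rw [mul_comm (y i), mul_comm (y j)]
          exact he.symm
        · exact hU1 x hx y hy hxy
    · intro x hx
      rw [Finset.mem_insert] at hx
      rcases hx with rfl | hx
      · exact ⟨hu, hv⟩
      · exact hU2 x hx
  have h1 := hmax _ hP'
  rw [Finset.card_insert_of_notMem hnot] at h1
  omega

theorem tset_count (g : ℕ) {δ : ℕ → ℝ} (hδ : Tendsto δ atTop (𝓝 0)) (d : ℕ) {ε : ℝ}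
    (hε : 0 < ε) : ∃ (k A : ℕ) (C : ℝ), 1 ≤ C ∧ ∀ (K : IntermediateField ℚ ℂ) [NumberField K],
      finrank ℚ K ≤ d → ∀ w : ℕ, w ≠ 0 → 2 ∣ w → ∀ R : ℝ, 1 ≤ R →
        ∃ T : Finset (GI g → 𝓞 K), (T.card : ℝ) ≤ C * |(discr K : ℝ)| ^ A * (w : ℝ) ^ ε * R ^ ε ∧
          (∀ z ∈ T, ∃ b, z b ≠ 0) ∧
          ∀ u ∈ TSet δ k (k * 2 ^ g) K w R, ∃ z ∈ T, ¬ NPr u z := by
  classical
  obtain ⟨k, hk⟩ := fixed_count g hδ d hε
  obtain ⟨m, hm⟩ : ∃ m : ℕ, m = k * 2 ^ g := ⟨_, rfl⟩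
  obtain ⟨C₁, hC₁, hfix⟩ := hk (2 ^ m * d)
  obtain ⟨A, C₂, hC₂, hsel⟩ := sel_all d
  obtain ⟨C₃, hC₃, hom⟩ := omega_pow ((2 ^ d) ^ 2 ^ m) hε
  refine ⟨k, A * 2 ^ m, C₂ ^ 2 ^ m * C₃ * C₁, ?_, ?_⟩
  · exact one_le_mul_of_one_le_of_one_le
      (one_le_mul_of_one_le_of_one_le (one_le_pow₀ hC₂) hC₃) hC₁
  intro K _ hK w hw h2 R hR
  rw [← hm]
  obtain ⟨n, h1, hn, hS⟩ := hsel K hK w hw h2
  obtain ⟨hfin, hcard, -⟩ := tow_card h2 h1 hS m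
  have hRε : 0 ≤ R ^ ε := Real.rpow_nonneg (by linarith) _
  have hCR : 0 ≤ C₁ * R ^ ε := mul_nonneg (by linarith) hRε
  have key : ∀ F : IntermediateField ℚ ℂ, ∃ T : Finset (GI g → 𝓞 K),
      (T.card : ℝ) ≤ C₁ * R ^ ε ∧ (∀ z ∈ T, ∃ b, z b ≠ 0) ∧
      (F ∈ Tow K w m → ∀ u : GI g → 𝓞 K, (∃ b, u b ≠ 0) →
        (∃ (_ : NumberField F) (v : ℕ → GI g → 𝓞 F), Arc k R δ F.val.toRingHom v ∧
          ∀ b, ((v 0 b : F) : ℂ) = ((u b : K) : ℂ)) → ∃ z ∈ T, ¬ NPr u z) := by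
    intro F
    by_cases hF : F ∈ Tow K w m
    · obtain ⟨hKF, hNF, hdeg⟩ := tow_field m F hF
      have hdeg' : finrank ℚ F ≤ 2 ^ m * d := hdeg.trans (Nat.mul_le_mul_left _ hK)
      obtain ⟨T, hT1, hT2, hT3⟩ := cnt_one g hfix K F hKF hK hdeg' hR
      refine ⟨T, hT1, hT2, fun _ u hu hv => hT3 u hu ?_⟩
      obtain ⟨_, v, hv1, hv2⟩ := hv
      exact ⟨v, hv1, hv2⟩
    · refine ⟨∅, ?_, fun z hz => absurd hz (Finset.notMem_empty z), fun h => absurd h hF⟩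
      rw [Finset.card_empty, Nat.cast_zero]
      exact hCR
  choose T hT1 hT2 hT3 using key
  refine ⟨hfin.toFinset.biUnion T, ?_, ?_, ?_⟩
  · have h3 : (((hfin.toFinset.biUnion T).card : ℕ) : ℝ) ≤ (n : ℝ) ^ 2 ^ m * (C₁ * R ^ ε) := by
      have h4 : (hfin.toFinset.biUnion T).card ≤ ∑ F ∈ hfin.toFinset, (T F).card :=
        Finset.card_biUnion_le
      have h5 : (((hfin.toFinset.biUnion T).card : ℕ) : ℝ) ≤
          ∑ F ∈ hfin.toFinset, ((T F).card : ℝ) := by exact_mod_cast h4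
      refine h5.trans ((Finset.sum_le_sum fun F _ => hT1 F).trans ?_)
      rw [Finset.sum_const, nsmul_eq_mul]
      refine mul_le_mul_of_nonneg_right ?_ hCR
      rw [← Set.ncard_eq_toFinset_card _ hfin]
      exact_mod_cast hcard
    have h4 : (n : ℝ) ^ 2 ^ m ≤ C₂ ^ 2 ^ m * |(discr K : ℝ)| ^ (A * 2 ^ m) *
        (((2 ^ d) ^ 2 ^ m : ℕ) : ℝ) ^ w.primeFactors.card := by
      refine (pow_le_pow_left₀ (Nat.cast_nonneg _) hn _).trans (le_of_eq ?_)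
      rw [mul_pow, mul_pow, ← pow_mul, ← pow_mul]
      congr 1
      push_cast
      rw [← pow_mul, ← pow_mul, ← pow_mul]
      congr 1
      ring
    have h5 := hom w hw
    have hD : 0 ≤ |(discr K : ℝ)| ^ (A * 2 ^ m) := by positivity
    have hC2m : 0 ≤ C₂ ^ 2 ^ m := by
      have : 0 ≤ C₂ := by linarith
      positivity
    calc (((hfin.toFinset.biUnion T).card : ℕ) : ℝ) ≤ (n : ℝ) ^ 2 ^ m * (C₁ * R ^ ε) := h3
      _ ≤ (C₂ ^ 2 ^ m * |(discr K : ℝ)| ^ (A * 2 ^ m) *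
          (((2 ^ d) ^ 2 ^ m : ℕ) : ℝ) ^ w.primeFactors.card) * (C₁ * R ^ ε) :=
          mul_le_mul_of_nonneg_right h4 hCR
      _ ≤ (C₂ ^ 2 ^ m * |(discr K : ℝ)| ^ (A * 2 ^ m) * (C₃ * (w : ℝ) ^ ε)) * (C₁ * R ^ ε) :=
          mul_le_mul_of_nonneg_right (mul_le_mul_of_nonneg_left h5 (mul_nonneg hC2m hD)) hCR
      _ = _ := by ring
  · intro z hz
    obtain ⟨F, -, hF⟩ := Finset.mem_biUnion.mp hz
    exact hT2 F z hF
  · rintro u ⟨hu, F, hF, hv⟩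
    obtain ⟨z, hz, hzu⟩ := hT3 F hF u hu hv
    exact ⟨z, Finset.mem_biUnion.mpr ⟨F, hfin.mem_toFinset.mpr hF, hz⟩, hzu⟩

end FreySH
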