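import Pool.Agent.Lib.MP_6babc4_nt.TN.Dfn
import Pool.Agent.Lib.MP_6babc4_nt.Cyc.Tow

/-!
# Selmer groups modulo squares and towers of square roots: definitions
-/

set_option autoImplicit false

open NumberField IsDedekindDomain Module

namespace FreySH

open FreyTN FreyCyc FreySparse

/-- `a ≠ 0` has even order at all primes not containing `w`. -/
def InSel {L : Type} [Field L] [NumberField L] (w : ℕ) (a : L) : Prop :=
  a ≠ 0 ∧ ∀ P : HeightOneSpectrum (𝓞 L), (w : 𝓞 L) ∉ P.asIdeal → Even (ord P a)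

/-- The elements with `InSel` form at most `n` classes modulo squares. -/
def SelLe (L : Type) [Field L] [NumberField L] (w n : ℕ) : Prop :=
  ∃ R : Finset L, R.card ≤ n ∧ (∀ r ∈ R, InSel w r) ∧
    ∀ a : L, InSel w a → ∃ r ∈ R, ∃ b : L, b ≠ 0 ∧ a = r * b ^ 2

/-- The towers of `m` square roots over `K` in `ℂ`, of elements of even order at the primes not
containing `w`. -/
def Tow (K : IntermediateField ℚ ℂ) (w : ℕ) : ℕ → Set (IntermediateField ℚ ℂ)
  | 0 => {K}
  | m + 1 => {F' | ∃ F ∈ Tow K w m, ∃ (_ : NumberField F) (a : F) (x : ℂ), InSel w a ∧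
      x ^ 2 = (a : ℂ) ∧ F' = F ⊔ IntermediateField.adjoin ℚ {x}}

/-- Frey's inequality `h(u) ≤ κ log ∏ N v` for the point `u`, the product over a finite set of bad primes `v`
of `K`; no other constant. -/
def FreyK {g : ℕ} (κ : ℝ) (K : IntermediateField ℚ ℂ) [NumberField K]
    (τ : Matrix (Fin g) (Fin g) ℂ) (u : GI g → K) : Prop :=
  ∃ s : Finset (HeightOneSpectrum (𝓞 K)), (∀ v ∈ s, Bad K τ v) ∧
    Height.logHeight u / finrank ℚ K ≤ κ * Real.log (∏ v ∈ s, (Ideal.absNorm v.asIdeal : ℝ))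

end FreySH
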