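import Pool.Agent.Lib.MP_6babc4_nt.SH.QDefs
import Pool.Agent.Lib.MP_6babc4_nt.SH.Twf

/-!
# Module Qtf: the fields obtained by square roots
-/

set_option autoImplicit false

open NumberField IsDedekindDomain Module

namespace FreySH

open FreyTN FreyCyc FreySparse

theorem qtow_field {K : IntermediateField ℚ ℂ} [NumberField K] (r : ℕ) :
    ∀ F ∈ QTow K r, K ≤ F ∧ NumberField F ∧ finrank ℚ F ≤ 2 ^ r * finrank ℚ K := by
  induction r with
  | zero =>
    rintro F rfl
    exact ⟨le_rfl, inferInstance, by simp⟩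
  | succ r ih =>
    rintro F' ⟨F, hF, x, hx, rfl⟩
    obtain ⟨h1, h2, h3⟩ := ih F hF
    obtain ⟨h4, h5⟩ := twf_step (F := F) (x := x) (a := ⟨x ^ 2, hx⟩) rfl
    refine ⟨h1.trans le_sup_left, h4, h5.trans ?_⟩
    rw [pow_succ]
    nlinarith

end FreySH
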