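import Pool.Agent.Lib.MP_6babc4_nt.SH.Qtf
import Pool.Agent.Lib.MP_6babc4_nt.TN.Evn

/-!
# Module Qtt: a subfield of the theta field obtained by square roots is unramified at the good primes
-/

set_option autoImplicit false

open NumberField IsDedekindDomain Module

namespace FreySH

open FreyTN FreyCyc FreySparse

theorem qtow_tow {g : ℕ} {K : IntermediateField ℚ ℂ} [NumberField K]
    {τ : Matrix (Fin g) (Fin g) ℂ} {w : ℕ} (h2 : 2 ∣ w)
    (hw : ∀ v : HeightOneSpectrum (𝓞 K), Bad K τ v → (w : 𝓞 K) ∈ v.asIdeal) (r : ℕ) :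
    ∀ F ∈ QTow K r, (∀ x ∈ F, x ∈ IntermediateField.adjoin K (thetaSet τ)) → F ∈ Tow K w r := by
  induction r with
  | zero =>
    rintro F rfl _
    exact rfl
  | succ r ih =>
    rintro F' ⟨F, hF, x, hx, rfl⟩ hF'
    have hle : F ≤ F ⊔ IntermediateField.adjoin ℚ {x} := le_sup_left
    have hxm : x ∈ F ⊔ IntermediateField.adjoin ℚ {x} :=
      (le_sup_right : IntermediateField.adjoin ℚ {x} ≤ _)
        (IntermediateField.mem_adjoin_simple_self ℚ x)
    have hT := ih F hF (fun y hy => hF' y (hle hy))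
    obtain ⟨hKF, hN, -⟩ := qtow_field r F hF
    by_cases h0 : x = 0
    · refine ⟨F, hT, hN, 1, 1, ⟨one_ne_zero, fun P _ => ?_⟩, by simp, ?_⟩
      · rw [ord_one]
        exact Even.zero
      · rw [h0]
        congr 1
        rw [IntermediateField.adjoin_zero, IntermediateField.adjoin_one]
    · refine ⟨F, hT, hN, ⟨x ^ 2, hx⟩, x, ⟨?_, fun P hP => ?_⟩, rfl, rfl⟩
      · intro h
        have h1 := congrArg (fun z : F => (z : ℂ)) h
        exact h0 (pow_eq_zero_iff two_ne_zero |>.1 h1)
      · letI : Algebra K F := (IntermediateField.inclusion hKF).toRingHom.toAlgebra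
        let ψ : F →ₐ[K] ℂ :=
          { toRingHom := F.val.toRingHom
            commutes' := fun y => rfl }
        refine even_of_sq h2 hw F ψ P hP ⟨x ^ 2, hx⟩ ?_ x (hF' x hxm) rfl
        intro h
        have h1 := congrArg (fun z : F => (z : ℂ)) h
        exact h0 (pow_eq_zero_iff two_ne_zero |>.1 h1)

end FreySH
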