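import Pool.Agent.Lib.MP_6babc4_nt.SH.Twf

/-!
# Module Tdc: the discriminants of the fields of a tower
-/

set_option autoImplicit false

open NumberField IsDedekindDomain Module

namespace FreySH

open FreyTN FreyCyc FreySparse

/-- One square root. -/
private theorem tdc_step {F : IntermediateField ℚ ℂ} [NumberField F] {w : ℕ} (hw : w ≠ 0)
    (h2 : 2 ∣ w) {a : F} {x : ℂ} (ha : InSel w a) (hx : x ^ 2 = (a : ℂ))
    [NumberField (F ⊔ IntermediateField.adjoin ℚ {x} : IntermediateField ℚ ℂ)] :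
    |(discr (F ⊔ IntermediateField.adjoin ℚ {x} : IntermediateField ℚ ℂ) : ℝ)| ≤
      (|(discr F : ℝ)| * (((2 : ℕ) : ℝ) * w) ^ finrank ℚ F) ^ 2 := by
  obtain ⟨F', hF'⟩ : ∃ F' : IntermediateField ℚ ℂ, F' = F ⊔ IntermediateField.adjoin ℚ {x} :=
    ⟨_, rfl⟩
  have hmem : ∀ y : ℂ, y ∈ F' ↔ ∃ p q : F, y = p + q * x := by
    intro y
    rw [hF']
    exact twf_mem hx
  have hFF' : F ≤ F' := by
    rw [hF']
    exact le_sup_left
  have hxF' : x ∈ F' := (hmem x).2 ⟨0, 1, by simp⟩
  revert ‹NumberField (F ⊔ IntermediateField.adjoin ℚ {x} : IntermediateField ℚ ℂ)›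
  rw [← hF']
  intro hN
  let _ : Algebra F F' := (IntermediateField.inclusion hFF').toRingHom.toAlgebra
  have hmap : ∀ c : F, ((algebraMap F F' c : F') : ℂ) = (c : ℂ) := fun _ => rfl
  let x' : F' := ⟨x, hxF'⟩
  have hx' : x' ^ 2 = algebraMap F F' a := Subtype.ext hx
  have htop : ∀ y : F', ∃ p q : F, y = algebraMap F F' p + algebraMap F F' q * x' := by
    intro y
    obtain ⟨p, q, h⟩ := (hmem y).1 y.2
    exact ⟨p, q, Subtype.ext h⟩
  have hadj : IntermediateField.adjoin F {x'} = ⊤ := by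
    rw [← top_le_iff]
    intro y _
    obtain ⟨p, q, rfl⟩ := htop y
    exact add_mem (IntermediateField.algebraMap_mem _ _) (mul_mem
      (IntermediateField.algebraMap_mem _ _) (IntermediateField.mem_adjoin_simple_self F x'))
  have hp0 : (Polynomial.X ^ 2 - Polynomial.C a : Polynomial F) ≠ 0 :=
    Polynomial.X_pow_sub_C_ne_zero two_pos a
  have hfin : finrank F F' ≤ 2 := by
    have h1 : finrank F (IntermediateField.adjoin F {x'}) = (minpoly F x').natDegree :=
      IntermediateField.adjoin.finrank (Algebra.IsIntegral.isIntegral x')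
    rw [hadj, IntermediateField.finrank_top'] at h1
    rw [h1]
    have h3 : (Polynomial.X ^ 2 - Polynomial.C a : Polynomial F).natDegree = 2 :=
      Polynomial.natDegree_X_pow_sub_C
    refine (Polynomial.natDegree_le_of_dvd (minpoly.dvd F x' ?_) hp0).trans_eq h3
    rw [map_sub, map_pow, Polynomial.aeval_X, Polynomial.aeval_C, hx', sub_self]
  have hsep : (Polynomial.X ^ 2 - Polynomial.C a : Polynomial F).Separable :=
    Polynomial.separable_X_pow_sub_C a two_ne_zero ha.1
  have hfac : (Polynomial.X ^ 2 - Polynomial.C a : Polynomial F).map (algebraMap F F') =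
      (Polynomial.X - Polynomial.C x') * (Polynomial.X - Polynomial.C (-x')) := by
    rw [Polynomial.map_sub, Polynomial.map_pow, Polynomial.map_X, Polynomial.map_C, ← hx',
      Polynomial.C_pow, Polynomial.C_neg]
    ring
  have hspl : Polynomial.IsSplittingField F F' (Polynomial.X ^ 2 - Polynomial.C a) := by
    refine ⟨?_, ?_⟩
    · rw [hfac]
      exact (Polynomial.Splits.X_sub_C _).mul (Polynomial.Splits.X_sub_C _)
    · rw [← top_le_iff]
      intro y _
      obtain ⟨p, q, rfl⟩ := htop y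
      refine add_mem (Subalgebra.algebraMap_mem _ _) (mul_mem (Subalgebra.algebraMap_mem _ _)
        (Algebra.subset_adjoin ?_))
      rw [Polynomial.mem_rootSet]
      refine ⟨hp0, ?_⟩
      rw [map_sub, map_pow, Polynomial.aeval_X, Polynomial.aeval_C, hx', sub_self]
  have : IsGalois F F' := IsGalois.of_separable_splitting_field hsep
  refine discr_galois hw hfin fun P P' hPP => ?_
  by_contra hcon
  have hqP : ((2 : ℕ) : 𝓞 F) ∉ P.asIdeal := by
    intro h1
    apply hcon
    obtain ⟨k, rfl⟩ := h2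
    rw [Nat.cast_mul]
    exact Ideal.mul_mem_right _ _ h1
  have hev : ((2 : ℕ) : ℤ) ∣ ord P a := by
    have := ha.2 P hcon
    exact_mod_cast this.two_dvd
  exact kummer_unram two_pos hadj ha.1 hx' P hqP hev P' hPP

private theorem tdc_one_le (E : Type) [Field E] [NumberField E] : (1 : ℝ) ≤ |(discr E : ℝ)| := by
  have h : (1 : ℤ) ≤ |discr E| := Int.one_le_abs (discr_ne_zero E)
  exact_mod_cast h

/-- (Tdc) The discriminants of the fields of a tower. -/
theorem tow_discr (d r : ℕ) : ∃ A : ℕ, 1 ≤ A ∧ ∀ (K : IntermediateField ℚ ℂ) [NumberField K],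
    finrank ℚ K ≤ d → ∀ w : ℕ, w ≠ 0 → 2 ∣ w → ∀ F ∈ Tow K w r, ∀ [NumberField F],
      |(discr F : ℝ)| ≤ (A * |(discr K : ℝ)| * w) ^ A := by
  induction r with
  | zero =>
    refine ⟨1, le_rfl, ?_⟩
    rintro K _ _ w hw _ F rfl _
    have h1 : (1 : ℝ) ≤ w := by exact_mod_cast Nat.one_le_iff_ne_zero.2 hw
    rw [pow_one, Nat.cast_one, one_mul]
    exact le_mul_of_one_le_right (abs_nonneg _) h1
  | succ r ih =>
    obtain ⟨A, hA, h⟩ := ih
    set m : ℕ := 2 ^ r * d with hm
    set B : ℕ := 2 * (A + m) + 2 with hB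
    refine ⟨B, by omega, ?_⟩
    rintro K _ hK w hw h2 F' ⟨F, hF, hN, a, x, ha, hx, rfl⟩ _
    have h3 := tdc_step hw h2 ha hx
    have h4 := h K hK w hw h2 F hF
    obtain ⟨-, -, h5⟩ := tow_field r F hF
    have h5' : finrank ℚ F ≤ m := h5.trans (Nat.mul_le_mul_left _ hK)
    have hw1 : (1 : ℝ) ≤ w := by exact_mod_cast Nat.one_le_iff_ne_zero.2 hw
    have hD := tdc_one_le K
    have hAB : (A : ℝ) ≤ B := by
      have : A ≤ B := by omega
      exact_mod_cast this
    have h2B : (2 : ℝ) ≤ B := by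
      have : 2 ≤ B := by omega
      exact_mod_cast this
    have hA0 : (0 : ℝ) ≤ A := Nat.cast_nonneg _
    have hB0 : (0 : ℝ) ≤ B := Nat.cast_nonneg _
    set D : ℝ := |(discr K : ℝ)| with hDdef
    have hbase1 : (1 : ℝ) ≤ B * D * w := by
      have h6 : (1 : ℝ) ≤ B * D := by nlinarith
      nlinarith
    have hbaseA : (A : ℝ) * D * w ≤ B * D * w := by gcongr
    have hbase2 : ((2 : ℕ) : ℝ) * w ≤ B * D * w := by
      have h6 : ((2 : ℕ) : ℝ) ≤ B * D := by
        push_cast
        nlinarith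
      exact mul_le_mul_of_nonneg_right h6 (by linarith)
    have h6 : |(discr F : ℝ)| * (((2 : ℕ) : ℝ) * w) ^ finrank ℚ F ≤ (B * D * w) ^ (A + m) := by
      rw [pow_add]
      refine mul_le_mul (h4.trans (pow_le_pow_left₀ (by positivity) hbaseA _)) ?_ (by positivity)
        (by positivity)
      refine (pow_le_pow_left₀ (by positivity) hbase2 _).trans ?_
      exact pow_le_pow_right₀ hbase1 h5'
    refine h3.trans ((pow_le_pow_left₀ (by positivity) h6 2).trans ?_)
    rw [← pow_mul]
    refine pow_le_pow_right₀ hbase1 ?_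
    omega

end FreySH
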