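import Pool.Agent.Lib.MP_6babc4_nt.SH.Ptc
import Pool.Agent.Lib.MP_6babc4_nt.SH.Cnt
import Pool.Agent.Lib.MP_6babc4_nt.SH.Cn5
import Pool.Agent.Lib.MP_6babc4_nt.SH.Tdc
import Pool.Agent.Lib.MP_6babc4_nt.SH.Qtf
import Pool.Agent.Lib.MP_6babc4_nt.SH.Qtt
import Pool.Agent.Lib.MP_6babc4_nt.TN.Fin

/-!
# Module Fi4: Frey's inequality over the towers of `r` square roots

`frey_tower`. PROOF. As `frey_field` in `SH/Fis`, for points over `F` in `QTow K r` inside the theta field: `F` is in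
`Tow K w r` (`qtow_tow`), `|D_F| ≤ (A |D_K| w)^A` (`tow_discr`), the path has the base `F` (`path_tow`), and
`tset_tower` counts over all `F` at once.
-/

set_option autoImplicit false

open NumberField IsDedekindDomain Module Filter Topology

namespace FreySH

open FreyTN FreyCyc FreySparse

/-- The path `(2^g)^j s₀ theta (2^j τ)`. -/
private noncomputable def fi4_bet {g : ℕ} (τ : Matrix (Fin g) (Fin g) ℂ) (s₀ : ℂ) (j : ℕ)
    (b : GI g) : ℂ := (2 ^ g) ^ j * s₀ * theta ((2 ^ j : ℂ) • τ) b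

private lemma fi4_path {g : ℕ} {τ : Matrix (Fin g) (Fin g) ℂ} (s₀ : ℂ)
    (h : ∀ j : ℕ, Step (theta ((2 ^ j : ℂ) • τ)) (theta ((2 ^ (j + 1) : ℂ) • τ))) (j : ℕ)
    (b : GI g) : fi4_bet τ s₀ (j + 1) b ^ 2 = 2 ^ g * FreyTN.sq (fi4_bet τ s₀ j) b := by
  have h1 : FreyTN.sq (fi4_bet τ s₀ j) b =
      ((2 ^ g) ^ j * s₀) ^ 2 * FreyTN.sq (theta ((2 ^ j : ℂ) • τ)) b := by
    unfold FreyTN.sq fi4_bet
    rw [Finset.mul_sum]
    refine Finset.sum_congr rfl fun c _ => ?_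
    ring
  have h2 := h j b
  have h3 : (2 ^ g : ℂ) ≠ 0 := pow_ne_zero _ two_ne_zero
  have h4 : FreyTN.sq (theta ((2 ^ j : ℂ) • τ)) b =
      2 ^ g * theta ((2 ^ (j + 1) : ℂ) • τ) b ^ 2 := by
    rw [h2]
    field_simp
  rw [h1, h4]
  unfold fi4_bet
  ring

/-- The arc over `𝓞 F` from the path over `F`. -/
private lemma fi4_arc {g k : ℕ} {δ : ℕ → ℝ} {R : ℝ} {F : Type} [Field F] [NumberField F]
    (ψ : F →+* ℂ) {v : ℕ → GI g → F} {τ : Matrix (Fin g) (Fin g) ℂ} {s₀ : ℂ} (hs₀ : s₀ ≠ 0)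
    (h : ∀ j : ℕ, Step (theta ((2 ^ j : ℂ) • τ)) (theta ((2 ^ (j + 1) : ℂ) • τ)))
    (hlim : ∀ (j : ℕ) (b : GI g), ‖theta ((2 ^ j : ℂ) • τ) b - 1‖ ≤ δ j)
    (hv : ∀ j ≤ k, ∀ b, ψ (v j b) = fi4_bet τ s₀ j b) (hint : ∀ b, IsIntegral ℤ (v 0 b))
    (hR : ∀ b (σ : F →+* ℂ), ‖σ (v 0 b)‖ ≤ R) :
    ∃ V : ℕ → GI g → 𝓞 F, Arc k R δ ψ V ∧ ∀ j ≤ k, ∀ b, (V j b : F) = v j b := by
  classical
  have hP : Path k v := path_of_map ψ hv (fun j _ b => fi4_path s₀ h j b)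
  have hI : ∀ j ≤ k, ∀ b, IsIntegral ℤ (v j b) := fun j hj b => path_int hP hint j hj b
  obtain ⟨V, hV⟩ : ∃ V : ℕ → GI g → 𝓞 F, ∀ j ≤ k, ∀ b, (V j b : F) = v j b := by
    refine ⟨fun j b => if hj : j ≤ k then ⟨v j b, hI j hj b⟩ else 0, fun j hj b => ?_⟩
    dsimp only
    rw [dif_pos hj]
    rfl
  refine ⟨V, ⟨?_, ⟨s₀, hs₀, ?_⟩, ?_⟩, hV⟩
  · intro j hj b
    apply NumberField.RingOfIntegers.coe_injective
    have h1 := hP j hj b
    unfold FreyTN.sq at h1 ⊢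
    rw [map_pow, map_mul, map_pow, map_sum]
    have h2 : (algebraMap (𝓞 F) F) 2 = 2 := map_ofNat _ 2
    have hV' : ∀ i ≤ k, ∀ x, algebraMap (𝓞 F) F (V i x) = v i x := fun i hi x => hV i hi x
    rw [h2, hV' (j + 1) hj b, h1]
    congr 1
    refine Finset.sum_congr rfl fun c _ => ?_
    rw [map_mul, hV' j hj.le c, hV' j hj.le (b + c)]
  · intro j hj b
    rw [hV j hj b, hv j hj b]
    unfold fi4_bet
    have h1 : (2 ^ g) ^ j * s₀ * theta ((2 ^ j : ℂ) • τ) b - (2 ^ g) ^ j * s₀ =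
        (2 ^ g) ^ j * s₀ * (theta ((2 ^ j : ℂ) • τ) b - 1) := by ring
    rw [h1, norm_mul, norm_mul, norm_pow, norm_pow, Complex.norm_ofNat]
    exact mul_le_mul_of_nonneg_left (hlim j b) (by positivity)
  · intro j hj b σ
    rw [hV j hj b]
    exact path_house hP σ (fun b => hR b σ) j hj b

/-- The integral vector of an exception is in `TSet` over `F`. -/
private theorem fi4_mem {g : ℕ} {ρ : ℝ} (hρ : 0 < ρ) {δ : ℕ → ℝ}
    (hpath : ∀ τ : Matrix (Fin g) (Fin g) ℂ, Siegel ρ τ →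
      (∀ j : ℕ, Step (theta ((2 ^ j : ℂ) • τ)) (theta ((2 ^ (j + 1) : ℂ) • τ))) ∧
      ∀ (j : ℕ) (b : GI g), ‖theta ((2 ^ j : ℂ) • τ) b - 1‖ ≤ δ j) (k : ℕ)
    {K : IntermediateField ℚ ℂ} [NumberField K]
    {τ : Matrix (Fin g) (Fin g) ℂ} (hτ : Siegel ρ τ)
    {F : IntermediateField ℚ ℂ} [NumberField F] (hKF : K ≤ F)
    (hFT : ∀ x ∈ F, x ∈ IntermediateField.adjoin K (thetaSet τ)) (u : GI g → F)
    (hu : ∀ a b, (u a : ℂ) * theta τ b = (u b : ℂ) * theta τ a)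
    (a : F) (W : GI g → 𝓞 F) (ha : a ≠ 0) (hW : ∀ b, (W b : F) = a * u b) {R : ℝ}
    (hWR : ∀ b (σ : F →+* ℂ), ‖σ (W b : F)‖ ≤ R) {w : ℕ} (h2w : 2 ∣ w)
    (hbad : ∀ v : HeightOneSpectrum (𝓞 K), Bad K τ v → (w : 𝓞 K) ∈ v.asIdeal) (b₀ : GI g)
    (hb₀ : u b₀ ≠ 0) :
    W ∈ TSet δ k (k * 2 ^ g) F w R := by
  classical
  obtain ⟨hstep, hlim⟩ := hpath τ hτ
  obtain ⟨c, hc⟩ := theta_ne hρ hτ
  have hub : ((u b₀ : F) : ℂ) ≠ 0 := by
    intro h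
    apply hb₀
    exact_mod_cast h
  have hac : ((a : F) : ℂ) ≠ 0 := by
    intro h
    apply ha
    exact_mod_cast h
  have huc : ((u c : F) : ℂ) ≠ 0 := by
    intro h
    have h1 := hu b₀ c
    rw [h, zero_mul] at h1
    exact mul_ne_zero hub hc h1
  have hWc : ∀ b, ((W b : F) : ℂ) = (a : ℂ) * (u b : ℂ) := by
    intro b
    rw [hW b]
    push_cast
    rfl
  obtain ⟨s₀, hs₀⟩ : ∃ s₀ : ℂ, s₀ = ((W c : F) : ℂ) / theta τ c := ⟨_, rfl⟩
  have hs₀' : s₀ ≠ 0 := by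
    rw [hs₀, hWc c]
    exact div_ne_zero (mul_ne_zero hac huc) hc
  have hWb : ∀ b, ((W b : F) : ℂ) = s₀ * theta τ b := by
    intro b
    rw [hs₀, div_mul_eq_mul_div, eq_div_iff hc, hWc b, hWc c, mul_assoc, mul_assoc, hu b c]
  have hβ0 : ∀ b, fi4_bet τ s₀ 0 b = (((W b : 𝓞 F) : F) : ℂ) := by
    intro b
    unfold fi4_bet
    rw [pow_zero, one_mul, pow_zero, one_smul, ← hWb b]
  have hmem : ∀ (j : ℕ) (b : GI g),
      fi4_bet τ s₀ j b ∈ IntermediateField.adjoin K (thetaSet τ) := by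
    intro j b
    have h1 : fi4_bet τ s₀ j b = algebraMap F ℂ ((2 ^ g) ^ j * ((W c : 𝓞 F) : F)) *
        (theta ((2 ^ j : ℂ) • τ) b / theta τ c) := by
      unfold fi4_bet
      rw [map_mul, map_pow, map_pow, map_ofNat]
      have h2 : algebraMap F ℂ ((W c : 𝓞 F) : F) = ((W c : F) : ℂ) := rfl
      rw [h2, hs₀]
      ring
    rw [h1]
    refine mul_mem (hFT _ (((2 ^ g) ^ j * ((W c : 𝓞 F) : F) : F)).2) ?_
    exact IntermediateField.subset_adjoin _ _ ⟨j, b, c, hc, rfl⟩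
  obtain ⟨F', hF', hFβ⟩ := path_tow g k (K := F) (w := w) (fi4_bet τ s₀)
    (fun b => ((W b : 𝓞 F) : F)) hβ0 (fun j _ b => fi4_path s₀ hstep j b)
    (fun L _ _ _ ψ P hP x j _ b hx hψ => by
      let _ : Algebra K L :=
        ((algebraMap F L).comp (IntermediateField.inclusion hKF).toRingHom).toAlgebra
      let ψ' : L →ₐ[K] ℂ :=
        { ψ.toRingHom with
          commutes' := fun r => ψ.commutes (IntermediateField.inclusion hKF r) }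
      exact even_of_sq h2w hbad L ψ' P hP x hx (fi4_bet τ s₀ (j + 1) b) (hmem _ _) hψ)
  obtain ⟨hFF', hNF, -⟩ := tow_field _ F' hF'
  obtain ⟨v, hv⟩ : ∃ v : ℕ → GI g → F',
      ∀ j ≤ k, ∀ b, F'.val.toRingHom (v j b) = fi4_bet τ s₀ j b := by
    refine ⟨fun j b => if h : fi4_bet τ s₀ j b ∈ F' then ⟨_, h⟩ else 0, fun j hj b => ?_⟩
    dsimp only
    rw [dif_pos (hFβ j hj b)]
    rfl
  have hv0 : ∀ b, v 0 b = IntermediateField.inclusion hFF' ((W b : 𝓞 F) : F) := by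
    intro b
    apply F'.val.toRingHom.injective
    rw [hv 0 (Nat.zero_le k) b, hβ0 b]
    rfl
  have hWint : ∀ b, IsIntegral ℤ (v 0 b) := by
    intro b
    rw [hv0 b]
    have h1 : IsIntegral ℤ ((W b : 𝓞 F) : F) := (W b).2
    exact h1.map (IntermediateField.inclusion hFF').toRingHom.toIntAlgHom
  have hWR' : ∀ b (σ : F' →+* ℂ), ‖σ (v 0 b)‖ ≤ R := by
    intro b σ
    rw [hv0 b]
    exact hWR b (σ.comp (IntermediateField.inclusion hFF').toRingHom)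
  obtain ⟨V, hArc, hVv⟩ := fi4_arc (k := k) (δ := δ) (R := R) F'.val.toRingHom hs₀' hstep hlim hv
    hWint hWR'
  have hWb0 : W b₀ ≠ 0 := by
    intro h
    have h1 := hWc b₀
    rw [h] at h1
    have h2 : ((a : F) : ℂ) * (u b₀ : ℂ) ≠ 0 := mul_ne_zero hac hub
    apply h2
    rw [← h1]
    simp
  refine ⟨⟨b₀, hWb0⟩, F', hF', hNF, V, hArc, fun b => ?_⟩
  have h1 : (V 0 b : F') = v 0 b := hVv 0 (Nat.zero_le k) b
  rw [h1]
  exact (hv 0 (Nat.zero_le k) b).trans (hβ0 b)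

theorem frey_tower (g d r : ℕ) {ρ ε : ℝ} (hρ : 0 < ρ) (hε : 0 < ε) :
    ∃ (A : ℕ) (c : ℝ), 0 < c ∧ ∀ (K : IntermediateField ℚ ℂ) [NumberField K], finrank ℚ K = d →
      ∀ κ : ℝ, 0 < κ → ∀ H : ℝ, 1 ≤ H → ∃ T : Finset (GI g → ℂ),
        (T.card : ℝ) ≤ c * |(discr K : ℝ)| ^ A * H ^ ((1 + ε) / κ + ε) ∧
        ∀ τ : Matrix (Fin g) (Fin g) ℂ, Siegel ρ τ → ∀ F ∈ QTow K r, ∀ [NumberField F],
          (∀ x ∈ F, x ∈ IntermediateField.adjoin K (thetaSet τ)) →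
          ∀ u : GI g → F, u ≠ 0 → (∀ a b, (u a : ℂ) * theta τ b = (u b : ℂ) * theta τ a) →
            Height.logHeight u / finrank ℚ F ≤ Real.log H → ¬ FreyT κ K τ u →
              ∃ w ∈ T, w ≠ 0 ∧ ∀ a b, (u a : ℂ) * w b = (u b : ℂ) * w a := by
  classical
  obtain ⟨δ, hδ, hpath⟩ := theta_path g hρ
  obtain ⟨A₁, hA₁, hdis⟩ := tow_discr d r
  have hA₁' : (1 : ℝ) ≤ A₁ := by exact_mod_cast hA₁
  obtain ⟨ε', hε', hε1, hεε⟩ : ∃ ε' : ℝ, 0 < ε' ∧ ε' ≤ 1 ∧ ε' * (1 + A₁) ≤ ε := by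
    refine ⟨min 1 (ε / (1 + A₁)), lt_min one_pos (by positivity), min_le_left _ _, ?_⟩
    have h1 : min 1 (ε / (1 + A₁)) ≤ ε / (1 + A₁) := min_le_right _ _
    rwa [le_div_iff₀ (by positivity)] at h1
  have hεε0 : ε' ≤ ε := by nlinarith
  obtain ⟨k, A, C, hC, hcount⟩ := tset_tower g hδ d r hε'
  obtain ⟨C₄, hC₄, hsm⟩ := small_multiple (2 ^ r * d)
  refine ⟨A + A₁, C * 2 ^ ε' * C₄ ^ ε' * ((2 * A₁ : ℝ) ^ A₁) ^ ε', by positivity, ?_⟩
  intro K _ hKd κ hκ H hH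
  have hH0 : 0 < H := by linarith
  obtain ⟨Y, hYdef⟩ : ∃ Y : ℝ, Y = H ^ (1 / κ) := ⟨_, rfl⟩
  have hY1 : 1 ≤ Y := by
    rw [hYdef]
    exact Real.one_le_rpow hH (by positivity)
  obtain ⟨D, hD⟩ : ∃ D : ℝ, D = |(discr K : ℝ)| := ⟨_, rfl⟩
  have hDK : (1 : ℝ) ≤ D := by
    have h1 : (1 : ℤ) ≤ |discr K| := Int.one_le_abs (NumberField.discr_ne_zero K)
    rw [hD]
    exact_mod_cast h1
  obtain ⟨Q, hQ⟩ : ∃ Q : ℝ → ℝ, ∀ y, Q y = (A₁ * D * (2 * y)) ^ A₁ := ⟨_, fun _ => rfl⟩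
  have hQ1 : ∀ y : ℝ, 1 ≤ y → 1 ≤ Q y := by
    intro y hy
    rw [hQ]
    apply one_le_pow₀
    have h1 : 1 ≤ A₁ * D := by nlinarith
    nlinarith
  obtain ⟨R, hR⟩ : ∃ R : ℝ → ℝ, ∀ y, R y = C₄ * Q y * H := ⟨_, fun _ => rfl⟩
  have hR1 : ∀ y : ℝ, 1 ≤ y → 1 ≤ R y := by
    intro y hy
    rw [hR]
    have h1 : 1 ≤ C₄ * Q y := by nlinarith [hQ1 y hy]
    nlinarith
  have hn : ∀ n : ℕ, ∃ T : Finset (GI g → ℂ), (1 ≤ n → (T.card : ℝ) ≤
      C * D ^ A * ((2 * n : ℕ) : ℝ) ^ ε' * (R n) ^ ε') ∧ (1 ≤ n → (∀ z ∈ T, z ≠ 0) ∧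
        ∀ F ∈ Tow K (2 * n) r, ∀ [NumberField F], ∀ u ∈ TSet δ k (k * 2 ^ g) F (2 * n) (R n),
            ∃ z ∈ T, ∀ a b, ((u a : F) : ℂ) * z b = ((u b : F) : ℂ) * z a) := by
    intro n
    by_cases h1 : 1 ≤ n
    · obtain ⟨T, hT1, hT2⟩ := hcount K hKd.le (2 * n) (by omega) ⟨n, rfl⟩ (R n)
        (hR1 n (by exact_mod_cast h1))
      rw [← hD] at hT1
      exact ⟨T, fun _ => hT1, fun _ => hT2⟩
    · exact ⟨∅, fun h => absurd h h1, fun h => absurd h h1⟩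
  choose T hT1 hT2 using hn
  refine ⟨(Finset.Icc 1 ⌊Y⌋₊).biUnion T, ?_, ?_⟩
  · -- the count
    have h1 : ∀ n ∈ Finset.Icc 1 ⌊Y⌋₊, ((T n).card : ℝ) ≤
          C * D ^ A * (2 * Y) ^ ε' * (R Y) ^ ε' := by
      intro n hn
      obtain ⟨hn1, hn2⟩ := Finset.mem_Icc.1 hn
      refine (hT1 n hn1).trans ?_
      have h4 : (n : ℝ) ≤ Y := (Nat.le_floor_iff (by linarith)).1 hn2
      have h3 : ((2 * n : ℕ) : ℝ) ≤ 2 * Y := by
        push_cast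
        linarith
      have h5 : R n ≤ R Y := by
        rw [hR, hR, hQ, hQ]
        gcongr
      have h6 : 0 ≤ R n := by
        have := hR1 n (by exact_mod_cast hn1)
        linarith
      gcongr
    have h2 : (((Finset.Icc 1 ⌊Y⌋₊).biUnion T).card : ℝ) ≤
          ∑ n ∈ Finset.Icc 1 ⌊Y⌋₊, ((T n).card : ℝ) := by
      exact_mod_cast Finset.card_biUnion_le
    have hRY0 : 0 ≤ R Y := by
      have := hR1 Y hY1
      linarith
    have h3 : (0 : ℝ) ≤ C * D ^ A * (2 * Y) ^ ε' * (R Y) ^ ε' := by positivity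
    have h4 : (⌊Y⌋₊ : ℝ) ≤ Y := Nat.floor_le (by linarith)
    refine h2.trans ((Finset.sum_le_sum h1).trans ?_)
    rw [Finset.sum_const, nsmul_eq_mul, Nat.card_Icc, Nat.add_sub_cancel]
    have h5 : (⌊Y⌋₊ : ℝ) * (C * D ^ A * (2 * Y) ^ ε' * (R Y) ^ ε') ≤
        Y * (C * D ^ A * (2 * Y) ^ ε' * (R Y) ^ ε') := mul_le_mul_of_nonneg_right h4 h3
    refine h5.trans ?_
    have hD0 : 0 < D := by linarith
    have hY0 : 0 < Y := by linarith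
    have hC40 : 0 < C₄ := by linarith
    have e1 : (2 * Y) ^ ε' = 2 ^ ε' * Y ^ ε' := Real.mul_rpow (by norm_num) hY0.le
    have e6 : Q Y = (2 * A₁ : ℝ) ^ A₁ * D ^ A₁ * Y ^ A₁ := by
      rw [hQ, ← mul_pow, ← mul_pow]
      congr 1
      ring
    have e7 : (Y ^ A₁) ^ ε' = Y ^ (A₁ * ε') := by
      rw [← Real.rpow_natCast, ← Real.rpow_mul hY0.le]
    have e8 : (D ^ A₁ : ℝ) ^ ε' ≤ D ^ A₁ := by
      have h1 : (1 : ℝ) ≤ D ^ A₁ := one_le_pow₀ hDK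
      calc (D ^ A₁ : ℝ) ^ ε' ≤ (D ^ A₁) ^ (1 : ℝ) := Real.rpow_le_rpow_of_exponent_le h1 hε1
        _ = D ^ A₁ := Real.rpow_one _
    have e2 : (R Y) ^ ε' = C₄ ^ ε' * (((2 * A₁ : ℝ) ^ A₁) ^ ε' * (D ^ A₁) ^ ε' * Y ^ (A₁ * ε')) *
        H ^ ε' := by
      rw [hR, e6, Real.mul_rpow (by positivity) hH0.le, Real.mul_rpow hC40.le (by positivity),
        Real.mul_rpow (by positivity) (by positivity), Real.mul_rpow (by positivity) (by positivity),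
        e7]
    have e4 : Y * Y ^ ε' * Y ^ (A₁ * ε') * H ^ ε' = H ^ ((1 + ε' * (1 + A₁)) / κ + ε') := by
      rw [hYdef, ← Real.rpow_mul hH0.le, ← Real.rpow_mul hH0.le, ← Real.rpow_add hH0,
        ← Real.rpow_add hH0, ← Real.rpow_add hH0]
      congr 1
      ring
    have e5 : H ^ ((1 + ε' * (1 + A₁)) / κ + ε') ≤ H ^ ((1 + ε) / κ + ε) := by
      apply Real.rpow_le_rpow_of_exponent_le hH
      have : (1 + ε' * (1 + A₁)) / κ ≤ (1 + ε) / κ := by gcongr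
      linarith
    calc Y * (C * D ^ A * (2 * Y) ^ ε' * (R Y) ^ ε')
        = (C * 2 ^ ε' * C₄ ^ ε' * ((2 * A₁ : ℝ) ^ A₁) ^ ε') * (D ^ A * (D ^ A₁) ^ ε') *
            (Y * Y ^ ε' * Y ^ (A₁ * ε') * H ^ ε') := by
          rw [e1, e2]
          ring
      _ ≤ (C * 2 ^ ε' * C₄ ^ ε' * ((2 * A₁ : ℝ) ^ A₁) ^ ε') * (D ^ A * D ^ A₁) *
            H ^ ((1 + ε) / κ + ε) := by
          rw [e4]
          gcongr
      _ = C * 2 ^ ε' * C₄ ^ ε' * ((2 * A₁ : ℝ) ^ A₁) ^ ε' * |(discr K : ℝ)| ^ (A + A₁) *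
            H ^ ((1 + ε) / κ + ε) := by
          rw [← hD, pow_add]
  · intro τ hτ F hFQ _ hFT u hu hprop hlogd hFrey
    obtain ⟨hKF, -, hfin⟩ := qtow_field r F hFQ
    have hkey : ∀ s : Finset (HeightOneSpectrum (𝓞 K)), (∀ v ∈ s, Bad K τ v) →
        ∏ v ∈ s, (Ideal.absNorm v.asIdeal : ℝ) ≤ Y := by
      intro s hs
      by_contra hcon
      rw [not_le] at hcon
      apply hFrey
      refine ⟨s, hs, hlogd.trans ?_⟩
      have h2 : Real.log Y = (1 / κ) * Real.log H := by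
        rw [hYdef, Real.log_rpow hH0]
      have h3 : Real.log Y ≤ Real.log (∏ v ∈ s, (Ideal.absNorm v.asIdeal : ℝ)) :=
        Real.log_le_log (by linarith) hcon.le
      calc Real.log H = κ * Real.log Y := by
            rw [h2]
            field_simp
        _ ≤ _ := mul_le_mul_of_nonneg_left h3 hκ.le
    obtain ⟨s, hs⟩ := bad_finite (K := K) (τ := τ) (X := Y) hkey
    obtain ⟨n, hn⟩ : ∃ n : ℕ, n = ∏ v ∈ s, Ideal.absNorm v.asIdeal := ⟨_, rfl⟩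
    have hn1 : 1 ≤ n := by
      rw [hn]
      exact Finset.one_le_prod' (fun v _ => (NumberField.HeightOneSpectrum.one_lt_absNorm v).le)
    have hnY : n ≤ ⌊Y⌋₊ := by
      apply Nat.le_floor
      rw [hn]
      push_cast
      exact hkey s (fun v hv => (hs v).1 hv)
    have h2w : 2 ∣ 2 * n := ⟨n, rfl⟩
    have hbad : ∀ v : HeightOneSpectrum (𝓞 K), Bad K τ v → ((2 * n : ℕ) : 𝓞 K) ∈ v.asIdeal := by
      intro v hv
      have hvs := (hs v).2 hv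
      have h1 : Ideal.absNorm v.asIdeal ∣ 2 * n := by
        rw [hn]
        exact Dvd.dvd.mul_left (Finset.dvd_prod_of_mem _ hvs) 2
      obtain ⟨m, hm⟩ := h1
      rw [hm, Nat.cast_mul]
      exact Ideal.mul_mem_right _ _ (Ideal.absNorm_mem v.asIdeal)
    have hFT' : F ∈ Tow K (2 * n) r := qtow_tow h2w hbad r F hFQ hFT
    have hdisF := hdis K hKd.le (2 * n) (by omega) h2w F hFT'
    rw [← hD] at hdisF
    have hdisF' : |(discr F : ℝ)| ≤ Q n := by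
      rw [hQ]
      push_cast at hdisF
      exact hdisF
    obtain ⟨a, W, ha, hW, hWR⟩ := hsm F (by rw [← hKd]; exact hfin) (GI g) u hu
    obtain ⟨b₀, hb₀⟩ : ∃ b₀, u b₀ ≠ 0 := by
      by_contra hcon
      apply hu
      funext b
      by_contra h
      exact hcon ⟨b, h⟩
    have hWR' : ∀ b (σ : F →+* ℂ), ‖σ (W b : F)‖ ≤ R n := by
      intro b σ
      refine (hWR b σ).trans ?_
      rw [hR]
      have h0 := hQ1 n (by exact_mod_cast hn1)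
      have h1 : √|(discr F : ℝ)| ≤ Q n := by
        rw [Real.sqrt_le_left (by linarith)]
        nlinarith
      have h2 : Real.exp (Height.logHeight u / finrank ℚ F) ≤ H := by
        calc Real.exp (Height.logHeight u / finrank ℚ F) ≤ Real.exp (Real.log H) :=
              Real.exp_le_exp.2 hlogd
          _ = H := Real.exp_log hH0
      refine mul_le_mul (mul_le_mul_of_nonneg_left h1 (by linarith)) h2 (by positivity)
        (by nlinarith)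
    have hmem := fi4_mem hρ hpath k hτ hKF hFT u hprop a W ha hW hWR' h2w hbad b₀ hb₀
    obtain ⟨hz0, hz1⟩ := hT2 n hn1
    obtain ⟨z, hz, hzW⟩ := hz1 F hFT' W hmem
    refine ⟨z, Finset.mem_biUnion.2 ⟨n, Finset.mem_Icc.2 ⟨hn1, hnY⟩, hz⟩, hz0 z hz, ?_⟩
    intro x y
    have h1 := hzW x y
    have hac : ((a : F) : ℂ) ≠ 0 := by
      intro h
      apply ha
      exact_mod_cast h
    rw [hW, hW] at h1
    push_cast at h1
    rw [mul_assoc, mul_assoc] at h1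
    exact mul_left_cancel₀ hac h1

end FreySH
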