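import Pool.Agent.Lib.MP_6babc4_nt.SH.Ptc
import Pool.Agent.Lib.MP_6babc4_nt.SH.Cnt
import Pool.Agent.Lib.MP_6babc4_nt.TN.Fin

/-!
# Module Fis: Frey's inequality over one field

`frey_field`. PROOF. As `frey_all` in `TN/Fin`, with `path_tow` in place of `path_exists` and `tset_count` in place of
`pset_count`. Let `(τ, u)` be an exception. The finite sets of bad primes have `∏ N v ≤ Y = H^(1/κ)`; so there are
finitely many, let `n ≤ Y` be the product of their norms, `w = 2 n`. The multiple `W = a u` with integral coordinates and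
conjugates of size `≤ R = C₄ √|D_K| H` is in `TSet δ k (k * 2^g) K w R`. So the exceptions are multiples of
`≤ Y · C |D_K|^A (2 Y)^ε R^ε` vectors.
-/

set_option autoImplicit false

open NumberField IsDedekindDomain Module Filter Topology

namespace FreySH

open FreyTN FreyCyc FreySparse

/-- The path `(2^g)^j s₀ theta (2^j τ)`. -/
private noncomputable def fis_bet {g : ℕ} (τ : Matrix (Fin g) (Fin g) ℂ) (s₀ : ℂ) (j : ℕ)
    (b : GI g) : ℂ := (2 ^ g) ^ j * s₀ * theta ((2 ^ j : ℂ) • τ) b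

private lemma fis_path {g : ℕ} {τ : Matrix (Fin g) (Fin g) ℂ} (s₀ : ℂ)
    (h : ∀ j : ℕ, Step (theta ((2 ^ j : ℂ) • τ)) (theta ((2 ^ (j + 1) : ℂ) • τ))) (j : ℕ)
    (b : GI g) : fis_bet τ s₀ (j + 1) b ^ 2 = 2 ^ g * FreyTN.sq (fis_bet τ s₀ j) b := by
  have h1 : FreyTN.sq (fis_bet τ s₀ j) b =
      ((2 ^ g) ^ j * s₀) ^ 2 * FreyTN.sq (theta ((2 ^ j : ℂ) • τ)) b := by
    unfold FreyTN.sq fis_bet
    rw [Finset.mul_sum]
    refine Finset.sum_congr rfl fun c _ => ?_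
    ring
  have h2 := h j b
  have h3 : (2 ^ g : ℂ) ≠ 0 := pow_ne_zero _ two_ne_zero
  have h4 : FreyTN.sq (theta ((2 ^ j : ℂ) • τ)) b =
      2 ^ g * theta ((2 ^ (j + 1) : ℂ) • τ) b ^ 2 := by
    rw [h2]
    field_simp
  rw [h1, h4]
  unfold fis_bet
  ring

/-- The arc over `𝓞 F` from the path over `F`. -/
private lemma fis_arc {g k : ℕ} {δ : ℕ → ℝ} {R : ℝ} {F : Type} [Field F] [NumberField F]
    (ψ : F →+* ℂ) {v : ℕ → GI g → F} {τ : Matrix (Fin g) (Fin g) ℂ} {s₀ : ℂ} (hs₀ : s₀ ≠ 0)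
    (h : ∀ j : ℕ, Step (theta ((2 ^ j : ℂ) • τ)) (theta ((2 ^ (j + 1) : ℂ) • τ)))
    (hlim : ∀ (j : ℕ) (b : GI g), ‖theta ((2 ^ j : ℂ) • τ) b - 1‖ ≤ δ j)
    (hv : ∀ j ≤ k, ∀ b, ψ (v j b) = fis_bet τ s₀ j b) (hint : ∀ b, IsIntegral ℤ (v 0 b))
    (hR : ∀ b (σ : F →+* ℂ), ‖σ (v 0 b)‖ ≤ R) :
    ∃ V : ℕ → GI g → 𝓞 F, Arc k R δ ψ V ∧ ∀ j ≤ k, ∀ b, (V j b : F) = v j b := by
  classical
  have hP : Path k v := path_of_map ψ hv (fun j _ b => fis_path s₀ h j b)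
  have hI : ∀ j ≤ k, ∀ b, IsIntegral ℤ (v j b) := fun j hj b => path_int hP hint j hj b
  obtain ⟨V, hV⟩ : ∃ V : ℕ → GI g → 𝓞 F, ∀ j ≤ k, ∀ b, (V j b : F) = v j b := by
    refine ⟨fun j b => if hj : j ≤ k then ⟨v j b, hI j hj b⟩ else 0, fun j hj b => ?_⟩
    dsimp only
    rw [dif_pos hj]
    rfl
  refine ⟨V, ⟨?_, ⟨s₀, hs₀, ?_⟩, ?_⟩, hV⟩
  · intro j hj b
    apply NumberField.RingOfIntegers.coe_injective
    have h1 := hP j hj b
    unfold FreyTN.sq at h1 ⊢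
    rw [map_pow, map_mul, map_pow, map_sum]
    have h2 : (algebraMap (𝓞 F) F) 2 = 2 := map_ofNat _ 2
    have hV' : ∀ i ≤ k, ∀ x, algebraMap (𝓞 F) F (V i x) = v i x := fun i hi x => hV i hi x
    rw [h2, hV' (j + 1) hj b, h1]
    congr 1
    refine Finset.sum_congr rfl fun c _ => ?_
    rw [map_mul, hV' j hj.le c, hV' j hj.le (b + c)]
  · intro j hj b
    rw [hV j hj b, hv j hj b]
    unfold fis_bet
    have h1 : (2 ^ g) ^ j * s₀ * theta ((2 ^ j : ℂ) • τ) b - (2 ^ g) ^ j * s₀ =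
        (2 ^ g) ^ j * s₀ * (theta ((2 ^ j : ℂ) • τ) b - 1) := by ring
    rw [h1, norm_mul, norm_mul, norm_pow, norm_pow, Complex.norm_ofNat]
    exact mul_le_mul_of_nonneg_left (hlim j b) (by positivity)
  · intro j hj b σ
    rw [hV j hj b]
    exact path_house hP σ (fun b => hR b σ) j hj b

/-- The integral vector of an exception is in `TSet`. -/
private theorem fis_mem {g : ℕ} {ρ : ℝ} (hρ : 0 < ρ) {δ : ℕ → ℝ}
    (hpath : ∀ τ : Matrix (Fin g) (Fin g) ℂ, Siegel ρ τ →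
      (∀ j : ℕ, Step (theta ((2 ^ j : ℂ) • τ)) (theta ((2 ^ (j + 1) : ℂ) • τ))) ∧
      ∀ (j : ℕ) (b : GI g), ‖theta ((2 ^ j : ℂ) • τ) b - 1‖ ≤ δ j) (k : ℕ)
    {K : IntermediateField ℚ ℂ} [NumberField K]
    {τ : Matrix (Fin g) (Fin g) ℂ} (hτ : Siegel ρ τ) (u : GI g → K)
    (hu : ∀ a b, (u a : ℂ) * theta τ b = (u b : ℂ) * theta τ a)
    (a : K) (W : GI g → 𝓞 K) (ha : a ≠ 0) (hW : ∀ b, (W b : K) = a * u b) {R : ℝ}
    (hWR : ∀ b (σ : K →+* ℂ), ‖σ (W b : K)‖ ≤ R)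
    (s : Finset (HeightOneSpectrum (𝓞 K))) (hs : ∀ v, Bad K τ v → v ∈ s) (b₀ : GI g)
    (hb₀ : u b₀ ≠ 0) :
    W ∈ TSet δ k (k * 2 ^ g) K (2 * ∏ v ∈ s, Ideal.absNorm v.asIdeal) R := by
  classical
  obtain ⟨hstep, hlim⟩ := hpath τ hτ
  obtain ⟨c, hc⟩ := theta_ne hρ hτ
  have hub : ((u b₀ : K) : ℂ) ≠ 0 := by
    intro h
    apply hb₀
    exact_mod_cast h
  have hac : ((a : K) : ℂ) ≠ 0 := by
    intro h
    apply ha
    exact_mod_cast h
  have huc : ((u c : K) : ℂ) ≠ 0 := by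
    intro h
    have h1 := hu b₀ c
    rw [h, zero_mul] at h1
    exact mul_ne_zero hub hc h1
  have hWc : ∀ b, ((W b : K) : ℂ) = (a : ℂ) * (u b : ℂ) := by
    intro b
    rw [hW b]
    push_cast
    rfl
  obtain ⟨s₀, hs₀⟩ : ∃ s₀ : ℂ, s₀ = ((W c : K) : ℂ) / theta τ c := ⟨_, rfl⟩
  have hs₀' : s₀ ≠ 0 := by
    rw [hs₀, hWc c]
    exact div_ne_zero (mul_ne_zero hac huc) hc
  have hWb : ∀ b, ((W b : K) : ℂ) = s₀ * theta τ b := by
    intro b
    rw [hs₀, div_mul_eq_mul_div, eq_div_iff hc, hWc b, hWc c, mul_assoc, mul_assoc, hu b c]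
  obtain ⟨w, hw⟩ : ∃ w : ℕ, w = 2 * ∏ v ∈ s, Ideal.absNorm v.asIdeal := ⟨_, rfl⟩
  rw [← hw]
  have h2w : 2 ∣ w := ⟨_, hw⟩
  have hbad : ∀ v : HeightOneSpectrum (𝓞 K), Bad K τ v → (w : 𝓞 K) ∈ v.asIdeal := by
    intro v hv
    have hvs := hs v hv
    have h1 : Ideal.absNorm v.asIdeal ∣ w := by
      rw [hw]
      exact Dvd.dvd.mul_left (Finset.dvd_prod_of_mem _ hvs) 2
    obtain ⟨m, hm⟩ := h1
    rw [hm, Nat.cast_mul]
    exact Ideal.mul_mem_right _ _ (Ideal.absNorm_mem v.asIdeal)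
  have hβ0 : ∀ b, fis_bet τ s₀ 0 b = (((W b : 𝓞 K) : K) : ℂ) := by
    intro b
    unfold fis_bet
    rw [pow_zero, one_mul, pow_zero, one_smul, ← hWb b]
  have hmem : ∀ (j : ℕ) (b : GI g),
      fis_bet τ s₀ j b ∈ IntermediateField.adjoin K (thetaSet τ) := by
    intro j b
    have h1 : fis_bet τ s₀ j b = algebraMap K ℂ ((2 ^ g) ^ j * ((W c : 𝓞 K) : K)) *
        (theta ((2 ^ j : ℂ) • τ) b / theta τ c) := by
      unfold fis_bet
      rw [map_mul, map_pow, map_pow, map_ofNat]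
      have h2 : algebraMap K ℂ ((W c : 𝓞 K) : K) = ((W c : K) : ℂ) := rfl
      rw [h2, hs₀]
      ring
    rw [h1]
    refine mul_mem (IntermediateField.algebraMap_mem _ _) ?_
    exact IntermediateField.subset_adjoin _ _ ⟨j, b, c, hc, rfl⟩
  obtain ⟨F, hF, hFβ⟩ := path_tow g k (K := K) (w := w) (fis_bet τ s₀)
    (fun b => ((W b : 𝓞 K) : K)) hβ0 (fun j _ b => fis_path s₀ hstep j b)
    (fun L _ _ _ ψ P hP x j _ b hx hψ =>
      even_of_sq h2w hbad L ψ P hP x hx (fis_bet τ s₀ (j + 1) b) (hmem _ _) hψ)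
  obtain ⟨hKF, hNF, -⟩ := tow_field _ F hF
  obtain ⟨v, hv⟩ : ∃ v : ℕ → GI g → F, ∀ j ≤ k, ∀ b, F.val.toRingHom (v j b) = fis_bet τ s₀ j b := by
    refine ⟨fun j b => if h : fis_bet τ s₀ j b ∈ F then ⟨_, h⟩ else 0, fun j hj b => ?_⟩
    dsimp only
    rw [dif_pos (hFβ j hj b)]
    rfl
  have hv0 : ∀ b, v 0 b = IntermediateField.inclusion hKF ((W b : 𝓞 K) : K) := by
    intro b
    apply F.val.toRingHom.injective
    rw [hv 0 (Nat.zero_le k) b, hβ0 b]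
    rfl
  have hWint : ∀ b, IsIntegral ℤ (v 0 b) := by
    intro b
    rw [hv0 b]
    have h1 : IsIntegral ℤ ((W b : 𝓞 K) : K) := (W b).2
    exact h1.map (IntermediateField.inclusion hKF).toRingHom.toIntAlgHom
  have hWR' : ∀ b (σ : F →+* ℂ), ‖σ (v 0 b)‖ ≤ R := by
    intro b σ
    rw [hv0 b]
    exact hWR b (σ.comp (IntermediateField.inclusion hKF).toRingHom)
  obtain ⟨V, hArc, hVv⟩ := fis_arc (k := k) (δ := δ) (R := R) F.val.toRingHom hs₀' hstep hlim hv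
    hWint hWR'
  have hWb0 : W b₀ ≠ 0 := by
    intro h
    have h1 := hWc b₀
    rw [h] at h1
    have h2 : ((a : K) : ℂ) * (u b₀ : ℂ) ≠ 0 := mul_ne_zero hac hub
    apply h2
    rw [← h1]
    simp
  refine ⟨⟨b₀, hWb0⟩, F, hF, hNF, V, hArc, fun b => ?_⟩
  have h1 : (V 0 b : F) = v 0 b := hVv 0 (Nat.zero_le k) b
  rw [h1]
  exact (hv 0 (Nat.zero_le k) b).trans (hβ0 b)

theorem frey_field (g d : ℕ) {ρ ε : ℝ} (hρ : 0 < ρ) (hε : 0 < ε) :
    ∃ (A : ℕ) (c : ℝ), 0 < c ∧ ∀ (K : IntermediateField ℚ ℂ) [NumberField K], finrank ℚ K = d →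
      ∀ κ : ℝ, 0 < κ → ∀ H : ℝ, 1 ≤ H → ∃ T : Finset (GI g → K),
        (T.card : ℝ) ≤ c * |(discr K : ℝ)| ^ A * H ^ ((1 + ε) / κ + ε) ∧
        ∀ τ : Matrix (Fin g) (Fin g) ℂ, Siegel ρ τ →
          ∀ u : GI g → K, u ≠ 0 → (∀ a b, (u a : ℂ) * theta τ b = (u b : ℂ) * theta τ a) →
            Height.logHeight u / d ≤ Real.log H → ¬ FreyK κ K τ u →
              ∃ w ∈ T, w ≠ 0 ∧ ∀ a b, u a * w b = u b * w a := by
  classical
  obtain ⟨δ, hδ, hpath⟩ := theta_path g hρ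
  obtain ⟨ε', hε', hε1, hεε⟩ : ∃ ε' : ℝ, 0 < ε' ∧ ε' ≤ 1 ∧ ε' ≤ ε :=
    ⟨min 1 ε, lt_min one_pos hε, min_le_left _ _, min_le_right _ _⟩
  obtain ⟨k, A, C, hC, hcount⟩ := tset_count g hδ d hε'
  obtain ⟨C₄, hC₄, hsm⟩ := small_multiple d
  refine ⟨A + 1, C * 2 ^ ε' * C₄ ^ ε', by positivity, ?_⟩
  intro K _ hKd κ hκ H hH
  have hH0 : 0 < H := by linarith
  obtain ⟨Y, hYdef⟩ : ∃ Y : ℝ, Y = H ^ (1 / κ) := ⟨_, rfl⟩
  have hY1 : 1 ≤ Y := by
    rw [hYdef]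
    exact Real.one_le_rpow hH (by positivity)
  obtain ⟨D, hD⟩ : ∃ D : ℝ, D = |(discr K : ℝ)| := ⟨_, rfl⟩
  have hDK : (1 : ℝ) ≤ D := by
    have h1 : (1 : ℤ) ≤ |discr K| := Int.one_le_abs (NumberField.discr_ne_zero K)
    rw [hD]
    exact_mod_cast h1
  obtain ⟨R, hR⟩ : ∃ R : ℝ, R = C₄ * D * H := ⟨_, rfl⟩
  have hR1 : 1 ≤ R := by
    rw [hR]
    have h1 : 1 ≤ C₄ * D := by nlinarith
    nlinarith
  have hn : ∀ n : ℕ, ∃ T : Finset (GI g → 𝓞 K), (1 ≤ n → (T.card : ℝ) ≤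
      C * D ^ A * ((2 * n : ℕ) : ℝ) ^ ε' * R ^ ε') ∧ (1 ≤ n → (∀ z ∈ T, ∃ b, z b ≠ 0) ∧
        ∀ u ∈ TSet δ k (k * 2 ^ g) K (2 * n) R, ∃ z ∈ T, ¬ NPr u z) := by
    intro n
    by_cases h1 : 1 ≤ n
    · obtain ⟨T, hT1, hT2⟩ := hcount K hKd.le (2 * n) (by omega) ⟨n, rfl⟩ R hR1
      rw [← hD] at hT1
      exact ⟨T, fun _ => hT1, fun _ => hT2⟩
    · exact ⟨∅, fun h => absurd h h1, fun h => absurd h h1⟩
  choose T hT1 hT2 using hn
  refine ⟨(Finset.Icc 1 ⌊Y⌋₊).biUnion fun n => (T n).image fun (z : GI g → 𝓞 K) b => (z b : K),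
    ?_, ?_⟩
  · -- the count
    have h1 : ∀ n ∈ Finset.Icc 1 ⌊Y⌋₊,
        ((((T n).image fun (z : GI g → 𝓞 K) b => (z b : K)).card : ℕ) : ℝ) ≤
          C * D ^ A * (2 * Y) ^ ε' * R ^ ε' := by
      intro n hn
      obtain ⟨hn1, hn2⟩ := Finset.mem_Icc.1 hn
      have h2 : (((T n).image fun (z : GI g → 𝓞 K) b => (z b : K)).card : ℝ) ≤ (T n).card := by
        exact_mod_cast Finset.card_image_le
      refine h2.trans ((hT1 n hn1).trans ?_)
      have h3 : ((2 * n : ℕ) : ℝ) ≤ 2 * Y := by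
        push_cast
        have h4 : (n : ℝ) ≤ Y := (Nat.le_floor_iff (by linarith)).1 hn2
        linarith
      gcongr
    have h2 : (((Finset.Icc 1 ⌊Y⌋₊).biUnion fun n =>
        (T n).image fun (z : GI g → 𝓞 K) b => (z b : K)).card : ℝ) ≤
          ∑ n ∈ Finset.Icc 1 ⌊Y⌋₊, (((T n).image fun (z : GI g → 𝓞 K) b => (z b : K)).card : ℝ) := by
      exact_mod_cast Finset.card_biUnion_le
    have h3 : (0 : ℝ) ≤ C * D ^ A * (2 * Y) ^ ε' * R ^ ε' := by positivity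
    have h4 : (⌊Y⌋₊ : ℝ) ≤ Y := Nat.floor_le (by linarith)
    refine h2.trans ((Finset.sum_le_sum h1).trans ?_)
    rw [Finset.sum_const, nsmul_eq_mul, Nat.card_Icc, Nat.add_sub_cancel]
    have h5 : (⌊Y⌋₊ : ℝ) * (C * D ^ A * (2 * Y) ^ ε' * R ^ ε') ≤
        Y * (C * D ^ A * (2 * Y) ^ ε' * R ^ ε') := mul_le_mul_of_nonneg_right h4 h3
    refine h5.trans ?_
    have hD0 : 0 < D := by linarith
    have hY0 : 0 < Y := by linarith
    have hC40 : 0 < C₄ := by linarith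
    have e1 : (2 * Y) ^ ε' = 2 ^ ε' * Y ^ ε' := Real.mul_rpow (by norm_num) hY0.le
    have e2 : R ^ ε' = C₄ ^ ε' * D ^ ε' * H ^ ε' := by
      rw [hR, Real.mul_rpow (by positivity) hH0.le, Real.mul_rpow hC40.le hD0.le]
    have e3 : D ^ ε' ≤ D := by
      calc D ^ ε' ≤ D ^ (1 : ℝ) := Real.rpow_le_rpow_of_exponent_le hDK hε1
        _ = D := Real.rpow_one D
    have e4 : Y * Y ^ ε' * H ^ ε' = H ^ ((1 + ε') / κ + ε') := by
      rw [hYdef, ← Real.rpow_mul hH0.le, ← Real.rpow_add hH0, ← Real.rpow_add hH0]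
      congr 1
      ring
    have e5 : H ^ ((1 + ε') / κ + ε') ≤ H ^ ((1 + ε) / κ + ε) := by
      apply Real.rpow_le_rpow_of_exponent_le hH
      have : (1 + ε') / κ ≤ (1 + ε) / κ := by gcongr
      linarith
    calc Y * (C * D ^ A * (2 * Y) ^ ε' * R ^ ε')
        = (C * 2 ^ ε' * C₄ ^ ε') * (D ^ A * D ^ ε') * (Y * Y ^ ε' * H ^ ε') := by
          rw [e1, e2]
          ring
      _ ≤ (C * 2 ^ ε' * C₄ ^ ε') * (D ^ A * D) * H ^ ((1 + ε) / κ + ε) := by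
          rw [e4]
          gcongr
      _ = C * 2 ^ ε' * C₄ ^ ε' * |(discr K : ℝ)| ^ (A + 1) * H ^ ((1 + ε) / κ + ε) := by
          rw [← hD, pow_succ]
  · intro τ hτ u hu hprop hht hFrey
    have hlogd : Height.logHeight u / finrank ℚ K ≤ Real.log H := by
      rw [hKd]
      exact hht
    have hkey : ∀ s : Finset (HeightOneSpectrum (𝓞 K)), (∀ v ∈ s, Bad K τ v) →
        ∏ v ∈ s, (Ideal.absNorm v.asIdeal : ℝ) ≤ Y := by
      intro s hs
      by_contra hcon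
      rw [not_le] at hcon
      apply hFrey
      refine ⟨s, hs, hlogd.trans ?_⟩
      have h2 : Real.log Y = (1 / κ) * Real.log H := by
        rw [hYdef, Real.log_rpow hH0]
      have h3 : Real.log Y ≤ Real.log (∏ v ∈ s, (Ideal.absNorm v.asIdeal : ℝ)) :=
        Real.log_le_log (by linarith) hcon.le
      calc Real.log H = κ * Real.log Y := by
            rw [h2]
            field_simp
        _ ≤ _ := mul_le_mul_of_nonneg_left h3 hκ.le
    obtain ⟨s, hs⟩ := bad_finite (K := K) (τ := τ) (X := Y) hkey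
    obtain ⟨a, W, ha, hW, hWR⟩ := hsm K hKd.le (GI g) u hu
    obtain ⟨b₀, hb₀⟩ : ∃ b₀, u b₀ ≠ 0 := by
      by_contra hcon
      apply hu
      funext b
      by_contra h
      exact hcon ⟨b, h⟩
    have hWR' : ∀ b (σ : K →+* ℂ), ‖σ (W b : K)‖ ≤ R := by
      intro b σ
      refine (hWR b σ).trans ?_
      rw [hR, ← hD]
      have h1 : √D ≤ D := by
        rw [Real.sqrt_le_left (by positivity)]
        nlinarith
      have h2 : Real.exp (Height.logHeight u / finrank ℚ K) ≤ H := by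
        calc Real.exp (Height.logHeight u / finrank ℚ K) ≤ Real.exp (Real.log H) :=
              Real.exp_le_exp.2 hlogd
          _ = H := Real.exp_log hH0
      refine mul_le_mul (mul_le_mul_of_nonneg_left h1 (by linarith)) h2 (by positivity)
        (by positivity)
    have hmem := fis_mem hρ hpath k hτ u hprop a W ha hW hWR' s (fun v hv => (hs v).2 hv) b₀ hb₀
    obtain ⟨n, hn⟩ : ∃ n : ℕ, n = ∏ v ∈ s, Ideal.absNorm v.asIdeal := ⟨_, rfl⟩
    rw [← hn] at hmem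
    have hn1 : 1 ≤ n := by
      rw [hn]
      exact Finset.one_le_prod' (fun v _ => (NumberField.HeightOneSpectrum.one_lt_absNorm v).le)
    have hnY : n ≤ ⌊Y⌋₊ := by
      apply Nat.le_floor
      rw [hn]
      push_cast
      exact hkey s (fun v hv => (hs v).1 hv)
    obtain ⟨hz0, hz1⟩ := hT2 n hn1
    obtain ⟨z, hz, hnpr⟩ := hz1 W hmem
    refine ⟨fun b => (z b : K), ?_, ?_, ?_⟩
    · exact Finset.mem_biUnion.2 ⟨n, Finset.mem_Icc.2 ⟨hn1, hnY⟩, Finset.mem_image.2 ⟨z, hz, rfl⟩⟩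
    · intro h
      obtain ⟨b, hb⟩ := hz0 z hz
      apply hb
      have h1 := congrFun h b
      exact NumberField.RingOfIntegers.coe_injective (by simpa using h1)
    · intro x y
      have h1 : W x * z y = W y * z x := by
        by_contra h
        exact hnpr ⟨x, y, h⟩
      have h2 : (W x : K) * (z y : K) = (W y : K) * (z x : K) := by
        have h3 := congrArg (algebraMap (𝓞 K) K) h1
        rw [map_mul, map_mul] at h3
        exact h3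
      rw [hW, hW, mul_assoc, mul_assoc] at h2
      exact mul_left_cancel₀ ha h2

end FreySH
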