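import Pool.Agent.Lib.MP_6babc4_nt.SH.Opb

/-!
# Module Op2: all vectors near a rational vector are theta null points, `g = 2`

PROOF. The map `(x, y, s) ↦ (x P₁₀ / P₀₀, y P₀₁ / P₀₀, P₁₁ P₀₀ / (P₁₀ P₀₁))` has a strict derivative at `(0, 0, 1)` (Opb) with matrix
`2, 2` and `e² - e⁻² ≠ 0` on the diagonal (triangular), so it maps neighbourhoods to neighbourhoods (`HasStrictFDerivAt.map_nhds_eq_of_surj`). If the first two
coordinates of the image are not zero then `x, y ≠ 0`, and `(x, y, s)` comes from a matrix of Siegel's half space, reduced as `x`, `y` are small and `|Re s| < 2`.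
The Fourier transform of the vector of theta constants is `(P₀₀, x P₁₀, y P₀₁, x y P₁₁)`.
-/

set_option autoImplicit false
open Filter Topology

namespace FreySH

open FreyTN

private theorem op2_oex0 {m : ℤ} (h : m ≠ 0) : oex 0 m ≠ 0 := by
  intro h1
  have h2 := oex_cast 0 m
  rw [h1, par_zero] at h2
  push_cast at h2
  have : m ^ 2 = 0 := by linarith
  exact h (pow_eq_zero_iff (by norm_num) |>.mp this)

private theorem op2_oex1 {m : ℤ} (h : m ≠ 0) (h' : m ≠ -1) : oex 1 m ≠ 0 := by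
  intro h1
  have h2 := oex_cast 1 m
  rw [h1, par_one] at h2
  push_cast at h2
  have h3 : m * (m + 1) = 0 := by linarith
  rcases mul_eq_zero.mp h3 with h4 | h4
  · exact h h4
  · exact h' (by linarith)

private def op2S (a : ZMod 2) : Finset ℤ := if a = 0 then {0} else {0, -1}

private theorem op2_S0 : op2S 0 = {0} := rfl
private theorem op2_S1 : op2S 1 = {0, -1} := rfl

private theorem op2_e00 : oex 0 0 = 0 := rfl
private theorem op2_e10 : oex 1 0 = 0 := rfl
private theorem op2_e11 : oex 1 (-1) = 0 := rfl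

private theorem op2_01 (a : ZMod 2) : a = 0 ∨ a = 1 := by revert a; decide

private theorem op2_S (a : ZMod 2) {m : ℤ} (h : m ∉ op2S a) : oex a m ≠ 0 := by
  rcases op2_01 a with rfl | rfl
  · rw [op2_S0, Finset.mem_singleton] at h
    exact op2_oex0 h
  · rw [op2_S1, Finset.mem_insert, Finset.mem_singleton, not_or] at h
    exact op2_oex1 h.1 h.2

private theorem op2_val (c : GI 2) (s : ℂ) :
    Pc c (0, 0, s) = ∑ n ∈ op2S (c 0) ×ˢ op2S (c 1),
      otm (oex (c 0) n.1) (oex (c 1) n.2) (oK c n) (0, 0, s) := by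
  unfold Pc
  refine tsum_eq_sum fun n hn => ?_
  rw [Finset.mem_product, not_and_or] at hn
  unfold otm
  rcases hn with h | h
  · simp [op2_S _ h]
  · simp [op2_S _ h]

private theorem op2_v00 (s : ℂ) : Pc ![0, 0] (0, 0, s) = 1 := by
  rw [op2_val, Finset.sum_product]
  simp [op2_S0, op2_e00, otm, oK, par_zero]

private theorem op2_v10 (s : ℂ) : Pc ![1, 0] (0, 0, s) = 2 := by
  rw [op2_val, Finset.sum_product]
  simp [op2_S0, op2_S1, op2_e00, op2_e10, op2_e11, otm, oK, par_zero, par_one]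
  norm_num

private theorem op2_v01 (s : ℂ) : Pc ![0, 1] (0, 0, s) = 2 := by
  rw [op2_val, Finset.sum_product]
  simp [op2_S0, op2_S1, op2_e00, op2_e10, op2_e11, otm, oK, par_zero, par_one]
  norm_num

private theorem op2_v11 (s : ℂ) : Pc ![1, 1] (0, 0, s) =
    2 * Complex.exp (2 * s) + 2 * Complex.exp (-(2 * s)) := by
  rw [op2_val, Finset.sum_product]
  simp [op2_S1, op2_e10, op2_e11, otm, oK, par_one]
  ring_nf

/-- The three ratios. -/
private noncomputable def op2Phi (p : E3) : E3 :=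
  (p.1 * (Pc ![1, 0] p / Pc ![0, 0] p), p.2.1 * (Pc ![0, 1] p / Pc ![0, 0] p),
    Pc ![1, 1] p * Pc ![0, 0] p / (Pc ![1, 0] p * Pc ![0, 1] p))

private noncomputable def op2z : ℂ := (Complex.exp 2 + Complex.exp (-2)) / 2

private theorem op2_at : op2Phi (0, 0, 1) = (0, 0, op2z) := by
  unfold op2Phi op2z
  rw [op2_v00, op2_v10, op2_v01, op2_v11]
  simp only [zero_mul, mul_one, Prod.mk.injEq, true_and]
  ring

private theorem op2_map : map op2Phi (𝓝 (0, 0, 1)) = 𝓝 (0, 0, op2z) := by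
  obtain ⟨U, hU1, hU2, hU3⟩ := Pc_strict (S := 2) two_pos
  have hm : ((0, 0, 1) : E3) ∈ U := hU2 1 (by norm_num)
  obtain ⟨D0, h0⟩ := (hU3 ![0, 0]).2 _ hm
  obtain ⟨D1, h1⟩ := (hU3 ![1, 0]).2 _ hm
  obtain ⟨D2, h2⟩ := (hU3 ![0, 1]).2 _ hm
  obtain ⟨D3, h3⟩ := (hU3 ![1, 1]).2 _ hm
  have e1 : HasStrictFDerivAt (fun p : E3 => p.1) (ContinuousLinearMap.fst ℂ ℂ (ℂ × ℂ)) (0, 0, 1) :=
    hasStrictFDerivAt_fst
  have e2 : HasStrictFDerivAt (fun p : E3 => p.2.1)
    ((ContinuousLinearMap.fst ℂ ℂ ℂ).comp (ContinuousLinearMap.snd ℂ ℂ (ℂ × ℂ))) (0, 0, 1) :=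
    hasStrictFDerivAt_fst.comp _ hasStrictFDerivAt_snd
  have n0 : Pc ![0, 0] (0, 0, 1) ≠ 0 := by rw [op2_v00]; exact one_ne_zero
  have n1 : Pc ![1, 0] (0, 0, 1) ≠ 0 := by rw [op2_v10]; exact two_ne_zero
  have n2 : Pc ![0, 1] (0, 0, 1) ≠ 0 := by rw [op2_v01]; exact two_ne_zero
  have inv : ∀ {f : E3 → ℂ} {D : E3 →L[ℂ] ℂ}, HasStrictFDerivAt f D (0, 0, 1) → f (0, 0, 1) ≠ 0 →
      ∃ D' : E3 →L[ℂ] ℂ, HasStrictFDerivAt (fun p => (f p)⁻¹) D' (0, 0, 1) := fun h hn =>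
    ⟨_, (hasStrictDerivAt_inv hn).comp_hasStrictFDerivAt _ h⟩
  obtain ⟨I0, i0⟩ := inv h0 n0
  obtain ⟨I1, i1⟩ := inv h1 n1
  obtain ⟨I2, i2⟩ := inv h2 n2
  have f1 := e1.mul (h1.mul i0)
  have f2 := e2.mul (h2.mul i0)
  obtain ⟨D, f3⟩ : ∃ D : E3 →L[ℂ] ℂ, HasStrictFDerivAt (fun p : E3 =>
      Pc ![1, 1] p * Pc ![0, 0] p * ((Pc ![1, 0] p)⁻¹ * (Pc ![0, 1] p)⁻¹)) D (0, 0, 1) :=
    ⟨_, (h3.mul h0).mul (i1.mul i2)⟩
  have f := f1.prodMk (f2.prodMk f3)
  have hf : op2Phi = fun p : E3 => (p.1 * (Pc ![1, 0] p * (Pc ![0, 0] p)⁻¹),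
      p.2.1 * (Pc ![0, 1] p * (Pc ![0, 0] p)⁻¹),
      Pc ![1, 1] p * Pc ![0, 0] p * ((Pc ![1, 0] p)⁻¹ * (Pc ![0, 1] p)⁻¹)) := by
    funext p
    unfold op2Phi
    rw [div_eq_mul_inv, div_eq_mul_inv, div_eq_mul_inv, mul_inv]
  have hδ : D (0, 0, 1) ≠ 0 := by
    have g1 : HasDerivAt (fun t : ℂ => ((0, 0, t) : E3)) ((0, 0, 1) : E3) 1 :=
      (hasDerivAt_const _ _).prodMk ((hasDerivAt_const _ _).prodMk (hasDerivAt_id _))
    have g2 := f3.hasFDerivAt.comp_hasDerivAt (1 : ℂ) g1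
    have g3 : (fun p : E3 => Pc ![1, 1] p * Pc ![0, 0] p * ((Pc ![1, 0] p)⁻¹ * (Pc ![0, 1] p)⁻¹)) ∘
        (fun t : ℂ => ((0, 0, t) : E3)) =
        fun t : ℂ => (Complex.exp (2 * t) + Complex.exp (-(2 * t))) / 2 := by
      funext t
      simp only [Function.comp, op2_v00, op2_v10, op2_v01, op2_v11]
      ring
    rw [g3] at g2
    have g4 : HasDerivAt (fun t : ℂ => (Complex.exp (2 * t) + Complex.exp (-(2 * t))) / 2)
        (Complex.exp 2 - Complex.exp (-2)) 1 := by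
      have k1 : HasDerivAt (fun t : ℂ => 2 * t) 2 1 := by
        simpa using (hasDerivAt_id (1 : ℂ)).const_mul 2
      have k2 := k1.cexp
      have k3 := k1.neg.cexp
      have k4 := (k2.add k3).div_const 2
      refine k4.congr_deriv ?_
      simp
      ring
    rw [g2.unique g4]
    intro h
    have h5 := sub_eq_zero.mp h
    have h6 := congrArg norm h5
    rw [Complex.norm_exp, Complex.norm_exp, Real.exp_eq_exp] at h6
    norm_num at h6
  rw [← op2_at, hf]
  refine f.map_nhds_eq_of_surj ?_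
  rw [LinearMap.range_eq_top]
  rintro ⟨a, b, c⟩
  refine ⟨(a / 2, b / 2, (c - D (a / 2, b / 2, 0)) / D (0, 0, 1)), ?_⟩
  have hlin : ∀ z : ℂ, D (a / 2, b / 2, z) = D (a / 2, b / 2, 0) + z * D (0, 0, 1) := by
    intro z
    have : ((a / 2, b / 2, z) : E3) = (a / 2, b / 2, 0) + z • (0, 0, 1) := by
      simp
    rw [this, map_add, map_smul, smul_eq_mul]
  simp [op2_v00, op2_v10, op2_v01]
  refine ⟨by ring, by ring, ?_⟩
  rw [hlin, div_mul_cancel₀ _ hδ]
  ring

/-- The four classes. -/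
private theorem op2_sum {M : Type*} [AddCommMonoid M] (f : GI 2 → M) :
    ∑ b, f b = f ![0, 0] + (f ![1, 0] + (f ![0, 1] + f ![1, 1])) := by
  have h : (Finset.univ : Finset (GI 2)) = {![0, 0], ![1, 0], ![0, 1], ![1, 1]} := by decide
  rw [h, Finset.sum_insert (by decide), Finset.sum_insert (by decide),
    Finset.sum_insert (by decide), Finset.sum_singleton]

private theorem op2_all {p : GI 2 → Prop} (h0 : p ![0, 0]) (h1 : p ![1, 0]) (h2 : p ![0, 1])
    (h3 : p ![1, 1]) (b : GI 2) : p b := by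
  have h : b = ![0, 0] ∨ b = ![1, 0] ∨ b = ![0, 1] ∨ b = ![1, 1] := by revert b; decide
  rcases h with rfl | rfl | rfl | rfl <;> assumption

private theorem chi_0 (b : GI 2) : chi b ![0, 0] = 1 := by revert b; decide
private theorem chi_0' (b : GI 2) : chi ![0, 0] b = 1 := by revert b; decide
private theorem chi_11 : chi ![1, 0] ![1, 0] = -1 := by decide
private theorem chi_12 : chi ![1, 0] ![0, 1] = 1 := by decide
private theorem chi_13 : chi ![1, 0] ![1, 1] = -1 := by decide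
private theorem chi_21 : chi ![0, 1] ![1, 0] = 1 := by decide
private theorem chi_22 : chi ![0, 1] ![0, 1] = -1 := by decide
private theorem chi_23 : chi ![0, 1] ![1, 1] = -1 := by decide
private theorem chi_31 : chi ![1, 1] ![1, 0] = -1 := by decide
private theorem chi_32 : chi ![1, 1] ![0, 1] = -1 := by decide
private theorem chi_33 : chi ![1, 1] ![1, 1] = 1 := by decide

/-- The Fourier transform. -/
private noncomputable def op2F (u : GI 2 → ℂ) (c : GI 2) : ℂ := ∑ b, (chi c b : ℂ) * u b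

private theorem op2_inv (u : GI 2 → ℂ) (b : GI 2) :
    ∑ c, (chi b c : ℂ) * op2F u c = 4 * u b := by
  unfold op2F
  rw [op2_sum]
  simp only [op2_sum]
  revert b
  refine op2_all ?_ ?_ ?_ ?_ <;>
  · simp only [chi_0, chi_0', chi_11, chi_12, chi_13, chi_21, chi_22, chi_23, chi_31, chi_32,
      chi_33]
    push_cast
    ring

private theorem fc_0 (p : E3) : fc ![0, 0] p = Pc ![0, 0] p := by simp [fc]
private theorem fc_1 (p : E3) : fc ![1, 0] p = p.1 * Pc ![1, 0] p := by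
  have : (1 : ZMod 2).val = 1 := rfl
  simp [fc, this]
private theorem fc_2 (p : E3) : fc ![0, 1] p = p.2.1 * Pc ![0, 1] p := by
  have : (1 : ZMod 2).val = 1 := rfl
  simp [fc, this]
private theorem fc_3 (p : E3) : fc ![1, 1] p = p.1 * p.2.1 * Pc ![1, 1] p := by
  have : (1 : ZMod 2).val = 1 := rfl
  simp [fc, this]

private theorem op2_fc {u : GI 2 → ℂ} {p : E3} (n0 : Pc ![0, 0] p ≠ 0) (n1 : Pc ![1, 0] p ≠ 0)
    (n2 : Pc ![0, 1] p ≠ 0) (m0 : op2F u ![0, 0] ≠ 0) (m1 : op2F u ![1, 0] ≠ 0)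
    (m2 : op2F u ![0, 1] ≠ 0)
    (h : op2Phi p = (op2F u ![1, 0] / op2F u ![0, 0], op2F u ![0, 1] / op2F u ![0, 0],
      op2F u ![1, 1] * op2F u ![0, 0] / (op2F u ![1, 0] * op2F u ![0, 1]))) (c : GI 2) :
    fc c p = Pc ![0, 0] p / op2F u ![0, 0] * op2F u c := by
  unfold op2Phi at h
  simp only [Prod.mk.injEq] at h
  obtain ⟨h1, h2, h3⟩ := h
  have k1 : p.1 * Pc ![1, 0] p = Pc ![0, 0] p / op2F u ![0, 0] * op2F u ![1, 0] := by
    field_simp at h1 ⊢
    linear_combination h1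
  have k2 : p.2.1 * Pc ![0, 1] p = Pc ![0, 0] p / op2F u ![0, 0] * op2F u ![0, 1] := by
    field_simp at h2 ⊢
    linear_combination h2
  revert c
  refine op2_all ?_ ?_ ?_ ?_
  · rw [fc_0, div_mul_cancel₀ _ m0]
  · rw [fc_1, k1]
  · rw [fc_2, k2]
  · rw [fc_3]
    have k3 : Pc ![1, 1] p = op2F u ![1, 1] * op2F u ![0, 0] / (op2F u ![1, 0] * op2F u ![0, 1]) *
        (Pc ![1, 0] p * Pc ![0, 1] p) / Pc ![0, 0] p := by
      rw [← h3]
      field_simp
    calc p.1 * p.2.1 * Pc ![1, 1] p = (p.1 * Pc ![1, 0] p) * (p.2.1 * Pc ![0, 1] p) *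
        (op2F u ![1, 1] * op2F u ![0, 0] / (op2F u ![1, 0] * op2F u ![0, 1])) /
          Pc ![0, 0] p := by
          rw [k3]
          field_simp
      _ = _ := by
          rw [k1, k2]
          field_simp

open scoped Matrix in
/-- The point of Siegel's half space. -/
private theorem op2_siegel {ρ : ℝ} (hρ : 0 < ρ) {p : E3} (hx : p.1 ≠ 0) (hy : p.2.1 ≠ 0)
    (hx' : ‖p.1‖ < Real.exp (-(Real.pi * (1 + ρ)))) (hy' : ‖p.2.1‖ < Real.exp (-(Real.pi * (1 + ρ))))
    (hs : |p.2.2.re| < 2) : ∃ τ : Matrix (Fin 2) (Fin 2) ℂ, Siegel ρ τ ∧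
      (Complex.exp (Real.pi * Complex.I * τ 0 0), Complex.exp (Real.pi * Complex.I * τ 1 1),
        Real.pi * Complex.I * τ 0 1) = p := by
  have hpi : (Real.pi : ℂ) * Complex.I ≠ 0 := by
    simp [Real.pi_ne_zero]
  set t00 := Complex.log p.1 / (Real.pi * Complex.I) with h00
  set t11 := Complex.log p.2.1 / (Real.pi * Complex.I) with h11
  set t01 := p.2.2 / (Real.pi * Complex.I) with h01
  have im : ∀ z : ℂ, (z / (Real.pi * Complex.I)).im = -z.re / Real.pi := by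
    intro z
    rw [← div_div, Complex.div_I]
    have : (z / (Real.pi : ℂ)) = ((Real.pi)⁻¹ : ℝ) * z := by
      push_cast
      rw [div_eq_inv_mul]
    rw [this]
    simp
    ring
  have i00 : 1 + ρ ≤ t00.im := by
    rw [h00, im, Complex.log_re, le_div_iff₀ Real.pi_pos]
    have := (Real.log_lt_iff_lt_exp (norm_pos_iff.mpr hx)).mpr hx'
    linarith
  have i11 : 1 + ρ ≤ t11.im := by
    rw [h11, im, Complex.log_re, le_div_iff₀ Real.pi_pos]
    have := (Real.log_lt_iff_lt_exp (norm_pos_iff.mpr hy)).mpr hy'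
    linarith
  have i01 : |t01.im| ≤ 1 := by
    rw [h01, im, abs_div, abs_neg, abs_of_pos Real.pi_pos, div_le_one Real.pi_pos]
    linarith [Real.pi_gt_three]
  have hq : ∀ m0 m1 : ℝ, ρ * (m0 ^ 2 + m1 ^ 2) ≤
      t00.im * m0 ^ 2 + 2 * t01.im * (m0 * m1) + t11.im * m1 ^ 2 := by
    intro m0 m1
    have h1 : |2 * t01.im * (m0 * m1)| ≤ m0 ^ 2 + m1 ^ 2 := by
      rw [abs_mul, abs_mul, abs_mul, abs_two]
      have h2 : |m0| * |m1| * 2 ≤ m0 ^ 2 + m1 ^ 2 := by
        rw [← sq_abs m0, ← sq_abs m1]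
        nlinarith [sq_nonneg (|m0| - |m1|)]
      have h3 : 0 ≤ |m0| * |m1| := by positivity
      nlinarith
    have h4 := (abs_le.mp h1).1
    nlinarith [sq_nonneg m0, sq_nonneg m1]
  refine ⟨!![t00, t01; t01, t11], ⟨?_, ?_, ?_⟩, ?_⟩
  · ext i j
    fin_cases i <;> fin_cases j <;> rfl
  · refine Matrix.PosDef.of_dotProduct_mulVec_pos ?_ fun x hx0 => ?_
    · ext i j
      fin_cases i <;> fin_cases j <;> simp
    · have h5 := hq (x 0) (x 1)
      have h6 : 0 < x 0 ^ 2 + x 1 ^ 2 := by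
        by_contra hcon
        have h7 : x 0 = 0 := by
          refine pow_eq_zero_iff (n := 2) (by norm_num) |>.mp ?_
          linarith [sq_nonneg (x 0), sq_nonneg (x 1)]
        have h8 : x 1 = 0 := by
          refine pow_eq_zero_iff (n := 2) (by norm_num) |>.mp ?_
          linarith [sq_nonneg (x 0), sq_nonneg (x 1)]
        refine hx0 (funext fun i => ?_)
        fin_cases i
        · exact h7
        · exact h8
      have h9 : star x ⬝ᵥ (((!![t00, t01; t01, t11] : Matrix (Fin 2) (Fin 2) ℂ).map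
          Complex.im) *ᵥ x) =
          t00.im * (x 0) ^ 2 + 2 * t01.im * (x 0 * x 1) + t11.im * (x 1) ^ 2 := by
        simp [Matrix.mulVec, dotProduct, Fin.sum_univ_two]
        ring
      rw [h9]
      have := mul_pos hρ h6
      linarith
  · intro m hm
    have h5 := hq (m 0) (m 1)
    have h6 : (1 : ℝ) ≤ (m 0 : ℝ) ^ 2 + (m 1 : ℝ) ^ 2 := by
      have : (1 : ℤ) ≤ m 0 ^ 2 + m 1 ^ 2 := by
        by_contra hcon
        have h7 : m 0 = 0 := by nlinarith [sq_nonneg (m 0), sq_nonneg (m 1)]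
        have h8 : m 1 = 0 := by nlinarith [sq_nonneg (m 0), sq_nonneg (m 1)]
        refine hm (funext fun i => ?_)
        fin_cases i
        · exact h7
        · exact h8
      exact_mod_cast this
    have h9 : quad ((!![t00, t01; t01, t11] : Matrix (Fin 2) (Fin 2) ℂ).map Complex.im) m =
        t00.im * (m 0 : ℝ) ^ 2 + 2 * t01.im * ((m 0 : ℝ) * m 1) + t11.im * (m 1 : ℝ) ^ 2 := by
      simp [quad, Fin.sum_univ_two]
      ring
    rw [h9]
    nlinarith
  · have e : ∀ z : ℂ, (Real.pi : ℂ) * Complex.I * (z / (Real.pi * Complex.I)) = z := fun z =>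
      mul_div_cancel₀ z hpi
    simp only [Matrix.cons_val', Matrix.cons_val_zero, Matrix.cons_val_one, Matrix.of_apply,
      Matrix.cons_val_fin_one]
    rw [h00, h11, h01, e, e, e, Complex.exp_log hx, Complex.exp_log hy]


/-- (Op2) All vectors near a rational vector are theta null points, `g = 2`. -/
theorem open_two {ρ : ℝ} (hρ : 0 < ρ) : ∃ (α : GI 2 → ℚ) (η : ℝ), 0 < η ∧ (∀ b, α b ≠ 0) ∧
    ∀ u : GI 2 → ℂ, (∀ b, ‖u b - (α b : ℂ)‖ ≤ η) →
      ∃ τ : Matrix (Fin 2) (Fin 2) ℂ, Siegel ρ τ ∧ ∀ a b, u a * theta τ b = u b * theta τ a := by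
  obtain ⟨U, hU1, hU2, hU3⟩ := Pc_strict (S := 2) two_pos
  have hm : ((0, 0, 1) : E3) ∈ U := hU2 1 (by norm_num)
  have hc : ∀ c, ContinuousAt (Pc c) (0, 0, 1) := fun c => by
    obtain ⟨D, h⟩ := (hU3 c).2 _ hm
    exact h.continuousAt
  set r := Real.exp (-(Real.pi * (1 + ρ))) with hr
  have hr0 : 0 < r := Real.exp_pos _
  set V : Set E3 := {p | p ∈ U ∧ ‖p.1‖ < r ∧ ‖p.2.1‖ < r ∧ |p.2.2.re| < 2 ∧
    Pc ![0, 0] p ≠ 0 ∧ Pc ![1, 0] p ≠ 0 ∧ Pc ![0, 1] p ≠ 0} with hV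
  have hVn : V ∈ 𝓝 ((0, 0, 1) : E3) := by
    rw [hV]
    have c1 : Continuous fun p : E3 => ‖p.1‖ := by fun_prop
    have c2 : Continuous fun p : E3 => ‖p.2.1‖ := by fun_prop
    have c3 : Continuous fun p : E3 => |p.2.2.re| := by fun_prop
    filter_upwards [hU1.mem_nhds hm, c1.continuousAt.eventually_lt_const (u := r) (by simpa using hr0),
      c2.continuousAt.eventually_lt_const (u := r) (by simpa using hr0),
      c3.continuousAt.eventually_lt_const (u := 2) (by norm_num),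
      (hc ![0, 0]).eventually_ne (y := 0) (by rw [op2_v00]; exact one_ne_zero),
      (hc ![1, 0]).eventually_ne (y := 0) (by rw [op2_v10]; exact two_ne_zero),
      (hc ![0, 1]).eventually_ne (y := 0) (by rw [op2_v01]; exact two_ne_zero)] with p h1 h2 h3 h4
        h5 h6 h7
    exact ⟨h1, h2, h3, h4, h5, h6, h7⟩
  have hO : op2Phi '' V ∈ 𝓝 ((0, 0, op2z) : E3) := by
    rw [← op2_map]
    exact image_mem_map hVn
  obtain ⟨O, hO1, hO2, hO3⟩ := mem_nhds_iff.mp hO
  -- rational coordinates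
  set z : ℝ := (Real.exp 2 + Real.exp (-2)) / 2 with hz
  have hzc : op2z = (z : ℂ) := by
    rw [hz]
    unfold op2z
    push_cast
    rfl
  have hz0 : 0 < z := by positivity
  have hz5 : z < 5 := by
    have h1 : Real.exp 2 < 8 := by
      have h2 : Real.exp 2 = Real.exp 1 * Real.exp 1 := by rw [← Real.exp_add]; norm_num
      rw [h2]
      nlinarith [Real.exp_one_lt_d9, Real.exp_pos 1]
    have h3 : Real.exp (-2) < 1 := Real.exp_lt_one_iff.mpr (by norm_num)
    rw [hz]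
    linarith
  have hcont : Continuous fun q : ℝ × ℝ => (((q.1 : ℂ), (q.1 : ℂ), (q.2 : ℂ)) : E3) := by fun_prop
  have hpre : (fun q : ℝ × ℝ => (((q.1 : ℂ), (q.1 : ℂ), (q.2 : ℂ)) : E3)) ⁻¹' O ∈
      𝓝 ((0, z) : ℝ × ℝ) := by
    refine hcont.continuousAt.preimage_mem_nhds (hO2.mem_nhds ?_)
    rw [hzc] at hO3
    simpa using hO3
  obtain ⟨ε, hε, hball⟩ := Metric.mem_nhds_iff.mp hpre
  obtain ⟨n, hn⟩ := exists_nat_one_div_lt hε
  obtain ⟨ζ, hζ1, hζ2⟩ := exists_rat_btwn (show z < z + min ε 1 by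
    have := lt_min hε one_pos; linarith)
  set ξ : ℚ := 1 / ((n : ℚ) + 100) with hξ
  have hξ0 : 0 < ξ := by positivity
  have hξ1 : ξ ≤ 1 / 100 := by
    rw [hξ]
    refine one_div_le_one_div_of_le (by norm_num) ?_
    have : (0 : ℚ) ≤ n := Nat.cast_nonneg n
    linarith
  have hξε : (ξ : ℝ) < ε := by
    refine lt_of_le_of_lt ?_ hn
    rw [hξ]
    push_cast
    refine one_div_le_one_div_of_le (by positivity) (by linarith)
  have hζ0 : (0 : ℚ) < ζ := by
    have : (0 : ℝ) < ζ := hz0.trans hζ1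
    exact_mod_cast this
  have hζ6 : ζ < 6 := by
    have : (ζ : ℝ) < 6 := by
      have := min_le_right ε 1
      linarith
    exact_mod_cast this
  have hin : (((ξ : ℂ), (ξ : ℂ), (ζ : ℂ)) : E3) ∈ O := by
    have h1 : (((ξ : ℝ), (ζ : ℝ)) : ℝ × ℝ) ∈ Metric.ball ((0, z) : ℝ × ℝ) ε := by
      rw [Metric.mem_ball, Prod.dist_eq, max_lt_iff]
      constructor
      · have h5 : (0 : ℝ) < (ξ : ℝ) := by exact_mod_cast hξ0
        rw [Real.dist_eq, sub_zero, abs_of_pos h5]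
        exact hξε
      · rw [Real.dist_eq, abs_of_pos (by linarith)]
        have := min_le_left ε 1
        linarith
    have h2 := hball h1
    simpa using h2
  set α : GI 2 → ℚ := fun b => 1 + (chi b ![1, 0] : ℚ) * ξ + (chi b ![0, 1] : ℚ) * ξ +
    (chi b ![1, 1] : ℚ) * (ξ ^ 2 * ζ) with hα
  have hα0 : ∀ b, α b ≠ 0 := by
    have h1 : ξ ^ 2 * ζ ≤ 6 / 10000 := by
      have h2 : ξ ^ 2 ≤ 1 / 10000 := by nlinarith
      nlinarith
    have h3 : 0 < ξ ^ 2 * ζ := by positivity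
    refine op2_all ?_ ?_ ?_ ?_ <;>
    · rw [hα]
      simp only [chi_0', chi_11, chi_12, chi_13, chi_21, chi_22, chi_23, chi_31, chi_32,
        chi_33]
      push_cast
      intro h
      linarith
  set a : GI 2 → ℂ := fun b => (α b : ℂ) with ha
  have F0 : op2F a ![0, 0] = 4 := by
    rw [ha, hα]
    simp only [op2F, op2_sum, chi_0', chi_11, chi_12, chi_13, chi_21, chi_22, chi_23,
      chi_31, chi_32, chi_33]
    push_cast
    ring
  have F1 : op2F a ![1, 0] = 4 * ξ := by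
    rw [ha, hα]
    simp only [op2F, op2_sum, chi_0, chi_0', chi_11, chi_12, chi_13, chi_21, chi_22, chi_23,
      chi_31, chi_32, chi_33]
    push_cast
    ring
  have F2 : op2F a ![0, 1] = 4 * ξ := by
    rw [ha, hα]
    simp only [op2F, op2_sum, chi_0, chi_0', chi_11, chi_12, chi_13, chi_21, chi_22, chi_23,
      chi_31, chi_32, chi_33]
    push_cast
    ring
  have F3 : op2F a ![1, 1] = 4 * (ξ ^ 2 * ζ) := by
    rw [ha, hα]
    simp only [op2F, op2_sum, chi_0, chi_0', chi_11, chi_12, chi_13, chi_21, chi_22, chi_23,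
      chi_31, chi_32, chi_33]
    push_cast
    ring
  have hξc : (ξ : ℂ) ≠ 0 := by exact_mod_cast hξ0.ne'
  have hFc : ∀ c, Continuous fun u : GI 2 → ℂ => op2F u c := by
    intro c
    unfold op2F
    fun_prop
  have n0 : op2F a ![0, 0] ≠ 0 := by rw [F0]; norm_num
  have n1 : op2F a ![1, 0] ≠ 0 := by rw [F1]; exact mul_ne_zero (by norm_num) hξc
  have n2 : op2F a ![0, 1] ≠ 0 := by rw [F2]; exact mul_ne_zero (by norm_num) hξc
  set Ψ : (GI 2 → ℂ) → E3 := fun u => (op2F u ![1, 0] / op2F u ![0, 0],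
    op2F u ![0, 1] / op2F u ![0, 0],
    op2F u ![1, 1] * op2F u ![0, 0] / (op2F u ![1, 0] * op2F u ![0, 1])) with hΨ
  have hΨc : ContinuousAt Ψ a := by
    refine ContinuousAt.prodMk ?_ (ContinuousAt.prodMk ?_ ?_)
    · exact (hFc _).continuousAt.div (hFc _).continuousAt n0
    · exact (hFc _).continuousAt.div (hFc _).continuousAt n0
    · exact ((hFc _).continuousAt.mul (hFc _).continuousAt).div
        ((hFc _).continuousAt.mul (hFc _).continuousAt) (mul_ne_zero n1 n2)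
  have hΨa : Ψ a = ((ξ : ℂ), (ξ : ℂ), (ζ : ℂ)) := by
    rw [hΨ]
    simp only [F0, F1, F2, F3]
    refine Prod.ext ?_ (Prod.ext ?_ ?_)
    · simp
    · simp
    · simp only
      field_simp
  have hev : ∀ᶠ u in 𝓝 a, Ψ u ∈ O ∧ op2F u ![0, 0] ≠ 0 ∧ op2F u ![1, 0] ≠ 0 ∧
      op2F u ![0, 1] ≠ 0 := by
    refine (hΨc.eventually_mem (hO2.mem_nhds ?_)).and (((hFc _).continuousAt.eventually_ne n0).and
      (((hFc _).continuousAt.eventually_ne n1).and ((hFc _).continuousAt.eventually_ne n2)))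
    rw [hΨa]
    exact hin
  obtain ⟨δ, hδ, hδ'⟩ := Metric.eventually_nhds_iff.mp hev
  refine ⟨α, δ / 2, by positivity, hα0, fun u hu => ?_⟩
  have hd : dist u a < δ := by
    rw [dist_pi_lt_iff hδ]
    intro b
    rw [dist_eq_norm]
    exact (hu b).trans_lt (by linarith)
  obtain ⟨h1, m0, m1, m2⟩ := hδ' hd
  obtain ⟨p, hp, hpe⟩ := hO1 h1
  obtain ⟨q1, q2, q3, q4, q5, q6, q7⟩ := hp
  have hfc := op2_fc q5 q6 q7 m0 m1 m2 hpe
  have hx : p.1 ≠ 0 := by
    intro h
    have h2 := congrArg Prod.fst hpe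
    rw [hΨ] at h2
    simp only [op2Phi, h, zero_mul] at h2
    exact div_ne_zero m1 m0 h2.symm
  have hy : p.2.1 ≠ 0 := by
    intro h
    have h2 := congrArg (fun q : E3 => q.2.1) hpe
    rw [hΨ] at h2
    simp only [op2Phi, h, zero_mul] at h2
    exact div_ne_zero m2 m0 h2.symm
  obtain ⟨τ, hτ, hτp⟩ := op2_siegel hρ hx hy q2 q3 q4
  refine ⟨τ, hτ, ?_⟩
  have hth : ∀ b, theta τ b = Pc ![0, 0] p / op2F u ![0, 0] * (4 * u b) := by
    intro b
    rw [theta_two τ hτ.1 (fun c => (hU3 c).1) (by rw [hτp]; exact q1) b, hτp]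
    simp only [hfc]
    rw [← op2_inv u b, Finset.mul_sum]
    refine Finset.sum_congr rfl fun c _ => ?_
    ring
  intro a b
  rw [hth, hth]
  ring

end FreySH
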