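import Pool.Agent.Lib.MP_6babc4_nt.TN.Loc

/-!
# Module Rat: a theta null point with rational coordinates, none of them zero

`τ = diag(i t, .., i t)` with `th1 1 t = (q - 1) / q * th1 0 t`, see `TN.Lob`.
-/

set_option autoImplicit false

namespace FreySH

open FreyTN

/-- There is a theta null point with rational coordinates not zero, for all `g`. -/
theorem rat_point (g : ℕ) {ρ : ℝ} (hρ : 0 < ρ) : ∃ (α : GI g → ℚ) (τ : Matrix (Fin g) (Fin g) ℂ),
    Siegel ρ τ ∧ (∀ b, α b ≠ 0) ∧ ∀ a b, (α a : ℂ) * theta τ b = (α b : ℂ) * theta τ a := by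
  obtain ⟨l₀, -, hl1, hl⟩ := ratio_surj hρ
  obtain ⟨l, hl2, hl3⟩ := exists_rat_btwn (max_lt hl1 (zero_lt_one' ℝ))
  obtain ⟨t, ht, hth⟩ := hl l ((le_max_left _ _).trans hl2.le) hl3
  have hl0 : l ≠ 0 := by
    have h1 : (0 : ℝ) < l := (le_max_right _ _).trans_lt hl2
    have h2 : (0 : ℚ) < l := by exact_mod_cast h1
    exact h2.ne'
  let p : ZMod 2 → ℚ := fun a => if a = 0 then 1 else l
  have hp : ∀ a, th1 a t = p a * th1 0 t := by
    intro a
    rcases (show a = 0 ∨ a = 1 by revert a; decide) with rfl | rfl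
    · simp [p]
    · rw [hth]
      simp [p]
  have hT : ∀ b : GI g, theta (Matrix.diagonal fun _ => Complex.I * (t : ℂ)) b =
      ((∏ i, p (b i) : ℚ) : ℂ) * ((th1 0 t ^ g : ℝ) : ℂ) := by
    intro b
    rw [theta_diag (fun _ => t) (fun _ => hρ.trans_le ht) b]
    have h1 : ∏ i, (th1 (b i) t : ℂ) = ∏ i, ((p (b i) : ℂ) * (th1 0 t : ℂ)) := by
      refine Finset.prod_congr rfl fun i _ => ?_
      rw [hp]
      push_cast
      rfl
    rw [h1, Finset.prod_mul_distrib]
    simp
  refine ⟨fun b => ∏ i, p (b i), Matrix.diagonal fun _ => Complex.I * (t : ℂ),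
    siegel_diag hρ (fun _ => t) fun _ => ht, fun b => ?_, fun a b => ?_⟩
  · refine Finset.prod_ne_zero_iff.2 fun i _ => ?_
    simp only [p]
    split_ifs
    · exact one_ne_zero
    · exact hl0
  · rw [hT, hT]
    ring

end FreySH
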