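import Pool.Agent.Lib.MP_6babc4_nt.SH.Defs
import Pool.Agent.Lib.MP_6babc4_nt.Sp.IdK
import Pool.Agent.Lib.MP_6babc4_nt.AvgCount

/-!
# Module Vec: the number of points of projective space over `K` near a given rational point

PROOF. Let `a = A α ∈ ℤ^ι` and `x = m a + β`, all conjugates of the `β i` at most `η₁ m`, `m ~ c H` a natural number. There are `b^N` such vectors, `b = #Box(η₁ m) ≥ c H^d`,
`N = card ι`. Pairs `(x, y)` of proportional vectors: `x i₁ y i₀ = x i₀ y i₁`; the pair is determined by the vector `update x i₁ (y i₁)` and by the divisor `x i₁` of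
`x i₀ y i₁`; there are at most `C H^ε` divisors with conjugates in `[m / 2, B m]` (`ideal_count`, the divisor bound, and finitely many units with conjugates at most `2 B`).
So there are at most `b^N C H^ε` pairs, and by Cauchy-Schwarz at least `b^N / (C H^ε)` classes.
-/

set_option autoImplicit false

open NumberField IsDedekindDomain Module

namespace FreySH

open FreyTN FreyCyc FreySparse FreyAvg

private lemma vec_local_factor {η : ℝ} (hη : 0 < η) (a : ℕ) :
    ((a : ℝ) + 1) ≤ max 1 (1 / (η * Real.log 2)) * ((2 : ℝ) ^ η) ^ a := by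
  have hlog : 0 < Real.log 2 := Real.log_pos (by norm_num)
  have h1 : 1 + (a : ℝ) * (η * Real.log 2) ≤ ((2 : ℝ) ^ η) ^ a := by
    have h2 : ((2 : ℝ) ^ η) ^ a = Real.exp ((a : ℝ) * (η * Real.log 2)) := by
      rw [Real.rpow_def_of_pos (by norm_num), ← Real.exp_nat_mul]
      congr 1; ring
    rw [h2]
    have := Real.add_one_le_exp ((a : ℝ) * (η * Real.log 2))
    linarith
  have hM1 : (1 : ℝ) ≤ max 1 (1 / (η * Real.log 2)) := le_max_left _ _
  have hM2 : 1 / (η * Real.log 2) ≤ max 1 (1 / (η * Real.log 2)) := le_max_right _ _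
  set M := max 1 (1 / (η * Real.log 2))
  have h3 : 1 ≤ M * (η * Real.log 2) := by
    rw [div_le_iff₀ (by positivity)] at hM2; exact hM2
  have ha : (0 : ℝ) ≤ a := Nat.cast_nonneg a
  calc (a : ℝ) + 1 ≤ M * (1 + (a : ℝ) * (η * Real.log 2)) := by
        nlinarith
    _ ≤ _ := by gcongr

private lemma vec_divisors {η : ℝ} (hη : 0 < η) :
    ∃ C : ℝ, 1 ≤ C ∧ ∀ n : ℕ, n ≠ 0 → (n.divisors.card : ℝ) ≤ C * (n : ℝ) ^ η := by
  set M := max 1 (1 / (η * Real.log 2)) with hM
  have hM1 : (1 : ℝ) ≤ M := le_max_left _ _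
  set P0 : ℕ := ⌈(2 : ℝ) ^ (1 / η)⌉₊ with hP0
  refine ⟨M ^ (P0 + 1), one_le_pow₀ hM1, fun n hn => ?_⟩
  have e1 : (n : ℝ) ^ η = ∏ p ∈ n.primeFactors, ((p : ℝ) ^ η) ^ (n.factorization p) := by
    have h1 : (n : ℝ) = ∏ p ∈ n.primeFactors, (p : ℝ) ^ (n.factorization p) := by
      have := Nat.prod_factorization_pow_eq_self hn
      conv_lhs => rw [← this]
      rw [Finsupp.prod, Nat.support_factorization]
      push_cast; rfl
    conv_lhs => rw [h1]
    rw [← Real.finsetProd_rpow _ _ (fun p _ => by positivity)]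
    refine Finset.prod_congr rfl fun p _ => ?_
    rw [← Real.rpow_natCast, ← Real.rpow_natCast, ← Real.rpow_mul (by positivity),
      ← Real.rpow_mul (by positivity), mul_comm]
  have e2 : (n.divisors.card : ℝ) = ∏ p ∈ n.primeFactors, ((n.factorization p : ℝ) + 1) := by
    rw [Nat.card_divisors hn]; push_cast; rfl
  have hle : ∀ p ∈ n.primeFactors, ((n.factorization p : ℝ) + 1) ≤
      (if p ∈ Finset.range (P0 + 1) then M else 1) * ((p : ℝ) ^ η) ^ (n.factorization p) := by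
    intro p hp
    have hpp := Nat.prime_of_mem_primeFactors hp
    have hp2 : (2 : ℝ) ≤ p := by exact_mod_cast hpp.two_le
    by_cases hpr : p ∈ Finset.range (P0 + 1)
    · rw [if_pos hpr]
      refine (vec_local_factor hη _).trans ?_
      gcongr
    · rw [if_neg hpr, one_mul]
      have hpP : (2 : ℝ) ^ (1 / η) ≤ p := by
        have h1 : P0 + 1 ≤ p := by
          by_contra h; exact hpr (Finset.mem_range.2 (by omega))
        calc (2 : ℝ) ^ (1 / η) ≤ P0 := Nat.le_ceil _
          _ ≤ p := by exact_mod_cast (by omega : P0 ≤ p)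
      have h2 : (2 : ℝ) ≤ (p : ℝ) ^ η := by
        calc (2 : ℝ) = ((2 : ℝ) ^ (1 / η)) ^ η := by
              rw [← Real.rpow_mul (by norm_num), one_div_mul_cancel hη.ne', Real.rpow_one]
          _ ≤ _ := by gcongr
      calc ((n.factorization p : ℝ) + 1) ≤ (2 : ℝ) ^ (n.factorization p) := by
            have : n.factorization p + 1 ≤ 2 ^ (n.factorization p) := Nat.lt_two_pow_self
            exact_mod_cast this
        _ ≤ _ := by gcongr
  rw [e1, e2]
  refine (Finset.prod_le_prod (fun p _ => by positivity) hle).trans ?_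
  rw [Finset.prod_mul_distrib]
  refine mul_le_mul_of_nonneg_right ?_ (Finset.prod_nonneg fun p _ => by positivity)
  rw [Finset.prod_ite, Finset.prod_const, Finset.prod_const_one, mul_one]
  refine pow_le_pow_right₀ hM1 ?_
  calc (n.primeFactors.filter fun x => x ∈ Finset.range (P0 + 1)).card
      ≤ (Finset.range (P0 + 1)).card :=
        Finset.card_le_card fun x hx => (Finset.mem_filter.1 hx).2
    _ = P0 + 1 := Finset.card_range _


/-- The number of ideals dividing a principal ideal. -/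
private lemma vec_ideals (K : Type) [Field K] [NumberField K] {ε : ℝ} (hε : 0 < ε) :
    ∃ C : ℝ, 1 ≤ C ∧ ∀ P : 𝓞 K, P ≠ 0 → ∀ S : Finset (Ideal (𝓞 K)),
      (∀ I ∈ S, I ∣ Ideal.span {P}) →
        (S.card : ℝ) ≤ C * ((Ideal.absNorm (Ideal.span {P}) : ℕ) : ℝ) ^ ε := by
  classical
  obtain ⟨C₁, hC₁, h₁⟩ := vec_divisors (half_pos hε)
  obtain ⟨C₂, hC₂, h₂⟩ := ideal_count (finrank ℚ K) (half_pos hε)
  refine ⟨C₁ * C₂, by nlinarith, fun P hP S hS => ?_⟩
  set n := Ideal.absNorm (Ideal.span {P}) with hn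
  have hn0 : n ≠ 0 := by
    rw [hn, Ne, Ideal.absNorm_eq_zero_iff, Ideal.span_singleton_eq_bot]
    exact hP
  have hmaps : ∀ I ∈ S, Ideal.absNorm I ∈ n.divisors := by
    intro I hI
    rw [Nat.mem_divisors]
    exact ⟨map_dvd _ (hS I hI), hn0⟩
  rw [Finset.card_eq_sum_card_fiberwise hmaps]
  push_cast
  have hn1 : (1 : ℝ) ≤ (n : ℝ) := by exact_mod_cast Nat.one_le_iff_ne_zero.mpr hn0
  have hterm : ∀ k ∈ n.divisors, ((S.filter fun I => Ideal.absNorm I = k).card : ℝ) ≤
      C₂ * (n : ℝ) ^ (ε / 2) := by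
    intro k hk
    rw [Nat.mem_divisors] at hk
    have hk1 : 1 ≤ k := Nat.pos_of_dvd_of_pos hk.1 (by omega)
    have hkn : k ≤ n := Nat.le_of_dvd (by omega) hk.1
    obtain ⟨hfin, hcard⟩ := h₂ K le_rfl k hk1
    have h3 : (S.filter fun I => Ideal.absNorm I = k).card ≤
        {I : Ideal (𝓞 K) | Ideal.absNorm I = k}.ncard := by
      rw [← Set.ncard_coe_finset]
      refine Set.ncard_le_ncard ?_ hfin
      intro I hI
      rw [Finset.mem_coe, Finset.mem_filter] at hI
      exact hI.2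
    calc ((S.filter fun I => Ideal.absNorm I = k).card : ℝ) ≤ _ := by exact_mod_cast h3
      _ ≤ C₂ * (k : ℝ) ^ (ε / 2) := hcard
      _ ≤ C₂ * (n : ℝ) ^ (ε / 2) := by
          have : (k : ℝ) ≤ n := by exact_mod_cast hkn
          gcongr
  refine (Finset.sum_le_sum hterm).trans ?_
  rw [Finset.sum_const, nsmul_eq_mul]
  have h4 := h₁ n hn0
  calc (n.divisors.card : ℝ) * (C₂ * (n : ℝ) ^ (ε / 2)) ≤
        (C₁ * (n : ℝ) ^ (ε / 2)) * (C₂ * (n : ℝ) ^ (ε / 2)) := by gcongr
    _ = C₁ * C₂ * ((n : ℝ) ^ (ε / 2) * (n : ℝ) ^ (ε / 2)) := by ring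
    _ = C₁ * C₂ * (n : ℝ) ^ ε := by
        rw [← Real.rpow_add (by linarith)]
        congr 2
        ring

/-- The number of divisors all of whose conjugates are in `[m / 2, B m]`. -/
private lemma vec_div (K : Type) [Field K] [NumberField K] (B : ℝ) (hB : 1 ≤ B) {ε : ℝ}
    (hε : 0 < ε) : ∃ C : ℝ, 1 ≤ C ∧ ∀ m : ℝ, 1 ≤ m → ∀ P : 𝓞 K, P ≠ 0 →
      P ∈ Box K ((B * m) ^ 2) → ∀ Z : Finset (𝓞 K),
        (∀ z ∈ Z, z ∣ P ∧ ∀ σ : K →+* ℂ, m / 2 ≤ ‖σ (algebraMap (𝓞 K) K z)‖ ∧
          ‖σ (algebraMap (𝓞 K) K z)‖ ≤ B * m) →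
        (Z.card : ℝ) ≤ C * (B * m) ^ ε := by
  classical
  set d := finrank ℚ K with hd
  have hd0 : (0 : ℝ) < d := by exact_mod_cast finrank_pos
  obtain ⟨C, hC, h⟩ := vec_ideals K (ε := ε / (2 * d)) (by positivity)
  refine ⟨((Box K (2 * B)).ncard + 1) * C, by nlinarith [Nat.cast_nonneg (α := ℝ) (Box K (2 * B)).ncard],
    fun m hm P hP hPB Z hZ => ?_⟩
  have hm0 : 0 < m := by linarith
  have hfib : ∀ I ∈ Z.image fun z => Ideal.span {z}, (Z.filter fun z => Ideal.span {z} = I).card ≤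
      (Box K (2 * B)).ncard := by
    intro I hI
    obtain ⟨z₀, hz₀, rfl⟩ := Finset.mem_image.mp hI
    have hz0 : z₀ ≠ 0 := by
      rintro rfl
      exact hP (zero_dvd_iff.mp (hZ 0 hz₀).1)
    have hex : ∀ z : 𝓞 K, ∃ u : 𝓞 K, Ideal.span {z} = Ideal.span {z₀} → z = z₀ * u := by
      intro z
      by_cases hz : Ideal.span {z} = Ideal.span {z₀}
      · rw [Ideal.span_singleton_eq_span_singleton] at hz
        obtain ⟨u, hu⟩ := hz.symm
        exact ⟨u, fun _ => hu.symm⟩
      · exact ⟨0, fun h => absurd h hz⟩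
    choose u hu using hex
    rw [← Set.ncard_coe_finset]
    refine Set.ncard_le_ncard_of_injOn u ?_ ?_ (box_finite _)
    · intro z hz σ
      rw [Finset.mem_coe, Finset.mem_filter] at hz
      have h1 := hu z hz.2
      have h2 := (hZ z hz.1).2 σ
      have h3 := (hZ z₀ hz₀).2 σ
      have h4 : ‖σ (algebraMap (𝓞 K) K z)‖ =
          ‖σ (algebraMap (𝓞 K) K z₀)‖ * ‖σ (algebraMap (𝓞 K) K (u z))‖ := by
        conv_lhs => rw [h1]
        rw [map_mul, map_mul, norm_mul]
      have h5 : m / 2 * ‖σ (algebraMap (𝓞 K) K (u z))‖ ≤ B * m := by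
        calc m / 2 * ‖σ (algebraMap (𝓞 K) K (u z))‖ ≤
              ‖σ (algebraMap (𝓞 K) K z₀)‖ * ‖σ (algebraMap (𝓞 K) K (u z))‖ := by
              gcongr
              exact h3.1
          _ ≤ B * m := by rw [← h4]; exact h2.2
      have h6 : m * ‖σ (algebraMap (𝓞 K) K (u z))‖ ≤ m * (2 * B) := by linarith
      exact le_of_mul_le_mul_left h6 hm0
    · intro z hz z' hz' hzz
      rw [Finset.mem_coe, Finset.mem_filter] at hz hz'
      rw [hu z hz.2, hu z' hz'.2, hzz]
  have h1 := Finset.card_le_mul_card_image (f := fun z => Ideal.span {z}) Z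
    (Box K (2 * B)).ncard hfib
  have h2 := h P hP (Z.image fun z => Ideal.span {z}) (by
    intro I hI
    obtain ⟨z, hz, rfl⟩ := Finset.mem_image.mp hI
    rw [Ideal.dvd_span_singleton]
    exact Ideal.mem_span_singleton.mpr (hZ z hz).1)
  have h3 : ((Ideal.absNorm (Ideal.span {P}) : ℕ) : ℝ) ^ (ε / (2 * d)) ≤ (B * m) ^ ε := by
    have h4 := absNorm_le_of_box hPB
    have hBm : 0 ≤ B * m := by positivity
    calc ((Ideal.absNorm (Ideal.span {P}) : ℕ) : ℝ) ^ (ε / (2 * d)) ≤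
          (((B * m) ^ 2) ^ d) ^ (ε / (2 * d)) := by gcongr
      _ = (B * m) ^ ε := by
          rw [← pow_mul, ← Real.rpow_natCast, ← Real.rpow_mul hBm]
          congr 1
          push_cast
          field_simp
  calc (Z.card : ℝ) ≤ (Box K (2 * B)).ncard * ((Z.image fun z => Ideal.span {z}).card : ℝ) := by
        exact_mod_cast h1
    _ ≤ ((Box K (2 * B)).ncard + 1) * (C * (B * m) ^ ε) := by
        have hBm : 0 ≤ B * m := by positivity
        have h5 : 0 ≤ (B * m) ^ ε := by positivity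
        refine mul_le_mul (by linarith) (h2.trans ?_) (by positivity) (by positivity)
        gcongr
    _ = _ := by ring

/-- The number of pairs of proportional vectors. -/
private lemma vec_pairs {R : Type*} [CommRing R] [IsDomain R] [DecidableEq R] {ι : Type*}
    [Fintype ι] [DecidableEq ι] (W : ι → Finset R) (hW : ∀ i, ∀ w ∈ W i, w ≠ 0) {i₀ i₁ : ι}
    (hi : i₀ ≠ i₁) (D : ℕ)
    (hD : ∀ w₀ ∈ W i₀, ∀ w₁ ∈ W i₁, ∀ Z ⊆ W i₁, (∀ z ∈ Z, z ∣ w₀ * w₁) → Z.card ≤ D) :
    (((Fintype.piFinset W) ×ˢ (Fintype.piFinset W)).filter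
      fun p => ∀ i j, p.1 i * p.2 j = p.1 j * p.2 i).card ≤ D * (Fintype.piFinset W).card := by
  classical
  refine Finset.card_le_mul_card_image_of_maps_to
    (f := fun p : (ι → R) × (ι → R) => Function.update p.1 i₁ (p.2 i₁)) ?_ D ?_
  · intro p hp
    rw [Finset.mem_filter, Finset.mem_product, Fintype.mem_piFinset, Fintype.mem_piFinset] at hp
    rw [Fintype.mem_piFinset]
    intro i
    by_cases h : i = i₁
    · subst h
      rw [Function.update_self]
      exact hp.1.2 i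
    · rw [Function.update_of_ne h]
      exact hp.1.1 i
  · intro v hv
    rw [Fintype.mem_piFinset] at hv
    refine le_trans ?_ (hD (v i₀) (hv i₀) (v i₁) (hv i₁) ((W i₁).filter fun z => z ∣ v i₀ * v i₁)
      (Finset.filter_subset _ _) fun z hz => (Finset.mem_filter.mp hz).2)
    refine Finset.card_le_card_of_injOn (fun p => p.1 i₁) ?_ ?_
    · intro p hp
      rw [Finset.mem_coe, Finset.mem_filter, Finset.mem_filter, Finset.mem_product,
        Fintype.mem_piFinset, Fintype.mem_piFinset] at hp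
      obtain ⟨⟨⟨hp1, hp2⟩, hp3⟩, hp4⟩ := hp
      rw [Finset.mem_coe, Finset.mem_filter]
      refine ⟨hp1 i₁, p.2 i₀, ?_⟩
      rw [← hp4, Function.update_self, Function.update_of_ne hi]
      exact hp3 i₀ i₁
    · intro p hp q hq hpq
      rw [Finset.mem_coe, Finset.mem_filter, Finset.mem_filter, Finset.mem_product,
        Fintype.mem_piFinset, Fintype.mem_piFinset] at hp hq
      obtain ⟨⟨⟨hp1, hp2⟩, hp3⟩, hp4⟩ := hp
      obtain ⟨⟨⟨hq1, hq2⟩, hq3⟩, hq4⟩ := hq
      have hx : p.1 = q.1 := by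
        funext i
        by_cases h : i = i₁
        · rw [h]; exact hpq
        · have h1 := congrFun hp4 i
          have h2 := congrFun hq4 i
          simp only [Function.update_of_ne h] at h1 h2
          rw [h1, h2]
      have hy1 : p.2 i₁ = q.2 i₁ := by
        have h1 := congrFun hp4 i₁
        have h2 := congrFun hq4 i₁
        simp only [Function.update_self] at h1 h2
        rw [h1, h2]
      have hy : p.2 = q.2 := by
        funext j
        have h1 := hp3 i₁ j
        have h2 := hq3 i₁ j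
        have h3 : q.1 i₁ * p.2 j = q.1 i₁ * q.2 j := by
          rw [h2, ← hy1, ← hx]
          exact h1
        exact mul_left_cancel₀ (hW i₁ _ (hq1 i₁)) h3
      exact Prod.ext hx hy

/-- Cauchy-Schwarz: the number of classes. -/
private lemma vec_classes {A B : Type*} [DecidableEq B] (V : Finset A) (f : A → B) :
    V.card ^ 2 ≤ (V.image f).card * ((V ×ˢ V).filter fun p => f p.1 = f p.2).card := by
  classical
  have h1 : V.card = ∑ b ∈ V.image f, (V.filter fun a => f a = b).card :=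
    Finset.card_eq_sum_card_fiberwise fun a ha => Finset.mem_image_of_mem f ha
  have h2 : ((V ×ˢ V).filter fun p => f p.1 = f p.2).card =
      ∑ b ∈ V.image f, (V.filter fun a => f a = b).card ^ 2 := by
    rw [Finset.card_eq_sum_card_fiberwise (f := fun p : A × A => f p.1) (t := V.image f)]
    · refine Finset.sum_congr rfl fun b _ => ?_
      rw [_root_.sq, ← Finset.card_product]
      congr 1
      ext p
      simp only [Finset.mem_filter, Finset.mem_product]
      constructor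
      · rintro ⟨⟨⟨h1, h2⟩, h3⟩, h4⟩
        exact ⟨⟨h1, h4⟩, h2, h3 ▸ h4⟩
      · rintro ⟨⟨h1, h4⟩, h2, h3⟩
        exact ⟨⟨⟨h1, h2⟩, h4.trans h3.symm⟩, h4⟩
    · intro p hp
      rw [Finset.mem_coe, Finset.mem_filter, Finset.mem_product] at hp
      exact Finset.mem_image_of_mem f hp.1.1
  rw [h2]
  conv_lhs => rw [h1]
  exact sq_sum_le_card_mul_sum_sq

private lemma vec_height {K : Type*} [Field K] [NumberField K] {ι : Type*} [Fintype ι]
    (w : ι → 𝓞 K) (hw : (fun b => algebraMap (𝓞 K) K (w b)) ≠ 0) {X : ℝ} (hX : 1 ≤ X)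
    (hwX : ∀ b, w b ∈ Box K X) :
    Height.mulHeight (fun b => algebraMap (𝓞 K) K (w b)) ≤ X ^ finrank ℚ K := by
  classical
  have hne : Nonempty ι := by
    by_contra h
    rw [not_nonempty_iff] at h
    exact hw (Subsingleton.elim _ _)
  rw [NumberField.mulHeight_eq hw]
  have hinf : ∏ v : InfinitePlace K, (⨆ i, v (algebraMap (𝓞 K) K (w i))) ^ v.mult ≤
      X ^ finrank ℚ K := by
    rw [← InfinitePlace.sum_mult_eq, ← Finset.prod_pow_eq_pow_sum]
    refine Finset.prod_le_prod (fun v _ => ?_) fun v _ => ?_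
    · refine pow_nonneg (Real.iSup_nonneg fun i => ?_) _
      exact AbsoluteValue.nonneg _ _
    · refine pow_le_pow_left₀ (Real.iSup_nonneg fun i => AbsoluteValue.nonneg _ _) ?_ _
      refine ciSup_le fun i => ?_
      show v (algebraMap (𝓞 K) K (w i)) ≤ X
      rw [← InfinitePlace.norm_embedding_eq]
      exact hwX i _
  have hfin : 0 ≤ (∏ᶠ v : FinitePlace K, ⨆ i, v (algebraMap (𝓞 K) K (w i))) ∧
      (∏ᶠ v : FinitePlace K, ⨆ i, v (algebraMap (𝓞 K) K (w i))) ≤ 1 := by
    refine finprod_induction (fun x : ℝ => 0 ≤ x ∧ x ≤ 1) ⟨zero_le_one, le_refl _⟩ ?_ ?_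
    · rintro x y ⟨hx0, hx1⟩ ⟨hy0, hy1⟩
      exact ⟨mul_nonneg hx0 hy0, mul_le_one₀ hx1 hy0 hy1⟩
    · intro v
      refine ⟨Real.iSup_nonneg fun i => AbsoluteValue.nonneg _ _, ciSup_le fun i => ?_⟩
      have h1 := FinitePlace.norm_le_one K v.maximalIdeal (w i)
      have h2 := FinitePlace.norm_embedding_eq v (algebraMap (𝓞 K) K (w i))
      rw [← h2]
      exact h1
  calc _ ≤ X ^ finrank ℚ K * 1 := mul_le_mul hinf hfin.2 hfin.1 (by positivity)
    _ = X ^ finrank ℚ K := mul_one _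

theorem many_vecs (K : IntermediateField ℚ ℂ) [NumberField K] {ι : Type} [Fintype ι]
    (hι : 2 ≤ Fintype.card ι) (α : ι → ℚ) (hα : ∀ i, α i ≠ 0) {η ε : ℝ} (hη : 0 < η)
    (hε : 0 < ε) : ∃ c H₀ : ℝ, 0 < c ∧ ∀ H : ℝ, H₀ ≤ H → ∃ S : Finset (ι → K),
      c * H ^ ((Fintype.card ι * finrank ℚ K : ℕ) - ε) ≤ S.card ∧
      (∀ x ∈ S, ∀ y ∈ S, x ≠ y → ∃ i j, x i * y j ≠ x j * y i) ∧
      ∀ x ∈ S, x ≠ 0 ∧ Height.logHeight x / finrank ℚ K ≤ Real.log H ∧
        ∃ m : ℝ, 0 < m ∧ ∀ i, ‖(x i : ℂ) - m * (α i : ℂ)‖ ≤ η * m := by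
  classical
  obtain ⟨i₀, i₁, hi⟩ : ∃ i₀ i₁ : ι, i₀ ≠ i₁ := Fintype.exists_pair_of_one_lt_card hι
  -- the denominators
  set A : ℕ := ∏ i, (α i).den with hA
  have hA1 : 1 ≤ A := Nat.one_le_iff_ne_zero.mpr
    (Finset.prod_ne_zero_iff.mpr fun i _ => (α i).den_nz)
  have ha : ∀ i, ∃ a : ℤ, (a : ℚ) = A * α i := by
    intro i
    obtain ⟨k, hk⟩ := Finset.dvd_prod_of_mem (fun i => (α i).den) (Finset.mem_univ i)
    refine ⟨k * (α i).num, ?_⟩
    have h1 : (A : ℚ) = (α i).den * k := by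
      rw [hA]
      exact_mod_cast hk
    have h2 : ((α i).num : ℚ) = α i * (α i).den := (Rat.mul_den_eq_num (α i)).symm
    rw [h1]
    push_cast
    rw [h2]
    ring
  choose a ha using ha
  have ha0 : ∀ i, a i ≠ 0 := by
    intro i h
    have h1 := ha i
    rw [h, Int.cast_zero] at h1
    have h2 : (A : ℚ) ≠ 0 := by exact_mod_cast (by omega : A ≠ 0)
    exact (mul_ne_zero h2 (hα i)) h1.symm
  have ha1 : ∀ i, (1 : ℝ) ≤ |(a i : ℝ)| := by
    intro i
    have := Int.one_le_abs (ha0 i)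
    exact_mod_cast this
  set B : ℝ := ∑ i, |(a i : ℝ)| + 1 with hBdef
  have hB : ∀ i, |(a i : ℝ)| + 1 ≤ B := by
    intro i
    rw [hBdef]
    have : |(a i : ℝ)| ≤ ∑ i, |(a i : ℝ)| :=
      Finset.single_le_sum (f := fun i => |(a i : ℝ)|) (fun i _ => abs_nonneg _)
        (Finset.mem_univ i)
    linarith
  have hB1 : 1 ≤ B := by linarith [hB i₀, abs_nonneg (a i₀ : ℝ)]
  have hB0 : 0 < B := by linarith
  set η₁ : ℝ := min (1 / 2) η with hη₁
  have hη₁0 : 0 < η₁ := lt_min (by norm_num) hη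
  have hη₁1 : η₁ ≤ 1 / 2 := min_le_left _ _
  have hη₁2 : η₁ ≤ η := min_le_right _ _
  set d := finrank ℚ K with hd
  have hd0 : (0 : ℝ) < d := by exact_mod_cast finrank_pos
  set N := Fintype.card ι with hN
  obtain ⟨c₁, hc₁, hbox⟩ := box_card_ge (K := K)
  obtain ⟨C, hC, hdiv⟩ := vec_div K B hB1 hε
  have hC0 : 0 < C := by linarith
  refine ⟨(c₁ * (η₁ / (2 * B)) ^ d) ^ N / C, 2 * B / η₁, by positivity, fun H hH => ?_⟩
  have hH1 : 4 * B ≤ H := by
    refine le_trans ?_ hH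
    rw [le_div_iff₀ hη₁0]
    nlinarith
  have hH0 : 0 < H := by linarith
  set m : ℕ := ⌊H / B⌋₊ with hm
  have hm1 : H / (2 * B) ≤ m := by
    have h1 : H / B < (m : ℝ) + 1 := Nat.lt_floor_add_one _
    have h2 : 1 ≤ H / (2 * B) := by
      rw [le_div_iff₀ (by positivity)]
      linarith
    have h3 : H / B = H / (2 * B) + H / (2 * B) := by
      field_simp
      ring
    linarith
  have hm2 : B * m ≤ H := by
    have h1 : (m : ℝ) ≤ H / B := Nat.floor_le (by positivity)
    rw [le_div_iff₀ hB0] at h1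
    linarith
  have hm3 : (1 : ℝ) ≤ m := by
    refine le_trans ?_ hm1
    rw [le_div_iff₀ (by positivity)]
    linarith
  have hm0 : (0 : ℝ) < m := by linarith
  set X : ℝ := η₁ * m with hX
  have hXm : X ≤ m / 2 := by
    rw [hX]
    nlinarith
  have hX0 : η₁ / (2 * B) * H ≤ X := by
    rw [hX]
    calc η₁ / (2 * B) * H = η₁ * (H / (2 * B)) := by ring
      _ ≤ η₁ * m := by gcongr
  have hX1 : 1 ≤ X := by
    refine le_trans ?_ hX0
    rw [div_le_iff₀ hη₁0] at hH
    rw [div_mul_eq_mul_div, le_div_iff₀ (by positivity)]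
    linarith
  set Bx : Finset (𝓞 K) := (box_finite (K := K) X).toFinset with hBx
  have hBxcard : c₁ * X ^ d ≤ Bx.card := by
    have h1 := hbox X hX1
    rwa [Set.ncard_eq_toFinset_card _ (box_finite X)] at h1
  set W : ι → Finset (𝓞 K) := fun i => Bx.image fun β => ((m * a i : ℤ) : 𝓞 K) + β with hW
  have hWcard : ∀ i, (W i).card = Bx.card := fun i =>
    Finset.card_image_of_injective _ (add_right_injective _)
  have hWmem : ∀ i, ∀ w ∈ W i, ∃ β ∈ Box K X, w = ((m * a i : ℤ) : 𝓞 K) + β := by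
    intro i w hw
    obtain ⟨β, hβ, rfl⟩ := Finset.mem_image.mp hw
    exact ⟨β, by rwa [hBx, Set.Finite.mem_toFinset] at hβ, rfl⟩
  have hWconj : ∀ i, ∀ w ∈ W i, ∀ σ : K →+* ℂ, (m : ℝ) / 2 ≤ ‖σ (algebraMap (𝓞 K) K w)‖ ∧
      ‖σ (algebraMap (𝓞 K) K w)‖ ≤ B * m := by
    intro i w hw σ
    obtain ⟨β, hβ, rfl⟩ := hWmem i w hw
    have h1 : σ (algebraMap (𝓞 K) K (((m * a i : ℤ) : 𝓞 K) + β)) =
        ((m * a i : ℤ) : ℂ) + σ (algebraMap (𝓞 K) K β) := by
      rw [map_add, map_add, map_intCast, map_intCast]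
    have h2 : ‖((m * a i : ℤ) : ℂ)‖ = m * |(a i : ℝ)| := by
      rw [Complex.norm_intCast]
      push_cast
      rw [abs_mul, abs_of_nonneg hm0.le]
    have h3 := hβ σ
    rw [h1]
    constructor
    · have h4 := norm_sub_le_norm_add ((m * a i : ℤ) : ℂ) (σ (algebraMap (𝓞 K) K β))
      rw [h2] at h4
      nlinarith [ha1 i]
    · refine (norm_add_le _ _).trans ?_
      rw [h2]
      nlinarith [hB i]
  have hW0 : ∀ i, ∀ w ∈ W i, w ≠ 0 := by
    rintro i w hw rfl
    have h1 := (hWconj i 0 hw (algebraMap K ℂ)).1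
    rw [map_zero, map_zero, norm_zero] at h1
    linarith
  set V := Fintype.piFinset W with hV
  have hVcard : V.card = Bx.card ^ N := by
    rw [hV, Fintype.card_piFinset]
    simp_rw [hWcard]
    rw [Finset.prod_const, Finset.card_univ]
  have hBxpos : 0 < Bx.card := by
    have h1 : (0 : ℝ) < c₁ * X ^ d := by positivity
    have h2 : (0 : ℝ) < Bx.card := h1.trans_le hBxcard
    exact_mod_cast h2
  have hVpos : 0 < V.card := by
    rw [hVcard]
    positivity
  have hVmem : ∀ x ∈ V, ∀ i, x i ∈ W i := fun x hx => Fintype.mem_piFinset.mp hx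
  set D : ℕ := ⌊C * (B * m) ^ ε⌋₊ with hD
  have hpairs := vec_pairs W hW0 hi D (by
    intro w₀ hw₀ w₁ hw₁ Z hZ hZd
    refine Nat.le_floor (hdiv m hm3 (w₀ * w₁) (mul_ne_zero (hW0 _ _ hw₀) (hW0 _ _ hw₁)) ?_ Z ?_)
    · intro σ
      rw [map_mul, map_mul, norm_mul, _root_.sq]
      exact mul_le_mul (hWconj _ _ hw₀ σ).2 (hWconj _ _ hw₁ σ).2 (norm_nonneg _) (by positivity)
    · exact fun z hz => ⟨hZd z hz, fun σ => hWconj _ _ (hZ hz) σ⟩)
  set f : (ι → 𝓞 K) → (ι → K) := fun x i => algebraMap (𝓞 K) K (x i) / algebraMap (𝓞 K) K (x i₀)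
    with hf
  have hne : ∀ x ∈ V, ∀ i, algebraMap (𝓞 K) K (x i) ≠ 0 := by
    intro x hx i h
    exact hW0 i _ (hVmem x hx i)
      ((FaithfulSMul.algebraMap_injective (𝓞 K) K) (by rw [h, map_zero]))
  have hprop : ∀ x ∈ V, ∀ y ∈ V, (f x = f y ↔ ∀ i, algebraMap (𝓞 K) K (x i) *
      algebraMap (𝓞 K) K (y i₀) = algebraMap (𝓞 K) K (x i₀) * algebraMap (𝓞 K) K (y i)) := by
    intro x hx y hy
    rw [funext_iff]
    refine forall_congr' fun i => ?_
    simp only [hf]
    rw [div_eq_div_iff (hne x hx i₀) (hne y hy i₀), mul_comm (algebraMap (𝓞 K) K (y i))]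
  have hsub : (V ×ˢ V).filter (fun p => f p.1 = f p.2) ⊆
      (V ×ˢ V).filter fun p => ∀ i j, p.1 i * p.2 j = p.1 j * p.2 i := by
    intro p hp
    rw [Finset.mem_filter, Finset.mem_product] at hp ⊢
    refine ⟨hp.1, fun i j => ?_⟩
    have h1 := (hprop _ hp.1.1 _ hp.1.2).mp hp.2
    have h2 := h1 i
    have h3 := h1 j
    have h4 := hne _ hp.1.1 i₀
    have h5 := hne _ hp.1.2 i₀
    apply FaithfulSMul.algebraMap_injective (𝓞 K) K
    rw [map_mul, map_mul]
    refine mul_right_cancel₀ h5 (mul_left_cancel₀ h4 ?_)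
    linear_combination (algebraMap (𝓞 K) K (p.1 i₀) * algebraMap (𝓞 K) K (p.2 j)) * h2 -
      (algebraMap (𝓞 K) K (p.1 i₀) * algebraMap (𝓞 K) K (p.2 i)) * h3
  have hcs := vec_classes V f
  have hmain : V.card ≤ (V.image f).card * D := by
    have h1 : V.card ^ 2 ≤ (V.image f).card * (D * V.card) :=
      hcs.trans (Nat.mul_le_mul_left _ ((Finset.card_le_card hsub).trans hpairs))
    have h2 : V.card * V.card ≤ ((V.image f).card * D) * V.card := by
      calc V.card * V.card = V.card ^ 2 := by ring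
        _ ≤ _ := h1
        _ = _ := by ring
    exact Nat.le_of_mul_le_mul_right h2 hVpos
  have hrep : ∀ b : ι → K, ∃ x : ι → 𝓞 K, b ∈ V.image f → x ∈ V ∧ f x = b := by
    intro b
    by_cases hb : b ∈ V.image f
    · obtain ⟨x, hx, hxb⟩ := Finset.mem_image.mp hb
      exact ⟨x, fun _ => ⟨hx, hxb⟩⟩
    · exact ⟨0, fun h => absurd h hb⟩
  choose g hg using hrep
  set G : (ι → K) → (ι → K) := fun b i => algebraMap (𝓞 K) K (g b i) with hG
  have hGinj : Set.InjOn G (V.image f : Finset (ι → K)) := by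
    intro b hb b' hb' h
    rw [Finset.mem_coe] at hb hb'
    have h1 : g b = g b' := by
      funext i
      exact FaithfulSMul.algebraMap_injective (𝓞 K) K (congrFun h i)
    rw [← (hg b hb).2, ← (hg b' hb').2, h1]
  refine ⟨(V.image f).image G, ?_, ?_, ?_⟩
  · rw [Finset.card_image_of_injOn hGinj]
    have h1 : (V.card : ℝ) ≤ (V.image f).card * (C * H ^ ε) := by
      calc (V.card : ℝ) ≤ (V.image f).card * (D : ℝ) := by exact_mod_cast hmain
        _ ≤ (V.image f).card * (C * (B * m) ^ ε) := by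
            gcongr
            exact Nat.floor_le (by positivity)
        _ ≤ (V.image f).card * (C * H ^ ε) := by gcongr
    have h2 : ((c₁ * (η₁ / (2 * B)) ^ d) ^ N) * H ^ (N * d) ≤ V.card := by
      rw [hVcard]
      push_cast
      calc ((c₁ * (η₁ / (2 * B)) ^ d) ^ N) * H ^ (N * d) =
            (c₁ * (η₁ / (2 * B) * H) ^ d) ^ N := by
              rw [mul_pow (η₁ / (2 * B)) H d, ← mul_assoc, mul_pow _ (H ^ d) N, ← pow_mul,
                mul_comm d N]
        _ ≤ (c₁ * X ^ d) ^ N := by gcongr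
        _ ≤ (Bx.card : ℝ) ^ N := by gcongr
    have h3 : H ^ (((N * d : ℕ) : ℝ) - ε) = H ^ (N * d) / H ^ ε := by
      rw [Real.rpow_sub hH0, Real.rpow_natCast]
    rw [h3, div_mul_div_comm, div_le_iff₀ (by positivity)]
    exact h2.trans h1
  · intro x hx y hy hxy
    obtain ⟨b, hb, rfl⟩ := Finset.mem_image.mp hx
    obtain ⟨b', hb', rfl⟩ := Finset.mem_image.mp hy
    by_contra hcon
    push Not at hcon
    apply hxy
    have h1 : f (g b) = f (g b') :=
      (hprop _ (hg b hb).1 _ (hg b' hb').1).mpr fun i => hcon i i₀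
    rw [(hg b hb).2, (hg b' hb').2] at h1
    rw [h1]
  · intro x hx
    obtain ⟨b, hb, rfl⟩ := Finset.mem_image.mp hx
    have hbV := (hg b hb).1
    have hx0 : G b ≠ 0 := by
      intro h
      exact hne _ hbV i₀ (congrFun h i₀)
    refine ⟨hx0, ?_, A * m, by positivity, fun i => ?_⟩
    · have h1 := vec_height (g b) hx0 (X := H) (by linarith) fun i σ =>
        ((hWconj i _ (hVmem _ hbV i) σ).2).trans hm2
      rw [div_le_iff₀ hd0, Height.logHeight_eq_log_mulHeight]
      have h3 := Real.log_le_log (Height.mulHeight_pos _) h1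
      rw [Real.log_pow] at h3
      linarith
    · obtain ⟨β, hβ, hgβ⟩ := hWmem i _ (hVmem _ hbV i)
      have h1 : ((G b i : K) : ℂ) = ((m * a i : ℤ) : ℂ) + algebraMap K ℂ (algebraMap (𝓞 K) K β) := by
        show algebraMap K ℂ (algebraMap (𝓞 K) K (g b i)) = _
        rw [hgβ, map_add, map_add, map_intCast, map_intCast]
      have h2 : ((A * m : ℝ) : ℂ) * (α i : ℂ) = ((m * a i : ℤ) : ℂ) := by
        have h3 : ((a i : ℚ) : ℂ) = ((A * α i : ℚ) : ℂ) := by rw [ha i]
        push_cast at h3 ⊢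
        rw [h3]
        ring
      rw [h1, h2, add_sub_cancel_left]
      refine (hβ (algebraMap K ℂ)).trans ?_
      have h4 : (1 : ℝ) ≤ A := by exact_mod_cast hA1
      rw [hX]
      calc η₁ * (m : ℝ) ≤ η * m := mul_le_mul_of_nonneg_right hη₁2 hm0.le
        _ ≤ η * (A * m) :=
            mul_le_mul_of_nonneg_left (le_mul_of_one_le_left hm0.le h4) hη.le

end FreySH
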