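import Pool.Agent.Lib.MP_6babc4_nt.SH.Op1
import Pool.Agent.Lib.MP_6babc4_nt.SH.Op2
import Pool.Agent.Lib.MP_6babc4_nt.SH.Blk
import Pool.Agent.Lib.MP_6babc4_nt.SH.Rat
import Pool.Agent.Lib.MP_6babc4_nt.SH.Vec

/-!
# Module Low: the number of theta null points over `K`

PROOF. `g = 1`: `open_one` and `many_vecs`. `g = 2 + n`: the vectors `x ⊗ β`, `x` from `many_vecs` near the vector of `open_two`, `β` the rational theta null point of
`rat_point n` (`theta_block`); the height is at most `h(x) + h(β)`.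
-/

set_option autoImplicit false

open NumberField IsDedekindDomain Module Filter Topology

namespace FreySH

open FreyTN FreyCyc FreySparse

private theorem low_scale {g : ℕ} {K : IntermediateField ℚ ℂ} [NumberField K] {ρ η : ℝ}
    {α : GI g → ℚ} (h : ∀ u : GI g → ℂ, (∀ b, ‖u b - (α b : ℂ)‖ ≤ η) →
      ∃ τ : Matrix (Fin g) (Fin g) ℂ, Siegel ρ τ ∧ ∀ a b, u a * theta τ b = u b * theta τ a)
    {x : GI g → K} {m : ℝ} (hm : 0 < m) (hx : ∀ i, ‖(x i : ℂ) - m * (α i : ℂ)‖ ≤ η * m) :
    ∃ τ : Matrix (Fin g) (Fin g) ℂ, Siegel ρ τ ∧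
      ∀ a b, (x a : ℂ) * theta τ b = (x b : ℂ) * theta τ a := by
  have hmc : (m : ℂ) ≠ 0 := by exact_mod_cast hm.ne'
  have hb : ∀ b, ‖(x b : ℂ) / m - (α b : ℂ)‖ ≤ η := by
    intro b
    have h4 : (x b : ℂ) / m - (α b : ℂ) = ((x b : ℂ) - m * (α b : ℂ)) / m := by
      field_simp
    rw [h4, norm_div, Complex.norm_real, Real.norm_of_nonneg hm.le, div_le_iff₀ hm]
    exact hx b
  obtain ⟨τ, h1, h2⟩ := h (fun b => (x b : ℂ) / m) hb
  refine ⟨τ, h1, fun a b => ?_⟩
  have h3 := h2 a b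
  field_simp at h3
  exact h3

private theorem low_card (g : ℕ) : Fintype.card (GI g) = 2 ^ g := by
  simp [GI, ZMod.card]

/-- (Low) The number of theta null points over `K`. -/
theorem many_points_field (g : ℕ) (hg : 1 ≤ g) {ρ ε : ℝ} (hρ : 0 < ρ) (hε : 0 < ε)
    (K : IntermediateField ℚ ℂ) [NumberField K] : ∃ c H₀ : ℝ, 0 < c ∧ ∀ H : ℝ, H₀ ≤ H →
      ∃ U : Finset (GI g → K), c * H ^ ((2 * min g 2 * finrank ℚ K : ℕ) - ε) ≤ U.card ∧
        (∀ u ∈ U, ∀ w ∈ U, u ≠ w → ∃ a b, u a * w b ≠ u b * w a) ∧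
        ∀ u ∈ U, u ≠ 0 ∧ Height.logHeight u / finrank ℚ K ≤ Real.log H ∧
          ∃ τ : Matrix (Fin g) (Fin g) ℂ, Siegel ρ τ ∧
            ∀ a b, (u a : ℂ) * theta τ b = (u b : ℂ) * theta τ a := by
  rcases Nat.lt_or_ge g 2 with h2 | h2
  · obtain rfl : g = 1 := by omega
    obtain ⟨α, η, hη, hα, hopen⟩ := open_one hρ
    obtain ⟨c, H₀, hc, h⟩ := many_vecs K (by rw [low_card]; norm_num) α hα hη hε
    refine ⟨c, H₀, hc, fun H hH => ?_⟩
    obtain ⟨S, hS1, hS2, hS3⟩ := h H hH
    refine ⟨S, ?_, hS2, fun u hu => ?_⟩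
    · rw [low_card] at hS1
      simpa using hS1
    · obtain ⟨h3, h4, m, hm, h5⟩ := hS3 u hu
      exact ⟨h3, h4, low_scale hopen hm h5⟩
  · obtain ⟨n, rfl⟩ := Nat.exists_eq_add_of_le h2
    obtain ⟨α, η, hη, hα, hopen⟩ := open_two hρ
    obtain ⟨β, τ', hτ', hβ, hβ'⟩ := rat_point n hρ
    obtain ⟨c, H₀, hc, h⟩ := many_vecs K (by rw [low_card]; norm_num) α hα hη hε
    set d : ℕ := finrank ℚ K with hd
    have hd0 : (0 : ℝ) < d := by
      rw [hd]
      exact_mod_cast finrank_pos
    set βK : GI n → K := fun b => ((β b : ℚ) : K) with hβK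
    have hβK0 : ∀ b, βK b ≠ 0 := fun b => by
      rw [hβK]
      exact Rat.cast_ne_zero.mpr (hβ b)
    have hβKne : βK ≠ 0 := fun h0 => hβK0 0 (congrFun h0 0)
    set C : ℝ := Real.exp (Height.logHeight βK / d) with hC
    have hC0 : 0 < C := Real.exp_pos _
    set e : ℝ := ((4 * d : ℕ) : ℝ) - ε with he
    refine ⟨c * C⁻¹ ^ e, max 1 (C * max 1 H₀), by positivity, fun H hH => ?_⟩
    have hH1 : 1 ≤ H := (le_max_left _ _).trans hH
    have hH0 : 0 < H := lt_of_lt_of_le one_pos hH1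
    have hHC : max 1 H₀ ≤ H / C := by
      rw [le_div_iff₀ hC0, mul_comm]
      exact (le_max_right _ _).trans hH
    obtain ⟨S, hS1, hS2, hS3⟩ := h (H / C) ((le_max_right _ _).trans hHC)
    classical
    set φ : (GI 2 → K) → (GI (2 + n) → K) := fun x b =>
      x (fun i => b (Fin.castAdd n i)) * βK (fun i => b (Fin.natAdd 2 i)) with hφ
    have hap : ∀ (a : GI 2), ∃ b : GI (2 + n), (fun i => b (Fin.castAdd n i)) = a ∧
        (fun i => b (Fin.natAdd 2 i)) = 0 := by
      intro a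
      refine ⟨Fin.append a 0, ?_, ?_⟩
      · funext i
        exact Fin.append_left a 0 i
      · funext i
        exact Fin.append_right a 0 i
    have hnp : ∀ x ∈ S, ∀ y ∈ S, x ≠ y → ∃ a b, φ x a * φ y b ≠ φ x b * φ y a := by
      intro x hx y hy hxy
      obtain ⟨i, j, hij⟩ := hS2 x hx y hy hxy
      obtain ⟨a, ha1, ha2⟩ := hap i
      obtain ⟨b, hb1, hb2⟩ := hap j
      refine ⟨a, b, fun h0 => hij ?_⟩
      simp only [hφ, ha1, ha2, hb1, hb2] at h0
      have h1 : (x i * y j - x j * y i) * (βK 0 * βK 0) = 0 := by linear_combination h0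
      rcases mul_eq_zero.mp h1 with h2 | h2
      · exact sub_eq_zero.mp h2
      · exact absurd h2 (mul_ne_zero (hβK0 0) (hβK0 0))
    have hinj : Set.InjOn φ S := by
      intro x hx y hy hxy
      by_contra hne
      obtain ⟨a, b, hab⟩ := hnp x hx y hy hne
      rw [hxy] at hab
      exact hab (mul_comm _ _)
    refine ⟨S.image φ, ?_, ?_, ?_⟩
    · rw [Finset.card_image_of_injOn hinj]
      refine le_trans (le_of_eq ?_) hS1
      rw [low_card]
      have h6 : ((2 * min (2 + n) 2 * d : ℕ) : ℝ) - ε = e := by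
        rw [he]
        have : min (2 + n) 2 = 2 := by omega
        rw [this]
      have h7 : ((2 ^ 2 * d : ℕ) : ℝ) - ε = e := by
        rw [he]
        norm_num
      rw [h6, h7, div_eq_mul_inv, Real.mul_rpow hH0.le (by positivity)]
      ring
    · intro u hu w hw huw
      obtain ⟨x, hx, rfl⟩ := Finset.mem_image.mp hu
      obtain ⟨y, hy, rfl⟩ := Finset.mem_image.mp hw
      exact hnp x hx y hy fun h0 => huw (by rw [h0])
    · intro u hu
      obtain ⟨x, hx, rfl⟩ := Finset.mem_image.mp hu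
      obtain ⟨h3, h4, m, hm, h5⟩ := hS3 x hx
      obtain ⟨τ, hτ, hτx⟩ := low_scale hopen hm h5
      obtain ⟨τ₂, hτ₂, hth⟩ := theta_block hρ hτ hτ'
      refine ⟨?_, ?_, τ₂, hτ₂, fun a b => ?_⟩
      · intro h0
        refine h3 (funext fun i => ?_)
        obtain ⟨a, ha1, ha2⟩ := hap i
        have h6 := congrFun h0 a
        simp only [hφ, ha1, ha2, Pi.zero_apply] at h6
        exact (mul_eq_zero.mp h6).resolve_right (hβK0 0)
      · have h6 : φ x = (fun a : GI 2 × GI n => x a.1 * βK a.2) ∘ (fun b : GI (2 + n) =>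
            ((fun i => b (Fin.castAdd n i)), fun i => b (Fin.natAdd 2 i))) := rfl
        have h7 : Height.logHeight (φ x) ≤ Height.logHeight x + Height.logHeight βK := by
          rw [h6, ← Height.logHeight_fun_mul_eq h3 hβKne]
          exact Height.logHeight_comp_le _ _
        have h8 : Height.logHeight (φ x) / d ≤ Height.logHeight x / d + Height.logHeight βK / d := by
          rw [← add_div]
          exact div_le_div_of_nonneg_right h7 hd0.le
        refine h8.trans ?_
        have h9 : Real.log (H / C) = Real.log H - Height.logHeight βK / d := by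
          rw [Real.log_div hH0.ne' hC0.ne', hC, Real.log_exp]
        rw [h9] at h4
        linarith
      · rw [hth, hth]
        have h6 := hτx (fun i => a (Fin.castAdd n i)) (fun i => b (Fin.castAdd n i))
        have h7 := hβ' (fun i => a (Fin.natAdd 2 i)) (fun i => b (Fin.natAdd 2 i))
        simp only [hφ, hβK]
        push_cast
        linear_combination ((β fun i => a (Fin.natAdd 2 i) : ℚ) : ℂ) *
          theta τ' (fun i => b (Fin.natAdd 2 i)) * h6 + (x (fun i => b (Fin.castAdd n i)) : ℂ) *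
          theta τ (fun i => a (Fin.castAdd n i)) * h7

end FreySH
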