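import Mathlib

set_option autoImplicit false

/-!
# The number of prime factors: `B ^ ω(n) ≤ C n ^ ε`
-/

namespace FreySH

open Finset

theorem omega_pow (B : ℕ) {ε : ℝ} (hε : 0 < ε) : ∃ C : ℝ, 1 ≤ C ∧
    ∀ n : ℕ, n ≠ 0 → ((B : ℝ) ^ n.primeFactors.card) ≤ C * (n : ℝ) ^ ε := by
  obtain ⟨N, hN⟩ := exists_nat_ge ((B : ℝ) ^ (1 / ε))
  set M : ℝ := max (B : ℝ) 1 with hM
  have hM1 : 1 ≤ M := le_max_right _ _
  have hMB : (B : ℝ) ≤ M := le_max_left _ _
  refine ⟨M ^ N, one_le_pow₀ hM1, fun n hn => ?_⟩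
  have h1 : ((B : ℝ) ^ n.primeFactors.card) ≤
      ∏ p ∈ n.primeFactors, ((p : ℝ) ^ ε * (if p < N then M else 1)) := by
    rw [← Finset.prod_const]
    refine Finset.prod_le_prod (fun _ _ => Nat.cast_nonneg _) fun p hp => ?_
    have hp1 : (1 : ℝ) ≤ p := by
      exact_mod_cast (Nat.prime_of_mem_primeFactors hp).one_le
    have hpe : (1 : ℝ) ≤ (p : ℝ) ^ ε := Real.one_le_rpow hp1 hε.le
    split_ifs with h
    · nlinarith [mul_le_mul_of_nonneg_right hpe (by linarith : (0 : ℝ) ≤ M)]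
    · rw [mul_one]
      have h2 : (B : ℝ) ^ (1 / ε) ≤ p := hN.trans (by exact_mod_cast not_lt.1 h)
      have h3 : ((B : ℝ) ^ (1 / ε)) ^ ε ≤ (p : ℝ) ^ ε :=
        Real.rpow_le_rpow (Real.rpow_nonneg (Nat.cast_nonneg _) _) h2 hε.le
      rwa [← Real.rpow_mul (Nat.cast_nonneg _), one_div_mul_cancel hε.ne', Real.rpow_one] at h3
  have h2 : ∏ p ∈ n.primeFactors, (p : ℝ) ^ ε ≤ (n : ℝ) ^ ε := by
    rw [Real.finsetProd_rpow _ _ fun p _ => Nat.cast_nonneg _]
    refine Real.rpow_le_rpow (Finset.prod_nonneg fun p _ => Nat.cast_nonneg _) ?_ hε.le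
    have h4 := Nat.le_of_dvd (Nat.pos_of_ne_zero hn) (Nat.prod_primeFactors_dvd n)
    have h5 : ((∏ p ∈ n.primeFactors, p : ℕ) : ℝ) ≤ (n : ℝ) := by exact_mod_cast h4
    rwa [Nat.cast_prod] at h5
  have h3 : ∏ p ∈ n.primeFactors, (if p < N then M else 1) ≤ M ^ N := by
    rw [Finset.prod_ite, Finset.prod_const, Finset.prod_const_one, mul_one]
    refine pow_le_pow_right₀ hM1 ?_
    calc (n.primeFactors.filter fun p => p < N).card ≤ (range N).card :=
          Finset.card_le_card fun p hp => Finset.mem_range.2 (Finset.mem_filter.1 hp).2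
      _ = N := Finset.card_range N
  calc ((B : ℝ) ^ n.primeFactors.card)
      ≤ (∏ p ∈ n.primeFactors, (p : ℝ) ^ ε) *
          ∏ p ∈ n.primeFactors, (if p < N then M else 1) := by
        rw [← Finset.prod_mul_distrib]
        exact h1
    _ ≤ (n : ℝ) ^ ε * M ^ N := by
        refine mul_le_mul h2 h3 (Finset.prod_nonneg fun p _ => ?_)
          (Real.rpow_nonneg (Nat.cast_nonneg _) _)
        split_ifs
        · linarith
        · norm_num
    _ = M ^ N * (n : ℝ) ^ ε := mul_comm _ _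

end FreySH
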