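import Pool.Agent.Lib.MP_6babc4_nt.TN.Defs

/-!
# Module Op1: all vectors near a rational vector are theta null points, `g = 1`

With `q = exp(π i t)` the theta constants are `1 + 2 E ± 2 O`, `O = q + q^9 + ...` the sum over the odd squares,
`E` the sum over the even squares. The function `O / (1 + 2 E)` has derivative `1` at `0`.
-/

set_option autoImplicit false

open Filter Topology

namespace FreySH

open FreyTN

/-- The odd squares, divided by `q`. -/
private noncomputable def op1_h (q : ℂ) : ℂ := ∑' k : ℕ, q ^ ((2 * k + 1) ^ 2 - 1)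

/-- The even squares. -/
private noncomputable def op1_E (q : ℂ) : ℂ := ∑' k : ℕ, q ^ ((2 * k + 2) ^ 2)

private theorem op1_norm_pow {q : ℂ} (hq : ‖q‖ ≤ 1 / 2) {k n : ℕ} (h : k ≤ n) :
    ‖q ^ n‖ ≤ (1 / 2 : ℝ) ^ k := by
  rw [norm_pow]
  calc ‖q‖ ^ n ≤ (1 / 2 : ℝ) ^ n := pow_le_pow_left₀ (norm_nonneg _) hq n
    _ ≤ (1 / 2 : ℝ) ^ k := pow_le_pow_of_le_one (by norm_num) (by norm_num) h

private theorem op1_geo : Summable fun k : ℕ => (1 / 2 : ℝ) ^ k :=
  summable_geometric_of_lt_one (by norm_num) (by norm_num)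

private theorem op1_ball : IsOpen (Metric.ball (0 : ℂ) (1 / 2)) := Metric.isOpen_ball

private theorem op1_h_diff : DifferentiableOn ℂ op1_h (Metric.ball 0 (1 / 2)) := by
  unfold op1_h
  refine Complex.differentiableOn_tsum_of_summable_norm op1_geo (fun k => ?_) op1_ball
    fun k w hw => ?_
  · exact (differentiable_pow _).differentiableOn
  · rw [Metric.mem_ball, dist_zero_right] at hw
    refine op1_norm_pow hw.le ?_
    have : (2 * k + 1) ^ 2 = 4 * k ^ 2 + 4 * k + 1 := by ring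
    omega

private theorem op1_E_diff : DifferentiableOn ℂ op1_E (Metric.ball 0 (1 / 2)) := by
  unfold op1_E
  refine Complex.differentiableOn_tsum_of_summable_norm op1_geo (fun k => ?_) op1_ball
    fun k w hw => ?_
  · exact (differentiable_pow _).differentiableOn
  · rw [Metric.mem_ball, dist_zero_right] at hw
    refine op1_norm_pow hw.le ?_
    have : (2 * k + 2) ^ 2 = 4 * k ^ 2 + 8 * k + 4 := by ring
    omega

private theorem op1_h_zero : op1_h 0 = 1 := by
  unfold op1_h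
  rw [tsum_eq_single 0]
  · norm_num
  · intro k hk
    refine zero_pow ?_
    have h1 : 1 ≤ k := Nat.one_le_iff_ne_zero.2 hk
    have : (2 * k + 1) ^ 2 = 4 * k ^ 2 + 4 * k + 1 := by ring
    omega

private theorem op1_E_zero : op1_E 0 = 0 := by
  unfold op1_E
  rw [tsum_eq_single 0]
  · norm_num
  · intro k _
    exact zero_pow (by positivity)

/-- Small numbers are values of `O / (1 + 2 E)`. -/
private theorem op1_open {r : ℝ} (hr : 0 < r) : ∃ δ : ℝ, 0 < δ ∧ ∀ s : ℂ, ‖s‖ < δ → s ≠ 0 →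
    ∃ q : ℂ, q ≠ 0 ∧ ‖q‖ < r ∧ ‖q‖ < 1 / 2 ∧ q * op1_h q = s * (1 + 2 * op1_E q) := by
  have h0 : Metric.ball (0 : ℂ) (1 / 2) ∈ 𝓝 (0 : ℂ) := Metric.ball_mem_nhds 0 (by norm_num)
  have hE0 : (1 : ℂ) + 2 * op1_E 0 ≠ 0 := by rw [op1_E_zero]; norm_num
  have hAh : AnalyticAt ℂ op1_h 0 := op1_h_diff.analyticAt h0
  have hAE : AnalyticAt ℂ op1_E 0 := op1_E_diff.analyticAt h0
  have hden : AnalyticAt ℂ (fun q => 1 + 2 * op1_E q) 0 :=
    analyticAt_const.add (analyticAt_const.mul hAE)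
  have hF : AnalyticAt ℂ (fun q => q * (op1_h q / (1 + 2 * op1_E q))) 0 :=
    analyticAt_id.mul (hAh.div hden hE0)
  have hd : HasDerivAt (fun q => q * (op1_h q / (1 + 2 * op1_E q))) 1 0 := by
    have h1 := (hasDerivAt_id (0 : ℂ)).mul (hAh.div hden hE0).differentiableAt.hasDerivAt
    refine h1.congr_deriv ?_
    simp only [Pi.div_apply, id_eq, zero_mul, add_zero, one_mul]
    rw [op1_h_zero, op1_E_zero]
    norm_num
  have hs : HasStrictDerivAt (fun q => q * (op1_h q / (1 + 2 * op1_E q))) 1 0 := by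
    have h1 := hF.hasStrictDerivAt
    rwa [hd.deriv] at h1
  have hmap := hs.map_nhds_eq one_ne_zero
  rw [zero_mul] at hmap
  -- the neighbourhood
  have hne : ∀ᶠ q in 𝓝 (0 : ℂ), 1 + 2 * op1_E q ≠ 0 := hden.continuousAt.eventually_ne hE0
  have hU : {q : ℂ | ‖q‖ < r ∧ ‖q‖ < 1 / 2 ∧ 1 + 2 * op1_E q ≠ 0} ∈ 𝓝 (0 : ℂ) := by
    have h1 : ∀ᶠ q in 𝓝 (0 : ℂ), ‖q‖ < r := by
      have := Metric.ball_mem_nhds (0 : ℂ) hr
      filter_upwards [this] with q hq
      rwa [Metric.mem_ball, dist_zero_right] at hq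
    have h2 : ∀ᶠ q in 𝓝 (0 : ℂ), ‖q‖ < 1 / 2 := by
      filter_upwards [h0] with q hq
      rwa [Metric.mem_ball, dist_zero_right] at hq
    filter_upwards [h1, h2, hne] with q a b c
    exact ⟨a, b, c⟩
  have h3 := Filter.image_mem_map (m := fun q => q * (op1_h q / (1 + 2 * op1_E q))) hU
  rw [hmap] at h3
  obtain ⟨δ, hδ, hball⟩ := Metric.mem_nhds_iff.1 h3
  refine ⟨δ, hδ, fun s hs hs0 => ?_⟩
  obtain ⟨q, ⟨h4, h5, h6⟩, h7⟩ := hball (show s ∈ Metric.ball 0 δ by
    rwa [Metric.mem_ball, dist_zero_right])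
  refine ⟨q, ?_, h4, h5, ?_⟩
  · rintro rfl
    apply hs0
    rw [← h7]
    simp
  · rw [← h7]
    field_simp

/-- The theta constants for `g = 1`. -/
private theorem op1_theta (t : ℂ) (hq : ‖Complex.exp (Real.pi * Complex.I * t)‖ < 1 / 2)
    (b : GI 1) :
    theta (Matrix.of fun _ _ => t : Matrix (Fin 1) (Fin 1) ℂ) b =
      1 + 2 * op1_E (Complex.exp (Real.pi * Complex.I * t)) +
        (if b 0 = 0 then 1 else -1) * (2 * (Complex.exp (Real.pi * Complex.I * t) *
          op1_h (Complex.exp (Real.pi * Complex.I * t)))) := by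
  set q := Complex.exp (Real.pi * Complex.I * t) with hqdef
  set σ : ℂ := if b 0 = 0 then 1 else -1 with hσ
  have hσ2 : σ ^ 2 = 1 := by rw [hσ]; split_ifs <;> norm_num
  -- the terms
  have hterm : ∀ m : Fin 1 → ℤ, (sgn b m : ℂ) * Complex.exp (Real.pi * Complex.I *
      quad (Matrix.of fun _ _ => t : Matrix (Fin 1) (Fin 1) ℂ) m) =
      σ ^ (m 0).natAbs * q ^ ((m 0).natAbs ^ 2) := by
    intro m
    have h1 : quad (Matrix.of fun _ _ => t : Matrix (Fin 1) (Fin 1) ℂ) m =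
        (((m 0).natAbs ^ 2 : ℕ) : ℂ) * t := by
      unfold quad
      simp only [Finset.univ_unique, Fin.default_eq_zero, Fin.isValue, Matrix.of_apply,
        Finset.sum_singleton]
      have h2 : ((m 0 : ℤ) : ℂ) * (m 0 : ℤ) = (((m 0).natAbs ^ 2 : ℕ) : ℂ) := by
        have h3 : (m 0) * (m 0) = (((m 0).natAbs ^ 2 : ℕ) : ℤ) := by
          rw [← Int.natAbs_mul_self' (m 0), Nat.cast_pow, _root_.sq]
        rw [← Int.cast_mul, h3, Int.cast_natCast]
      rw [← h2]
      ring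
    have h2 : (sgn b m : ℂ) = σ ^ (m 0).natAbs := by
      unfold sgn
      simp only [Finset.univ_unique, Fin.default_eq_zero, Fin.isValue, Finset.sum_singleton]
      have hb : b 0 = 0 ∨ b 0 = 1 := by
        generalize b 0 = c
        revert c
        decide
      rcases hb with hb | hb
      · rw [hσ, hb]
        simp
      · rw [hσ, hb]
        have h10 : ¬ ((1 : ZMod 2) = 0) := by decide
        rw [if_neg h10, one_mul]
        have h3 : ((m 0 : ℤ) : ZMod 2) = 0 ↔ Even (m 0).natAbs := by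
          rw [ZMod.intCast_zmod_eq_zero_iff_dvd, Int.natAbs_even, even_iff_two_dvd]
          rfl
        by_cases h4 : Even (m 0).natAbs
        · rw [if_pos (h3.2 h4), h4.neg_one_pow]
          simp
        · rw [if_neg (fun h => h4 (h3.1 h)), (Nat.not_even_iff_odd.1 h4).neg_one_pow]
          simp
    rw [h1, h2]
    congr 1
    rw [hqdef, ← Complex.exp_nat_mul]
    congr 1
    ring
  unfold theta
  simp only [hterm]
  -- sum over the integers
  have he : ∑' m : Fin 1 → ℤ, σ ^ (m 0).natAbs * q ^ ((m 0).natAbs ^ 2) =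
      ∑' n : ℤ, σ ^ n.natAbs * q ^ (n.natAbs ^ 2) := by
    rw [← (Equiv.funUnique (Fin 1) ℤ).tsum_eq (fun n : ℤ => σ ^ n.natAbs * q ^ (n.natAbs ^ 2))]
    rfl
  have hσn : ‖σ‖ = 1 := by rw [hσ]; split_ifs <;> simp
  have hsumm : ∀ (f g : ℕ → ℕ), (∀ k, k ≤ g k) → Summable fun k => σ ^ f k * q ^ g k := by
    intro f g hg
    refine Summable.of_norm_bounded op1_geo fun k => ?_
    rw [norm_mul, norm_pow, hσn, one_pow, one_mul]
    exact op1_norm_pow hq.le (hg k)
  have hs1 : Summable fun n : ℕ => σ ^ ((n : ℤ)).natAbs * q ^ (((n : ℤ)).natAbs ^ 2) := by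
    simp only [Int.natAbs_natCast]
    exact hsumm (fun n => n) (fun n => n ^ 2) fun k => Nat.le_self_pow (by norm_num) k
  have hneg : ∀ n : ℕ, (-((n : ℤ) + 1)).natAbs = n + 1 := by intro n; omega
  have hs2 : Summable fun n : ℕ =>
      σ ^ ((-((n : ℤ) + 1)).natAbs) * q ^ ((-((n : ℤ) + 1)).natAbs ^ 2) := by
    simp only [hneg]
    exact hsumm (fun n => n + 1) (fun n => (n + 1) ^ 2) fun k => by nlinarith
  rw [he, tsum_of_nat_of_neg_add_one (f := fun n : ℤ => σ ^ n.natAbs * q ^ (n.natAbs ^ 2)) hs1 hs2]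
  simp only [hneg, Int.natAbs_natCast]
  have hs3 : Summable fun n : ℕ => σ ^ n * q ^ (n ^ 2) :=
    hsumm (fun n => n) (fun n => n ^ 2) fun k => Nat.le_self_pow (by norm_num) k
  rw [hs3.tsum_eq_zero_add]
  -- odd and even
  have hodd : ∀ k : ℕ, σ ^ (2 * k + 1) * q ^ ((2 * k + 1) ^ 2) =
      σ * q * q ^ ((2 * k + 1) ^ 2 - 1) := by
    intro k
    have h1 : ((2 * k + 1) ^ 2 - 1) + 1 = (2 * k + 1) ^ 2 :=
      Nat.sub_add_cancel (Nat.one_le_pow _ _ (Nat.succ_pos _))
    have h2 : σ ^ (2 * k + 1) = σ := by rw [pow_succ, pow_mul, hσ2, one_pow, one_mul]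
    have h3 : q ^ ((2 * k + 1) ^ 2 - 1) * q = q ^ ((2 * k + 1) ^ 2) := by
      rw [← pow_succ]
      exact congrArg (fun n => q ^ n) h1
    rw [h2, ← h3]
    ring
  have heven : ∀ k : ℕ, σ ^ (2 * k + 1 + 1) * q ^ ((2 * k + 1 + 1) ^ 2) =
      q ^ ((2 * k + 2) ^ 2) := by
    intro k
    have h2 : σ ^ (2 * k + 1 + 1) = 1 := by
      rw [show 2 * k + 1 + 1 = 2 * (k + 1) by ring, pow_mul, hσ2, one_pow]
    rw [h2, one_mul]
  have hsum : ∑' n : ℕ, σ ^ (n + 1) * q ^ ((n + 1) ^ 2) = σ * (q * op1_h q) + op1_E q := by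
    have key := tsum_even_add_odd (f := fun n : ℕ => σ ^ (n + 1) * q ^ ((n + 1) ^ 2))
      (hsumm (fun k => 2 * k + 1) (fun k => (2 * k + 1) ^ 2) fun k => by nlinarith)
      (hsumm (fun k => 2 * k + 1 + 1) (fun k => (2 * k + 1 + 1) ^ 2) fun k => by nlinarith)
    refine key.symm.trans ?_
    simp only [hodd, heven]
    rw [tsum_mul_left]
    unfold op1_h op1_E
    ring
  rw [hsum]
  simp only [pow_zero, ne_eq, OfNat.ofNat_ne_zero, not_false_eq_true, zero_pow, mul_one]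
  ring

/-- (Op1) All vectors near a rational vector are theta null points, `g = 1`. -/
theorem open_one {ρ : ℝ} (hρ : 0 < ρ) : ∃ (α : GI 1 → ℚ) (η : ℝ), 0 < η ∧ (∀ b, α b ≠ 0) ∧
    ∀ u : GI 1 → ℂ, (∀ b, ‖u b - (α b : ℂ)‖ ≤ η) →
      ∃ τ : Matrix (Fin 1) (Fin 1) ℂ, Siegel ρ τ ∧ ∀ a b, u a * theta τ b = u b * theta τ a := by
  obtain ⟨δ, hδ, hop⟩ := op1_open (r := Real.exp (-(Real.pi * ρ))) (Real.exp_pos _)
  obtain ⟨x, hx0, hx1⟩ := exists_rat_btwn (show (0 : ℝ) < min δ (1 / 2) from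
    lt_min hδ (by norm_num))
  have hxδ : (x : ℝ) < δ := hx1.trans_le (min_le_left _ _)
  have hx2 : (x : ℝ) < 1 / 2 := hx1.trans_le (min_le_right _ _)
  have hx0' : (0 : ℚ) < x := by exact_mod_cast hx0
  have hx2' : x < 1 / 2 := by
    have : (x : ℝ) < ((1 / 2 : ℚ) : ℝ) := by push_cast; exact hx2
    exact_mod_cast this
  refine ⟨fun b => if b 0 = 0 then 1 + x else 1 - x, x / 2, by positivity, ?_, ?_⟩
  · intro b
    simp only
    split_ifs
    · linarith
    · intro h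
      linarith
  intro u hu
  set u0 : ℂ := u (fun _ => 0) with hu0
  set u1 : ℂ := u (fun _ => 1) with hu1
  have h10 : ¬ ((1 : ZMod 2) = 0) := by decide
  have h0 : ‖u0 - (1 + (x : ℂ))‖ ≤ x / 2 := by
    have := hu (fun _ => 0)
    simpa using this
  have h1 : ‖u1 - (1 - (x : ℂ))‖ ≤ x / 2 := by
    have := hu (fun _ => 1)
    simpa [h10] using this
  have hxn : ‖(x : ℂ)‖ = x := by
    rw [show ((x : ℚ) : ℂ) = (((x : ℚ) : ℝ) : ℂ) by push_cast; rfl, Complex.norm_real,
      Real.norm_eq_abs, abs_of_pos hx0]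
  have hsum : ‖(u0 + u1) - 2‖ ≤ x := by
    have : (u0 + u1) - 2 = (u0 - (1 + (x : ℂ))) + (u1 - (1 - (x : ℂ))) := by ring
    rw [this]
    exact (norm_add_le _ _).trans (by linarith)
  have hdif : ‖(u0 - u1) - 2 * x‖ ≤ x := by
    have : (u0 - u1) - 2 * x = (u0 - (1 + (x : ℂ))) - (u1 - (1 - (x : ℂ))) := by ring
    rw [this]
    exact (norm_sub_le _ _).trans (by linarith)
  have h2x : ‖(2 : ℂ) * x‖ = 2 * x := by rw [norm_mul, hxn]; simp
  have hsum' : 3 / 2 ≤ ‖u0 + u1‖ := by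
    have h3 : ‖(2 : ℂ)‖ - ‖(u0 + u1)‖ ≤ ‖(2 : ℂ) - (u0 + u1)‖ := norm_sub_norm_le _ _
    rw [norm_sub_rev] at h3
    have h4 : ‖(2 : ℂ)‖ = 2 := by simp
    linarith
  have hdif1 : ‖u0 - u1‖ ≤ 3 * x := by
    have h3 : ‖u0 - u1‖ - ‖(2 : ℂ) * x‖ ≤ ‖(u0 - u1) - 2 * x‖ := norm_sub_norm_le _ _
    linarith
  have hdif2 : x ≤ ‖u0 - u1‖ := by
    have h3 : ‖(2 : ℂ) * x‖ - ‖u0 - u1‖ ≤ ‖(2 : ℂ) * x - (u0 - u1)‖ := norm_sub_norm_le _ _
    rw [norm_sub_rev ((2 : ℂ) * x)] at h3
    linarith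
  have hne : u0 + u1 ≠ 0 := by
    rw [← norm_pos_iff]; linarith
  have hne' : u0 - u1 ≠ 0 := by
    rw [← norm_pos_iff]; linarith
  set s : ℂ := (u0 - u1) / (2 * (u0 + u1)) with hs
  have hs0 : s ≠ 0 := div_ne_zero hne' (mul_ne_zero two_ne_zero hne)
  have hsn : ‖s‖ < δ := by
    rw [hs, norm_div, norm_mul, Complex.norm_ofNat]
    rw [div_lt_iff₀ (by positivity)]
    nlinarith
  obtain ⟨q, hq0, hqr, hq2, hq⟩ := hop s hsn hs0
  -- the matrix
  set t : ℂ := Complex.log q / (Real.pi * Complex.I) with ht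
  have hpi : ((Real.pi : ℂ) * Complex.I) ≠ 0 :=
    mul_ne_zero (by exact_mod_cast Real.pi_ne_zero) Complex.I_ne_zero
  have hexp : Complex.exp (Real.pi * Complex.I * t) = q := by
    rw [ht, mul_div_cancel₀ _ hpi, Complex.exp_log hq0]
  have htim : ρ ≤ t.im := by
    have h3 : ‖q‖ = Real.exp (-(Real.pi * t.im)) := by
      rw [← hexp, Complex.norm_exp]
      congr 1
      rw [mul_assoc, Complex.mul_re, Complex.ofReal_re, Complex.ofReal_im, zero_mul, sub_zero,
        Complex.mul_re, Complex.I_re, Complex.I_im, zero_mul, one_mul, zero_sub]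
      ring
    rw [h3, Real.exp_lt_exp] at hqr
    nlinarith [Real.pi_pos]
  refine ⟨Matrix.of fun _ _ => t, ⟨?_, ?_, ?_⟩, ?_⟩
  · ext i j
    rfl
  · have h3 : (Matrix.of fun _ _ => t : Matrix (Fin 1) (Fin 1) ℂ).map Complex.im =
        Matrix.diagonal fun _ => t.im := by
      ext i j
      rw [Subsingleton.elim i j]
      simp
    rw [h3]
    exact Matrix.PosDef.diagonal fun _ => lt_of_lt_of_le hρ htim
  · intro m hm
    have hm0 : m 0 ≠ 0 := by
      intro h
      apply hm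
      ext i
      rw [Subsingleton.elim i 0, h]
      rfl
    have h4 : quad ((Matrix.of fun _ _ => t : Matrix (Fin 1) (Fin 1) ℂ).map Complex.im) m =
        ((m 0 : ℤ) : ℝ) ^ 2 * t.im := by
      unfold quad
      simp only [Finset.univ_unique, Fin.default_eq_zero, Fin.isValue, Matrix.map_apply,
        Matrix.of_apply, Finset.sum_singleton]
      ring
    rw [h4]
    have h5 : (1 : ℝ) ≤ ((m 0 : ℤ) : ℝ) ^ 2 := by
      have : (1 : ℤ) ≤ (m 0) ^ 2 := by
        have := sq_nonneg (m 0)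
        have h6 : (m 0) ^ 2 ≠ 0 := pow_ne_zero 2 hm0
        omega
      exact_mod_cast this
    nlinarith
  · have hθ : ∀ b : GI 1, theta (Matrix.of fun _ _ => t : Matrix (Fin 1) (Fin 1) ℂ) b =
        1 + 2 * op1_E q + (if b 0 = 0 then 1 else -1) * (2 * (q * op1_h q)) := by
      intro b
      have := op1_theta t (by rw [hexp]; exact hq2) b
      rwa [hexp] at this
    have hmain : (u0 - u1) * (1 + 2 * op1_E q) = (u0 + u1) * (2 * (q * op1_h q)) := by
      rw [hq, hs]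
      field_simp
    have hcase : ∀ a : GI 1, a = (fun _ => 0) ∨ a = (fun _ => 1) := by
      intro a
      have ha : a 0 = 0 ∨ a 0 = 1 := by
        generalize a 0 = c
        revert c
        decide
      rcases ha with ha | ha
      · left
        ext i
        rw [Subsingleton.elim i 0, ha]
      · right
        ext i
        rw [Subsingleton.elim i 0, ha]
    intro a b
    rw [hθ, hθ]
    rcases hcase a with rfl | rfl <;> rcases hcase b with rfl | rfl
    · rfl
    · simp only [if_true, h10, if_false]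
      rw [← hu0, ← hu1]
      linear_combination hmain
    · simp only [if_true, h10, if_false]
      rw [← hu0, ← hu1]
      linear_combination -hmain
    · rfl

end FreySH
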