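import Mathlib

/-!
# Module Opa: series of functions `x^A y^B exp(K s)` have a strict derivative

`otm_strict`. PROOF. On `|x|, |y| < exp(-(4 S + 2))`, `|Re s| < S` the terms and their derivatives are bounded by a constant times `exp(-(A + B))` as `|K| ≤ 4 (A + B) + 4`; `hasFDerivAt_tsum_of_isPreconnected`, and the derivative is continuous.
-/

set_option autoImplicit false
open Filter Topology

namespace FreySH


/-- The three variables. -/
abbrev E3 : Type := ℂ × ℂ × ℂ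

/-- The terms `x^A y^B exp(K s)`. -/
noncomputable def otm (A B : ℕ) (K : ℤ) (p : E3) : ℂ :=
  p.1 ^ A * p.2.1 ^ B * Complex.exp (K * p.2.2)

private noncomputable def pr1 : E3 →L[ℂ] ℂ := ContinuousLinearMap.fst ℂ ℂ (ℂ × ℂ)
private noncomputable def pr2 : E3 →L[ℂ] ℂ :=
  (ContinuousLinearMap.fst ℂ ℂ ℂ).comp (ContinuousLinearMap.snd ℂ ℂ (ℂ × ℂ))
private noncomputable def pr3 : E3 →L[ℂ] ℂ :=
  (ContinuousLinearMap.snd ℂ ℂ ℂ).comp (ContinuousLinearMap.snd ℂ ℂ (ℂ × ℂ))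

private theorem pr1_le : ‖pr1‖ ≤ 1 := ContinuousLinearMap.norm_fst_le ..
private theorem pr2_le : ‖pr2‖ ≤ 1 := by
  refine (ContinuousLinearMap.opNorm_comp_le _ _).trans ?_
  have h1 := ContinuousLinearMap.norm_fst_le ℂ ℂ ℂ
  have h2 := ContinuousLinearMap.norm_snd_le ℂ ℂ (ℂ × ℂ)
  have h3 := norm_nonneg (ContinuousLinearMap.snd ℂ ℂ (ℂ × ℂ))
  have h4 := norm_nonneg (ContinuousLinearMap.fst ℂ ℂ ℂ)
  nlinarith
private theorem pr3_le : ‖pr3‖ ≤ 1 := by
  refine (ContinuousLinearMap.opNorm_comp_le _ _).trans ?_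
  have h1 := ContinuousLinearMap.norm_snd_le ℂ ℂ ℂ
  have h2 := ContinuousLinearMap.norm_snd_le ℂ ℂ (ℂ × ℂ)
  have h3 := norm_nonneg (ContinuousLinearMap.snd ℂ ℂ (ℂ × ℂ))
  have h4 := norm_nonneg (ContinuousLinearMap.snd ℂ ℂ ℂ)
  nlinarith

private noncomputable def odr (A B : ℕ) (K : ℤ) (p : E3) : E3 →L[ℂ] ℂ :=
  (A * p.1 ^ (A - 1) * p.2.1 ^ B * Complex.exp (K * p.2.2)) • pr1 +
  (B * p.1 ^ A * p.2.1 ^ (B - 1) * Complex.exp (K * p.2.2)) • pr2 +
  (K * p.1 ^ A * p.2.1 ^ B * Complex.exp (K * p.2.2)) • pr3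

private theorem otm_deriv (A B : ℕ) (K : ℤ) (p : E3) :
    HasFDerivAt (otm A B K) (odr A B K p) p := by
  have h1 : HasFDerivAt (fun p : E3 => p.1) pr1 p := pr1.hasFDerivAt
  have h2 : HasFDerivAt (fun p : E3 => p.2.1) pr2 p := pr2.hasFDerivAt
  have h3 : HasFDerivAt (fun p : E3 => p.2.2) pr3 p := pr3.hasFDerivAt
  have h := ((h1.pow A).mul (h2.pow B)).mul ((h3.const_mul (K : ℂ)).cexp)
  refine h.congr_fderiv ?_
  unfold odr
  ext
  all_goals simp
  all_goals ring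

private theorem odr_cont (A B : ℕ) (K : ℤ) : Continuous (odr A B K) := by
  unfold odr
  fun_prop

private def oU (T S : ℝ) : Set E3 :=
  {p | ‖p.1‖ < Real.exp (-T) ∧ ‖p.2.1‖ < Real.exp (-T) ∧ |p.2.2.re| < S}

private theorem oU_open (T S : ℝ) : IsOpen (oU T S) := by
  unfold oU
  refine IsOpen.and ?_ (IsOpen.and ?_ ?_)
  · exact isOpen_lt (by fun_prop) continuous_const
  · exact isOpen_lt (by fun_prop) continuous_const
  · exact isOpen_lt (by fun_prop) continuous_const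

private theorem oU_conv (T S : ℝ) : Convex ℝ (oU T S) := by
  have hb : ∀ {f : E3 → ℂ}, IsLinearMap ℝ f → ∀ r : ℝ, Convex ℝ {p : E3 | ‖f p‖ < r} := by
    intro f hf r
    have := (convex_ball (0 : ℂ) r).is_linear_preimage hf
    have h2 : f ⁻¹' Metric.ball 0 r = {p : E3 | ‖f p‖ < r} := by
      ext p
      simp
    rwa [h2] at this
  have h : oU T S = {p : E3 | ‖p.1‖ < Real.exp (-T)} ∩
      ({p : E3 | ‖p.2.1‖ < Real.exp (-T)} ∩ {p : E3 | ‖((p.2.2.re : ℝ) : ℂ)‖ < S}) := by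
    ext p
    simp [oU]
  rw [h]
  refine Convex.inter ?_ (Convex.inter ?_ ?_)
  · exact hb (f := fun p : E3 => p.1) ⟨fun _ _ => rfl, fun _ _ => rfl⟩ _
  · exact hb (f := fun p : E3 => p.2.1) ⟨fun _ _ => rfl, fun _ _ => rfl⟩ _
  · exact hb (f := fun p : E3 => ((p.2.2.re : ℝ) : ℂ)) ⟨fun _ _ => by simp, fun _ _ => by simp⟩ _

private theorem odr_le {A B : ℕ} {K : ℤ} {S : ℝ} (hS : 0 < S) (hK : |K| ≤ 4 * (A + B) + 4)
    {p : E3} (hp : p ∈ oU (4 * S + 2) S) :
    ‖odr A B K p‖ ≤ 5 * Real.exp (8 * S + 2) * Real.exp (-(A + B : ℝ)) := by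
  obtain ⟨h1, h2, h3⟩ := hp
  set T : ℝ := 4 * S + 2 with hT
  set N : ℝ := (A : ℝ) + B with hN
  have hKr : |(K : ℝ)| ≤ 4 * N + 4 := by
    have := (Int.cast_le (R := ℝ)).mpr hK
    rw [hN]
    push_cast at this
    exact this
  have hN0 : 0 ≤ N := by positivity
  -- the exponential
  have hexp : ‖Complex.exp (K * p.2.2)‖ ≤ Real.exp ((4 * N + 4) * S) := by
    rw [Complex.norm_exp, Real.exp_le_exp]
    have h4 : ((K : ℂ) * p.2.2).re = (K : ℝ) * p.2.2.re := by
      simp [Complex.mul_re]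
    rw [h4]
    calc (K : ℝ) * p.2.2.re ≤ |(K : ℝ) * p.2.2.re| := le_abs_self _
      _ = |(K : ℝ)| * |p.2.2.re| := abs_mul _ _
      _ ≤ (4 * N + 4) * S := mul_le_mul hKr h3.le (abs_nonneg _) (by positivity)
  have hpow1 : ∀ n : ℕ, ‖p.1‖ ^ n ≤ Real.exp (-T * n) := by
    intro n
    rw [mul_comm, Real.exp_nat_mul]
    exact pow_le_pow_left₀ (norm_nonneg _) h1.le n
  have hpow2 : ∀ n : ℕ, ‖p.2.1‖ ^ n ≤ Real.exp (-T * n) := by
    intro n
    rw [mul_comm, Real.exp_nat_mul]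
    exact pow_le_pow_left₀ (norm_nonneg _) h2.le n
  have hd1 : (A : ℝ) * ‖p.1‖ ^ (A - 1) ≤ A * (Real.exp T * Real.exp (-T * A)) := by
    rcases Nat.eq_zero_or_pos A with h0 | h0
    · simp [h0]
    · refine mul_le_mul_of_nonneg_left ((hpow1 _).trans ?_) (Nat.cast_nonneg _)
      rw [← Real.exp_add, Real.exp_le_exp, Nat.cast_sub h0]
      push_cast
      linarith
  have hd2 : (B : ℝ) * ‖p.2.1‖ ^ (B - 1) ≤ B * (Real.exp T * Real.exp (-T * B)) := by
    rcases Nat.eq_zero_or_pos B with h0 | h0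
    · simp [h0]
    · refine mul_le_mul_of_nonneg_left ((hpow2 _).trans ?_) (Nat.cast_nonneg _)
      rw [← Real.exp_add, Real.exp_le_exp, Nat.cast_sub h0]
      push_cast
      linarith
  have hT0 : 0 ≤ T := by positivity
  have hET : 1 ≤ Real.exp T := Real.one_le_exp hT0
  set X := Real.exp (-T * A) * Real.exp (-T * B) * Real.exp ((4 * N + 4) * S) with hX
  have hX0 : 0 ≤ X := by positivity
  have e1 : ‖(A : ℂ) * p.1 ^ (A - 1) * p.2.1 ^ B * Complex.exp (K * p.2.2)‖ ≤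
      A * (Real.exp T * X) := by
    rw [norm_mul, norm_mul, norm_mul, norm_pow, norm_pow, Complex.norm_natCast]
    calc (A : ℝ) * ‖p.1‖ ^ (A - 1) * ‖p.2.1‖ ^ B * ‖Complex.exp (K * p.2.2)‖
        ≤ (A * (Real.exp T * Real.exp (-T * A))) * Real.exp (-T * B) *
          Real.exp ((4 * N + 4) * S) := by
          gcongr
          exact hpow2 B
      _ = A * (Real.exp T * X) := by rw [hX]; ring
  have e2 : ‖(B : ℂ) * p.1 ^ A * p.2.1 ^ (B - 1) * Complex.exp (K * p.2.2)‖ ≤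
      B * (Real.exp T * X) := by
    rw [norm_mul, norm_mul, norm_mul, norm_pow, norm_pow, Complex.norm_natCast]
    calc (B : ℝ) * ‖p.1‖ ^ A * ‖p.2.1‖ ^ (B - 1) * ‖Complex.exp (K * p.2.2)‖
        = ‖p.1‖ ^ A * (B * ‖p.2.1‖ ^ (B - 1)) * ‖Complex.exp (K * p.2.2)‖ := by ring
      _ ≤ Real.exp (-T * A) * (B * (Real.exp T * Real.exp (-T * B))) *
          Real.exp ((4 * N + 4) * S) := by
          gcongr
          exact hpow1 A
      _ = B * (Real.exp T * X) := by rw [hX]; ring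
  have e3 : ‖(K : ℂ) * p.1 ^ A * p.2.1 ^ B * Complex.exp (K * p.2.2)‖ ≤
      (4 * N + 4) * (Real.exp T * X) := by
    rw [norm_mul, norm_mul, norm_mul, norm_pow, norm_pow, Complex.norm_intCast]
    calc |(K : ℝ)| * ‖p.1‖ ^ A * ‖p.2.1‖ ^ B * ‖Complex.exp (K * p.2.2)‖
        ≤ (4 * N + 4) * Real.exp (-T * A) * Real.exp (-T * B) *
          Real.exp ((4 * N + 4) * S) := by
          gcongr
          · exact hpow1 A
          · exact hpow2 B
      _ = (4 * N + 4) * X := by rw [hX]; ring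
      _ ≤ (4 * N + 4) * (Real.exp T * X) := by
          refine mul_le_mul_of_nonneg_left ?_ (by positivity)
          nlinarith
  have hsum : ‖odr A B K p‖ ≤ (5 * N + 4) * (Real.exp T * X) := by
    unfold odr
    refine (norm_add_le _ _).trans ?_
    refine (add_le_add (norm_add_le _ _) le_rfl).trans ?_
    rw [norm_smul, norm_smul, norm_smul]
    have f1 := mul_le_mul e1 pr1_le (norm_nonneg _) (by positivity)
    have f2 := mul_le_mul e2 pr2_le (norm_nonneg _) (by positivity)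
    have f3 := mul_le_mul e3 pr3_le (norm_nonneg _) (by positivity)
    calc _ ≤ A * (Real.exp T * X) * 1 + B * (Real.exp T * X) * 1 +
        (4 * N + 4) * (Real.exp T * X) * 1 := by gcongr
      _ = (5 * N + 4) * (Real.exp T * X) := by rw [hN]; ring
  have hXe : Real.exp T * X = Real.exp (8 * S + 2) * Real.exp (-2 * N) := by
    rw [hX, ← Real.exp_add, ← Real.exp_add, ← Real.exp_add, ← Real.exp_add]
    congr 1
    rw [hT, hN]
    ring
  rw [hXe] at hsum
  refine hsum.trans ?_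
  have h5 : (5 * N + 4) ≤ 5 * Real.exp N := by
    have := Real.add_one_le_exp N
    linarith
  have h6 : Real.exp (-2 * N) = Real.exp (-N) * Real.exp (-N) := by
    rw [← Real.exp_add]
    congr 1
    ring
  have h7 : Real.exp N * Real.exp (-N) = 1 := by rw [← Real.exp_add]; simp
  calc (5 * N + 4) * (Real.exp (8 * S + 2) * Real.exp (-2 * N))
      ≤ 5 * Real.exp N * (Real.exp (8 * S + 2) * Real.exp (-2 * N)) := by gcongr
    _ = 5 * Real.exp (8 * S + 2) * (Real.exp N * Real.exp (-N)) * Real.exp (-N) := by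
        rw [h6]; ring
    _ = _ := by rw [h7, mul_one]

private theorem otm_le {A B : ℕ} {K : ℤ} {S : ℝ} (hK : |K| ≤ 4 * (A + B) + 4)
    {p : E3} (hp : p ∈ oU (4 * S + 2) S) :
    ‖otm A B K p‖ ≤ Real.exp (4 * S) * Real.exp (-(A + B : ℝ)) := by
  obtain ⟨h1, h2, h3⟩ := hp
  set T : ℝ := 4 * S + 2 with hT
  set N : ℝ := (A : ℝ) + B with hN
  have hKr : |(K : ℝ)| ≤ 4 * N + 4 := by
    have := (Int.cast_le (R := ℝ)).mpr hK
    rw [hN]
    push_cast at this
    exact this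
  have hN0 : 0 ≤ N := by positivity
  have hexp : ‖Complex.exp (K * p.2.2)‖ ≤ Real.exp ((4 * N + 4) * S) := by
    rw [Complex.norm_exp, Real.exp_le_exp]
    have h4 : ((K : ℂ) * p.2.2).re = (K : ℝ) * p.2.2.re := by
      simp [Complex.mul_re]
    rw [h4]
    calc (K : ℝ) * p.2.2.re ≤ |(K : ℝ) * p.2.2.re| := le_abs_self _
      _ = |(K : ℝ)| * |p.2.2.re| := abs_mul _ _
      _ ≤ (4 * N + 4) * S := mul_le_mul hKr h3.le (abs_nonneg _) (by positivity)
  have hpow1 : ‖p.1‖ ^ A ≤ Real.exp (-T * A) := by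
    rw [mul_comm, Real.exp_nat_mul]
    exact pow_le_pow_left₀ (norm_nonneg _) h1.le A
  have hpow2 : ‖p.2.1‖ ^ B ≤ Real.exp (-T * B) := by
    rw [mul_comm, Real.exp_nat_mul]
    exact pow_le_pow_left₀ (norm_nonneg _) h2.le B
  unfold otm
  rw [norm_mul, norm_mul, norm_pow, norm_pow]
  calc ‖p.1‖ ^ A * ‖p.2.1‖ ^ B * ‖Complex.exp (K * p.2.2)‖
      ≤ Real.exp (-T * A) * Real.exp (-T * B) * Real.exp ((4 * N + 4) * S) := by gcongr
    _ = Real.exp (4 * S + -2 * N) := by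
        rw [← Real.exp_add, ← Real.exp_add]
        congr 1
        rw [hT, hN]
        ring
    _ ≤ Real.exp (4 * S) * Real.exp (-N) := by
        rw [← Real.exp_add, Real.exp_le_exp]
        linarith

/-- A series of the functions `otm` has a strict derivative. -/
theorem otm_strict {S : ℝ} (hS : 0 < S) : ∃ U : Set E3, IsOpen U ∧
    (∀ s : ℂ, |s.re| < S → ((0, 0, s) : E3) ∈ U) ∧
    ∀ {α : Type} (A B : α → ℕ) (K : α → ℤ), (∀ n, |K n| ≤ 4 * (A n + B n) + 4) →
      (Summable fun n => Real.exp (-(A n + B n : ℝ))) →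
      (∀ p ∈ U, Summable fun n => ‖otm (A n) (B n) (K n) p‖) ∧
      ∀ p ∈ U, ∃ D : E3 →L[ℂ] ℂ,
        HasStrictFDerivAt (fun p => ∑' n, otm (A n) (B n) (K n) p) D p := by
  refine ⟨oU (4 * S + 2) S, oU_open _ _, fun s hs => ?_, ?_⟩
  · refine ⟨?_, ?_, hs⟩ <;> simpa using Real.exp_pos _
  intro α A B K hK hs
  have hsum : ∀ p ∈ oU (4 * S + 2) S, Summable fun n => ‖otm (A n) (B n) (K n) p‖ := fun p hp =>
    Summable.of_nonneg_of_le (fun _ => norm_nonneg _) (fun n => otm_le (hK n) hp)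
      (hs.mul_left _)
  refine ⟨hsum, fun p hp => ⟨∑' n, odr (A n) (B n) (K n) p, ?_⟩⟩
  have hu : Summable fun n => 5 * Real.exp (8 * S + 2) * Real.exp (-(A n + B n : ℝ)) :=
    hs.mul_left _
  refine hasStrictFDerivAt_of_hasFDerivAt_of_continuousAt
    (f' := fun p => ∑' n, odr (A n) (B n) (K n) p) ?_ ?_
  · filter_upwards [(oU_open _ _).mem_nhds hp] with q hq
    exact hasFDerivAt_tsum_of_isPreconnected hu (oU_open _ _) (oU_conv _ _).isPreconnected
      (fun n x _ => otm_deriv _ _ _ x) (fun n x hx => odr_le hS (hK n) hx) hq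
      (hsum q hq).of_norm hq
  · exact (continuousOn_tsum (fun n => (odr_cont _ _ _).continuousOn) hu
      fun n x hx => odr_le hS (hK n) hx).continuousAt ((oU_open _ _).mem_nhds hp)

end FreySH
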