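import Pool.Agent.Lib.MP_6babc4_nt.SH.Opa
import Pool.Agent.Lib.MP_6babc4_nt.TN.Loc

/-!
# Module Opb: the theta constants of genus two as functions of `x = exp(πi τ₀₀)`, `y = exp(πi τ₁₁)`, `s = πi τ₀₁`

`θ_b = ∑_c χ(b, c) x^(c₀) y^(c₁) P_c(x, y, s)`, the sum over `m ≡ c mod 2`; `P_c` has a strict derivative near `(0, 0, s)` and
`P₀₀ = 1`, `P₁₀ = P₀₁ = 2`, `P₁₁ = 2 exp(2s) + 2 exp(-2s)` at `(0, 0, s)`.
-/

set_option autoImplicit false
open Filter Topology

namespace FreySH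

open FreyTN

/-- The representative `0` or `1`. -/
def par (a : ZMod 2) : ℤ := a.val

theorem par_zero : par 0 = 0 := rfl
theorem par_one : par 1 = 1 := rfl
theorem par_cases (a : ZMod 2) : par a = 0 ∨ par a = 1 := by
  revert a; decide

/-- The exponent `(2m + a)² - a`. -/
def oex (a : ZMod 2) (m : ℤ) : ℕ := ((2 * m + par a) ^ 2 - par a).toNat

theorem oex_cast (a : ZMod 2) (m : ℤ) : ((oex a m : ℕ) : ℤ) = (2 * m + par a) ^ 2 - par a := by
  unfold oex
  rw [Int.toNat_of_nonneg]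
  rcases par_cases a with h | h <;> rw [h]
  · nlinarith [sq_nonneg m]
  · have : 0 ≤ m * (m + 1) := by
      rcases le_or_gt 0 m with h1 | h1
      · positivity
      · nlinarith
    nlinarith

theorem oex_ge (a : ZMod 2) (m : ℤ) : |m| - 1 ≤ (oex a m : ℤ) := by
  rw [oex_cast]
  rcases par_cases a with h | h <;> rw [h]
  · rcases abs_cases m with ⟨h1, h2⟩ | ⟨h1, h2⟩ <;> rw [h1] <;> nlinarith
  · rcases abs_cases m with ⟨h1, h2⟩ | ⟨h1, h2⟩ <;> rw [h1] <;> nlinarith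

/-- The coefficient of `s`. -/
def oK (c : GI 2) (n : ℤ × ℤ) : ℤ := 2 * ((2 * n.1 + par (c 0)) * (2 * n.2 + par (c 1)))

theorem oK_le (c : GI 2) (n : ℤ × ℤ) : |oK c n| ≤ 4 * (oex (c 0) n.1 + oex (c 1) n.2) + 4 := by
  have e1 : (0 : ℤ) ≤ (oex (c 0) n.1 : ℤ) := Int.natCast_nonneg _
  have e2 : (0 : ℤ) ≤ (oex (c 1) n.2 : ℤ) := Int.natCast_nonneg _
  rw [oex_cast] at e1 e2
  rw [oex_cast, oex_cast]
  unfold oK
  set a := 2 * n.1 + par (c 0)
  set b := 2 * n.2 + par (c 1)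
  have h1 : |2 * (a * b)| ≤ a ^ 2 + b ^ 2 := by
    rw [abs_le]
    constructor <;> nlinarith [sq_nonneg (a + b), sq_nonneg (a - b)]
  rcases par_cases (c 0) with h | h <;> rcases par_cases (c 1) with h' | h' <;>
    rw [h] at e1 ⊢ <;> rw [h'] at e2 ⊢ <;> linarith [sq_nonneg a, sq_nonneg b]

private theorem opb_exp : Summable fun m : ℤ => Real.exp (-(|m| : ℝ)) := by
  have hnat : Summable fun n : ℕ => Real.exp (-(|((n : ℤ) : ℝ)|)) := by
    refine Real.summable_exp_neg_nat.congr fun n => ?_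
    simp
  refine Summable.of_nat_of_neg hnat ?_
  refine hnat.congr fun n => ?_
  simp

theorem opb_sum (a b : ZMod 2) :
    Summable fun n : ℤ × ℤ => Real.exp (-((oex a n.1 : ℝ) + (oex b n.2 : ℝ))) := by
  have h := (opb_exp.mul_of_nonneg opb_exp (fun _ => (Real.exp_pos _).le)
    (fun _ => (Real.exp_pos _).le)).mul_left (Real.exp 2)
  refine Summable.of_nonneg_of_le (fun _ => (Real.exp_pos _).le) (fun n => ?_) h
  rw [← Real.exp_add, ← Real.exp_add, Real.exp_le_exp]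
  have h1 : ((|n.1| : ℤ) : ℝ) - 1 ≤ oex a n.1 := by exact_mod_cast oex_ge a n.1
  have h2 : ((|n.2| : ℤ) : ℝ) - 1 ≤ oex b n.2 := by exact_mod_cast oex_ge b n.2
  push_cast at h1 h2
  linarith

/-- The series `P_c`. -/
noncomputable def Pc (c : GI 2) (p : E3) : ℂ :=
  ∑' n : ℤ × ℤ, otm (oex (c 0) n.1) (oex (c 1) n.2) (oK c n) p

/-- The part `m ≡ c mod 2` of the theta series. -/
noncomputable def fc (c : GI 2) (p : E3) : ℂ :=
  p.1 ^ (c 0).val * p.2.1 ^ (c 1).val * Pc c p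

/-- The sign `χ(b, c)`. -/
def chi (b c : GI 2) : ℤ := if ∑ i, b i * c i = 0 then 1 else -1

theorem Pc_strict {S : ℝ} (hS : 0 < S) : ∃ U : Set E3, IsOpen U ∧
    (∀ s : ℂ, |s.re| < S → ((0, 0, s) : E3) ∈ U) ∧ ∀ c : GI 2,
      (∀ p ∈ U, Summable fun n : ℤ × ℤ => ‖otm (oex (c 0) n.1) (oex (c 1) n.2) (oK c n) p‖) ∧
      ∀ p ∈ U, ∃ D : E3 →L[ℂ] ℂ, HasStrictFDerivAt (Pc c) D p := by
  obtain ⟨U, h1, h2, h3⟩ := otm_strict hS
  refine ⟨U, h1, h2, fun c => ?_⟩
  exact h3 (fun n : ℤ × ℤ => oex (c 0) n.1) (fun n : ℤ × ℤ => oex (c 1) n.2) (oK c)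
    (fun n => oK_le c n) (opb_sum (c 0) (c 1))

/-- Splitting the integral vectors by their class modulo two. -/
def opbEquiv : GI 2 × (ℤ × ℤ) ≃ (Fin 2 → ℤ) where
  toFun q := ![2 * q.2.1 + par (q.1 0), 2 * q.2.2 + par (q.1 1)]
  invFun m := (fun i => (m i : ZMod 2), (m 0 / 2, m 1 / 2))
  left_inv := by
    rintro ⟨c, k, l⟩
    have hp : ∀ a : ZMod 2, ((par a : ℤ) : ZMod 2) = a := by decide
    have hd : ∀ (k : ℤ) (a : ZMod 2), (2 * k + par a) / 2 = k := by
      intro k a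
      rcases par_cases a with h | h <;> rw [h] <;> omega
    have h2 : (2 : ZMod 2) = 0 := by decide
    refine Prod.ext ?_ (Prod.ext ?_ ?_)
    · funext i
      fin_cases i
      · simp [hp, h2]
      · simp [hp, h2]
    · simp [hd]
    · simp [hd]
  right_inv := by
    intro m
    have hp : ∀ n : ℤ, 2 * (n / 2) + par (n : ZMod 2) = n := by
      intro n
      rcases Int.even_or_odd' n with ⟨k, h | h⟩
      · have : ((n : ℤ) : ZMod 2) = 0 := by
          rw [h]; push_cast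
          have h2 : (2 : ZMod 2) = 0 := by decide
          rw [h2, zero_mul]
        rw [this, par_zero]; omega
      · have : ((n : ℤ) : ZMod 2) = 1 := by
          rw [h]; push_cast
          have h2 : (2 : ZMod 2) = 0 := by decide
          rw [h2, zero_mul, zero_add]
        rw [this, par_one]; omega
    funext i
    fin_cases i
    · exact hp (m 0)
    · exact hp (m 1)

theorem par_cast (a : ZMod 2) : ((par a : ℤ) : ZMod 2) = a := by revert a; decide

private theorem opb_two : (2 : ZMod 2) = 0 := by decide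

theorem par_eq (a : ZMod 2) : par a = (a.val : ℤ) := rfl

/-- The terms of the theta series. -/
theorem opb_term (τ : Matrix (Fin 2) (Fin 2) ℂ) (hτ : τ.IsSymm) (b : GI 2) (q : GI 2 × (ℤ × ℤ)) :
    (sgn b (opbEquiv q) : ℂ) * Complex.exp (Real.pi * Complex.I * quad τ (opbEquiv q)) =
      (chi b q.1 : ℂ) * (Complex.exp (Real.pi * Complex.I * τ 0 0) ^ (q.1 0).val *
        Complex.exp (Real.pi * Complex.I * τ 1 1) ^ (q.1 1).val *
        otm (oex (q.1 0) q.2.1) (oex (q.1 1) q.2.2) (oK q.1 q.2)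
          (Complex.exp (Real.pi * Complex.I * τ 0 0), Complex.exp (Real.pi * Complex.I * τ 1 1),
            Real.pi * Complex.I * τ 0 1)) := by
  obtain ⟨c, k, l⟩ := q
  have h1 : sgn b (opbEquiv (c, k, l)) = chi b c := by
    unfold sgn chi
    simp [opbEquiv, Fin.sum_univ_two, par_cast, opb_two]
  rw [h1]
  congr 1
  have hs : τ 1 0 = τ 0 1 := by
    have := congrFun (congrFun hτ 0) 1
    simpa [Matrix.transpose_apply] using this
  unfold otm
  rw [← Complex.exp_nat_mul, ← Complex.exp_nat_mul, ← Complex.exp_nat_mul, ← Complex.exp_nat_mul,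
    ← Complex.exp_add, ← Complex.exp_add, ← Complex.exp_add, ← Complex.exp_add]
  congr 1
  have e1 : ((oex (c 0) k : ℕ) : ℂ) = (2 * k + par (c 0)) ^ 2 - par (c 0) := by
    exact_mod_cast congrArg (Int.cast : ℤ → ℂ) (oex_cast (c 0) k)
  have e2 : ((oex (c 1) l : ℕ) : ℂ) = (2 * l + par (c 1)) ^ 2 - par (c 1) := by
    exact_mod_cast congrArg (Int.cast : ℤ → ℂ) (oex_cast (c 1) l)
  have e3 : (((c 0).val : ℕ) : ℂ) = (par (c 0) : ℂ) := by rw [par_eq]; push_cast; rfl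
  have e4 : (((c 1).val : ℕ) : ℂ) = (par (c 1) : ℂ) := by rw [par_eq]; push_cast; rfl
  rw [e1, e2, e3, e4]
  simp only [quad, opbEquiv, Equiv.coe_fn_mk, Fin.sum_univ_two, oK, Matrix.cons_val_zero,
    Matrix.cons_val_one, hs]
  push_cast
  ring

/-- The theta constants of genus two. -/
theorem theta_two (τ : Matrix (Fin 2) (Fin 2) ℂ) (hτ : τ.IsSymm) {U : Set E3}
    (hU : ∀ c : GI 2, ∀ p ∈ U,
      Summable fun n : ℤ × ℤ => ‖otm (oex (c 0) n.1) (oex (c 1) n.2) (oK c n) p‖)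
    (hp : ((Complex.exp (Real.pi * Complex.I * τ 0 0), Complex.exp (Real.pi * Complex.I * τ 1 1),
      Real.pi * Complex.I * τ 0 1) : E3) ∈ U) (b : GI 2) :
    theta τ b = ∑ c, (chi b c : ℂ) * fc c (Complex.exp (Real.pi * Complex.I * τ 0 0),
      Complex.exp (Real.pi * Complex.I * τ 1 1), Real.pi * Complex.I * τ 0 1) := by
  set p : E3 := (Complex.exp (Real.pi * Complex.I * τ 0 0),
    Complex.exp (Real.pi * Complex.I * τ 1 1), Real.pi * Complex.I * τ 0 1) with hpdef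
  set F : GI 2 × (ℤ × ℤ) → ℂ := fun q => (chi b q.1 : ℂ) * (p.1 ^ (q.1 0).val *
    p.2.1 ^ (q.1 1).val * otm (oex (q.1 0) q.2.1) (oex (q.1 1) q.2.2) (oK q.1 q.2) p) with hF
  have hterm : ∀ c : GI 2, Summable fun n : ℤ × ℤ => ‖F (c, n)‖ := by
    intro c
    have h1 := ((hU c p hp).mul_left ‖p.1 ^ (c 0).val * p.2.1 ^ (c 1).val‖).mul_left ‖(chi b c : ℂ)‖
    refine h1.congr fun n => ?_
    rw [hF]
    simp only [norm_mul]
  have hsF : Summable F := by
    refine Summable.of_norm ((summable_prod_of_nonneg (fun _ => norm_nonneg _)).mpr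
      ⟨hterm, (hasSum_fintype _).summable⟩)
  have h2 : theta τ b = ∑' q, F q := by
    unfold theta
    rw [← opbEquiv.tsum_eq]
    exact tsum_congr fun q => opb_term τ hτ b q
  rw [h2, hsF.tsum_prod' fun c => (hterm c).of_norm, tsum_fintype]
  refine Finset.sum_congr rfl fun c _ => ?_
  have h3 : ∀ n : ℤ × ℤ, F (c, n) = ((chi b c : ℂ) * (p.1 ^ (c 0).val * p.2.1 ^ (c 1).val)) *
      otm (oex (c 0) n.1) (oex (c 1) n.2) (oK c n) p := by
    intro n
    rw [hF]
    ring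
  rw [tsum_congr h3, tsum_mul_left]
  unfold fc Pc
  ring

end FreySH
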