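import Mathlib

/-!
# The number of prime ideals containing a natural number
-/

set_option autoImplicit false

open NumberField IsDedekindDomain Module

namespace FreySH

/-- A prime ideal containing `n ≠ 0` contains a prime divisor of `n`. -/
private theorem pcd_exists {R : Type} [CommRing R] (P : Ideal R) (hP : P.IsPrime) :
    ∀ n : ℕ, n ≠ 0 → (n : R) ∈ P → ∃ p ∈ n.primeFactors, (p : R) ∈ P := by
  intro n
  induction n using Nat.strong_induction_on with
  | _ n ih =>
    intro hn hmem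
    by_cases h1 : n = 1
    · exfalso
      rw [h1, Nat.cast_one] at hmem
      exact hP.ne_top ((Ideal.eq_top_iff_one P).2 hmem)
    · have hp := Nat.minFac_prime h1
      obtain ⟨m, hm⟩ := Nat.minFac_dvd n
      have hm0 : m ≠ 0 := by
        rintro rfl
        rw [mul_zero] at hm
        exact hn hm
      have h2 : ((n.minFac * m : ℕ) : R) ∈ P := by rw [← hm]; exact hmem
      rw [Nat.cast_mul] at h2
      rcases hP.mem_or_mem h2 with h3 | h3
      · exact ⟨n.minFac, Nat.mem_primeFactors.2 ⟨hp, Nat.minFac_dvd n, hn⟩, h3⟩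
      · have hlt : m < n := by
          conv_rhs => rw [hm]
          exact lt_mul_of_one_lt_left (Nat.pos_of_ne_zero hm0) hp.one_lt
        obtain ⟨p, hp1, hp2⟩ := ih m hlt hm0 h3
        refine ⟨p, ?_, hp2⟩
        rw [Nat.mem_primeFactors] at hp1 ⊢
        refine ⟨hp1.1, hp1.2.1.trans ⟨n.minFac, ?_⟩, hn⟩
        rw [mul_comm]
        exact hm

private theorem pcd_over (K : Type) [Field K] [NumberField K] {p : ℕ} (hp : p.Prime) :
    ∃ s : Finset (Ideal (𝓞 K)), (∀ P : Ideal (𝓞 K), P.IsPrime → (p : 𝓞 K) ∈ P → P ∈ s) ∧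
      s.card ≤ finrank ℚ K := by
  have hp0 : (Ideal.span {(p : ℤ)}) ≠ ⊥ := by
    rw [Ne, Ideal.span_singleton_eq_bot]
    exact_mod_cast hp.ne_zero
  have hpr : (Ideal.span {(p : ℤ)}).IsPrime := by
    rw [Ideal.span_singleton_prime (by exact_mod_cast hp.ne_zero)]
    exact Nat.prime_iff_prime_int.mp hp
  have hmax : (Ideal.span {(p : ℤ)}).IsMaximal := Ideal.IsPrime.isMaximal hpr hp0
  refine ⟨IsDedekindDomain.primesOverFinset (Ideal.span {(p : ℤ)}) (𝓞 K), ?_, ?_⟩
  · intro P hP hPp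
    rw [IsDedekindDomain.mem_primesOverFinset_iff hp0]
    refine ⟨hP, ⟨?_⟩⟩
    have hle : Ideal.span {(p : ℤ)} ≤ P.under ℤ := by
      rw [Ideal.span_singleton_le_iff_mem, Ideal.under_def, Ideal.mem_comap]
      simpa using hPp
    exact hmax.eq_of_le (Ideal.IsPrime.under ℤ P).ne_top hle
  · rw [Finset.card_eq_sum_ones, ← Ideal.sum_ramification_inertia (𝓞 K) ℚ K hp0]
    refine Finset.sum_le_sum fun P hP => ?_
    have hP' := (IsDedekindDomain.mem_primesOverFinset_iff hp0 _).mp hP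
    have : P.IsPrime := hP'.1
    have : P.LiesOver (Ideal.span {(p : ℤ)}) := hP'.2
    refine Right.one_le_mul ?_ ?_
    · exact Nat.pos_iff_ne_zero.mpr
        (Ideal.IsDedekindDomain.ramificationIdx'_ne_zero_of_liesOver _ hp0)
    · exact Nat.pos_iff_ne_zero.mpr (Ideal.inertiaDeg'_ne_zero _ P)

theorem primes_card (K : Type) [Field K] [NumberField K] {w : ℕ} (hw : w ≠ 0) :
    ∃ s : Finset (HeightOneSpectrum (𝓞 K)), (∀ P, P ∈ s ↔ (w : 𝓞 K) ∈ P.asIdeal) ∧
      s.card ≤ finrank ℚ K * w.primeFactors.card := by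
  classical
  have h1 : ∀ p : ℕ, ∃ s : Finset (Ideal (𝓞 K)), p.Prime →
      (∀ P : Ideal (𝓞 K), P.IsPrime → (p : 𝓞 K) ∈ P → P ∈ s) ∧ s.card ≤ finrank ℚ K := by
    intro p
    by_cases hp : p.Prime
    · obtain ⟨s, hs⟩ := pcd_over K hp
      exact ⟨s, fun _ => hs⟩
    · exact ⟨∅, fun h => absurd h hp⟩
  choose f hf using h1
  have hinj : Function.Injective (fun P : HeightOneSpectrum (𝓞 K) => P.asIdeal) := fun P Q h =>
    HeightOneSpectrum.ext h
  have hmem : ∀ P : HeightOneSpectrum (𝓞 K), (w : 𝓞 K) ∈ P.asIdeal →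
      P.asIdeal ∈ w.primeFactors.biUnion f := by
    intro P hP
    obtain ⟨p, hp, hpP⟩ := pcd_exists P.asIdeal P.isPrime w hw hP
    exact Finset.mem_biUnion.2 ⟨p, hp, (hf p (Nat.prime_of_mem_primeFactors hp)).1 _ P.isPrime hpP⟩
  have hfin : {P : HeightOneSpectrum (𝓞 K) | (w : 𝓞 K) ∈ P.asIdeal}.Finite := by
    refine Set.Finite.of_finite_image (f := fun P => P.asIdeal) ?_ hinj.injOn
    refine (w.primeFactors.biUnion f).finite_toSet.subset ?_
    rintro _ ⟨P, hP, rfl⟩
    exact hmem P hP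
  refine ⟨hfin.toFinset, fun P => by rw [Set.Finite.mem_toFinset]; rfl, ?_⟩
  calc hfin.toFinset.card = (hfin.toFinset.image fun P => P.asIdeal).card :=
        (Finset.card_image_of_injective _ hinj).symm
    _ ≤ (w.primeFactors.biUnion f).card := by
        refine Finset.card_le_card fun I hI => ?_
        obtain ⟨P, hP, rfl⟩ := Finset.mem_image.1 hI
        exact hmem P (hfin.mem_toFinset.1 hP)
    _ ≤ ∑ p ∈ w.primeFactors, (f p).card := Finset.card_biUnion_le
    _ ≤ ∑ _p ∈ w.primeFactors, finrank ℚ K :=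
        Finset.sum_le_sum fun p hp => (hf p (Nat.prime_of_mem_primeFactors hp)).2
    _ = finrank ℚ K * w.primeFactors.card := by
        rw [Finset.sum_const, smul_eq_mul, mul_comm]

end FreySH
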