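import Pool.Agent.Lib.MP_6babc4_nt.SH.Twf
import Pool.Agent.Lib.MP_6babc4_nt.Sp.Bas

/-!
# Module Ptc: the fields of a path are contained in a tower

`path_tow`. PROOF. Induction on the level `j`: a field `F` of a tower with `j * 2^g` steps contains `β i b`, `i ≤ j`.
All `β (j+1) b ^ 2 = 2^g sq (β j) b` lie in `F`; adjoin the `β (j+1) b` one after the other (`2^g` steps; if
`β (j+1) b = 0` adjoin `1`).
-/

set_option autoImplicit false

open NumberField IsDedekindDomain Module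

namespace FreySH

open FreyTN FreyCyc FreySparse

private theorem ptc_step {K F : IntermediateField ℚ ℂ} [NumberField K] [NumberField F] {w m : ℕ}
    (hF : F ∈ Tow K w m) (y : ℂ) (hy : y ^ 2 ∈ F)
    (hsel : y ≠ 0 → ∀ P : HeightOneSpectrum (𝓞 F), (w : 𝓞 F) ∉ P.asIdeal →
      Even (ord P (⟨y ^ 2, hy⟩ : F))) :
    ∃ F' ∈ Tow K w (m + 1), F ≤ F' ∧ y ∈ F' := by
  by_cases h0 : y = 0
  · refine ⟨F ⊔ IntermediateField.adjoin ℚ {(1 : ℂ)}, ⟨F, hF, inferInstance, 1, 1,
      ⟨one_ne_zero, fun P _ => ?_⟩, by simp, rfl⟩, le_sup_left, ?_⟩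
    · rw [ord_one]
      exact Even.zero
    · rw [h0]
      exact zero_mem _
  · refine ⟨F ⊔ IntermediateField.adjoin ℚ {y}, ⟨F, hF, inferInstance, ⟨y ^ 2, hy⟩, y,
      ⟨?_, fun P hP => hsel h0 P hP⟩, rfl, rfl⟩, le_sup_left, ?_⟩
    · intro h
      have h1 := congrArg (fun z : F => (z : ℂ)) h
      exact h0 (pow_eq_zero_iff two_ne_zero |>.1 h1)
    · exact (le_sup_right : IntermediateField.adjoin ℚ {y} ≤ _)
        (IntermediateField.mem_adjoin_simple_self ℚ y)

private theorem ptc_list {ι : Type} [DecidableEq ι] {K F : IntermediateField ℚ ℂ} [NumberField K]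
    {w m : ℕ} (hF : F ∈ Tow K w m) (y : ι → ℂ) (hy : ∀ i, y i ^ 2 ∈ F)
    (hsel : ∀ (F' : IntermediateField ℚ ℂ) [NumberField F'] (_ : K ≤ F') (i : ι)
      (hi : y i ^ 2 ∈ F'), y i ≠ 0 → ∀ P : HeightOneSpectrum (𝓞 F'), (w : 𝓞 F') ∉ P.asIdeal →
        Even (ord P (⟨y i ^ 2, hi⟩ : F'))) (s : Finset ι) :
    ∃ F' ∈ Tow K w (m + s.card), F ≤ F' ∧ ∀ i ∈ s, y i ∈ F' := by
  induction s using Finset.induction_on with
  | empty => exact ⟨F, hF, le_rfl, fun i hi => absurd hi (Finset.notMem_empty i)⟩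
  | insert a s ha ih =>
    obtain ⟨F₁, h1, h2, h3⟩ := ih
    obtain ⟨hK, hN, -⟩ := tow_field _ F₁ h1
    obtain ⟨F₂, h4, h5, h6⟩ := ptc_step h1 (y a) (h2 (hy a))
      (fun h0 P hP => hsel F₁ hK a (h2 (hy a)) h0 P hP)
    refine ⟨F₂, ?_, h2.trans h5, fun i hi => ?_⟩
    · rw [Finset.card_insert_of_notMem ha]
      exact h4
    · rcases Finset.mem_insert.1 hi with rfl | hi
      · exact h6
      · exact h5 (h3 i hi)

theorem path_tow (g k : ℕ) {K : IntermediateField ℚ ℂ} [NumberField K] {w : ℕ}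
    (β : ℕ → GI g → ℂ) (u : GI g → K) (hβ0 : ∀ b, β 0 b = (u b : ℂ))
    (hβ : ∀ j < k, ∀ b, β (j + 1) b ^ 2 = 2 ^ g * sq (β j) b)
    (hev : ∀ (L : Type) [Field L] [NumberField L] [Algebra K L] (ψ : L →ₐ[K] ℂ)
      (P : HeightOneSpectrum (𝓞 L)), (w : 𝓞 L) ∉ P.asIdeal →
        ∀ (a : L), ∀ j < k, ∀ b : GI g, a ≠ 0 → ψ a = β (j + 1) b ^ 2 → Even (ord P a)) :
    ∃ F ∈ Tow K w (k * 2 ^ g), ∀ j ≤ k, ∀ b, β j b ∈ F := by
  classical
  have key : ∀ m ≤ k, ∃ F ∈ Tow K w (m * 2 ^ g), ∀ j ≤ m, ∀ b, β j b ∈ F := by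
    intro m
    induction m with
    | zero =>
      intro _
      refine ⟨K, ?_, fun j hj b => ?_⟩
      · rw [Nat.zero_mul]
        exact rfl
      · rw [Nat.le_zero.1 hj, hβ0 b]
        exact (u b).2
    | succ m ih =>
      intro hm
      obtain ⟨F, hF, hFβ⟩ := ih (by omega)
      have hsqF : ∀ b, β (m + 1) b ^ 2 ∈ F := by
        intro b
        rw [hβ m (by omega) b]
        refine mul_mem (pow_mem (by
          have h2 : (2 : ℂ) = ((2 : ℚ) : ℂ) := by norm_num
          rw [h2]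
          exact F.algebraMap_mem (2 : ℚ)) g) ?_
        unfold FreyTN.sq
        exact sum_mem fun c _ => mul_mem (hFβ m le_rfl c) (hFβ m le_rfl (b + c))
      obtain ⟨F', hF', hle, hmem⟩ := ptc_list hF (β (m + 1)) hsqF
        (fun F' _ hK b hb h0 P hP => by
          let _ : Algebra K F' := (IntermediateField.inclusion hK).toRingHom.toAlgebra
          let ψ : F' →ₐ[K] ℂ :=
            { F'.val.toRingHom with
              commutes' := fun r => rfl }
          refine hev F' ψ P hP ⟨β (m + 1) b ^ 2, hb⟩ m (by omega) b ?_ rfl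
          intro h
          have h1 := congrArg (fun z : F' => (z : ℂ)) h
          exact h0 (pow_eq_zero_iff two_ne_zero |>.1 h1)) Finset.univ
      refine ⟨F', ?_, fun j hj b => ?_⟩
      · have hc : (Finset.univ : Finset (GI g)).card = 2 ^ g := by
          rw [Finset.card_univ]
          simp [ZMod.card]
        rw [hc] at hF'
        rw [Nat.succ_mul]
        exact hF'
      · rcases Nat.lt_or_ge m j with h | h
        · have hj' : j = m + 1 := by omega
          rw [hj']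
          exact hmem b (Finset.mem_univ b)
        · exact hle (hFβ j h b)
  exact key k le_rfl

end FreySH
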