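import Pool.Agent.Lib.MP_6babc4_nt.SH.Defs

/-!
# Fields obtained by square roots, Frey's inequality for points over them: definitions
-/

set_option autoImplicit false

open NumberField IsDedekindDomain Module

namespace FreySH

open FreyTN FreyCyc FreySparse

/-- The subfields of `ℂ` obtained from `K` by `r` square roots. -/
def QTow (K : IntermediateField ℚ ℂ) : ℕ → Set (IntermediateField ℚ ℂ)
  | 0 => {K}
  | r + 1 => {F' | ∃ F ∈ QTow K r, ∃ x : ℂ, x ^ 2 ∈ F ∧ F' = F ⊔ IntermediateField.adjoin ℚ {x}}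

/-- Frey's inequality `h(u) ≤ κ log ∏ N v` for the point `u` of projective space over `F ⊇ K`, the product over
a finite set of bad primes `v` of `K`; `h` is the absolute logarithmic height. -/
def FreyT {g : ℕ} (κ : ℝ) (K : IntermediateField ℚ ℂ) [NumberField K]
    (τ : Matrix (Fin g) (Fin g) ℂ) {F : IntermediateField ℚ ℂ} [NumberField F]
    (u : GI g → F) : Prop :=
  ∃ s : Finset (HeightOneSpectrum (𝓞 K)), (∀ v ∈ s, Bad K τ v) ∧
    Height.logHeight u / finrank ℚ F ≤ κ * Real.log (∏ v ∈ s, (Ideal.absNorm v.asIdeal : ℝ))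

end FreySH
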