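import Pool.Agent.Lib.MP_6babc4_nt.SH.Defs

/-!
# Module Ram: a quadratic extension by the square root of an element of even orders is unramified
-/

set_option autoImplicit false

open NumberField IsDedekindDomain Module

namespace FreySH

open FreyTN FreyCyc FreySparse

private lemma ram_add {L : Type} [Field L] [NumberField L] (P : HeightOneSpectrum (𝓞 L)) {x y : L}
    (hx : x ≠ 0) (hy : y ≠ 0) (h : ord P x < ord P y) : x + y ≠ 0 ∧ ord P (x + y) = ord P x := by
  have hne : x + y ≠ 0 := by
    intro h0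
    have h1 : x = -y := eq_neg_of_add_eq_zero_left h0
    rw [h1, ord_neg] at h
    exact lt_irrefl _ h
  refine ⟨hne, ?_⟩
  have h1 := le_ord_add P hx hy hne
  have h2 := le_ord_add P hne (neg_ne_zero.2 hy) (by rw [add_neg_cancel_right]; exact hx)
  rw [add_neg_cancel_right, ord_neg] at h2
  omega

private lemma ram_exists {L : Type} [Field L] [NumberField L] (P : HeightOneSpectrum (𝓞 L))
    (k : ℤ) : ∃ c : L, c ≠ 0 ∧ ord P c = k := by
  obtain ⟨π, hπ⟩ := P.valuation_exists_uniformizer L
  have hπ0 : π ≠ 0 := by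
    intro h0
    rw [h0, map_zero] at hπ
    exact WithZero.coe_ne_zero hπ.symm
  refine ⟨π ^ k, zpow_ne_zero k hπ0, ?_⟩
  unfold ord
  rw [map_zpow₀, WithZero.log_zpow, hπ, WithZero.log_exp, smul_eq_mul]
  ring

theorem odd_ram {F L : Type} [Field F] [NumberField F] [Field L] [NumberField L] [Algebra F L]
    {w : ℕ} (h2 : 2 ∣ w) {b : F} (hb : InSel w b) {x : L} (hx : x ^ 2 = algebraMap F L b)
    (htop : ∀ y : L, ∃ p q : F, y = algebraMap F L p + algebraMap F L q * x)
    {P : HeightOneSpectrum (𝓞 L)} (hP : (w : 𝓞 L) ∉ P.asIdeal) {v : HeightOneSpectrum (𝓞 F)}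
    (hv : Above v P) {e : ℕ} (he : ∀ c : F, ord P (algebraMap F L c) = e * ord v c) :
    Odd e := by
  by_contra hodd
  rw [Nat.not_odd_iff_even] at hodd
  obtain ⟨f, hf⟩ := hodd
  -- all orders of elements of `F` are even
  have hev : ∀ c : F, ord P (algebraMap F L c) = 2 * (f * ord v c) := by
    intro c
    rw [he c, hf]
    push_cast
    ring
  have hwv : (w : 𝓞 F) ∉ v.asIdeal := by
    intro hw
    have h1 := (mem_iff_of_above hv (w : 𝓞 F)).mpr hw
    rw [map_natCast] at h1
    exact hP h1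
  obtain ⟨k, hk⟩ := hb.2 v hwv
  obtain ⟨c, hc0, hc⟩ := ram_exists v k
  have hinj := (algebraMap F L).injective
  have hcL : algebraMap F L c ≠ 0 := (map_ne_zero _).2 hc0
  have hbL : algebraMap F L b ≠ 0 := (map_ne_zero _).2 hb.1
  have hx0 : x ≠ 0 := by
    intro h0
    rw [h0, zero_pow (by norm_num)] at hx
    exact hbL hx.symm
  -- the unit `x1`
  have hordx : ord P x = ord P (algebraMap F L c) := by
    have h1 := ord_pow P hx0 2
    rw [hx, he b, hk] at h1
    rw [he c, hc]
    push_cast at h1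
    have h3 : (e : ℤ) * (k + k) = 2 * (e * k) := by ring
    omega
  obtain ⟨x1, hx1⟩ : ∃ x1 : L, x1 = x / algebraMap F L c := ⟨_, rfl⟩
  have hx10 : x1 ≠ 0 := by rw [hx1]; exact div_ne_zero hx0 hcL
  have hxx1 : x = algebraMap F L c * x1 := by rw [hx1]; field_simp
  have hordx1 : ord P x1 = 0 := by
    have h1 := ord_mul P hcL hx10
    rw [← hxx1, hordx] at h1
    omega
  have hx1sq : x1 ^ 2 = algebraMap F L (b / c ^ 2) := by
    rw [hx1, div_pow, hx, map_div₀, map_pow]
  -- a uniformizer
  obtain ⟨u₀, hu0, hu⟩ := ram_exists P 1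
  obtain ⟨p, q, hpq⟩ := htop u₀
  have hu' : u₀ = algebraMap F L p + algebraMap F L (q * c) * x1 := by
    rw [hpq, map_mul, mul_assoc, ← hxx1]
  obtain ⟨r, hr⟩ : ∃ r : F, r = q * c := ⟨_, rfl⟩
  rw [← hr] at hu'
  have hp0 : p ≠ 0 := by
    intro h0
    rw [h0, map_zero, zero_add] at hu'
    have hr0 : algebraMap F L r ≠ 0 := by
      intro h1
      rw [h1, zero_mul] at hu'
      exact hu0 hu'
    have h1 := ord_mul P hr0 hx10
    rw [← hu', hu, hordx1, hev] at h1
    omega
  have hr0 : r ≠ 0 := by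
    intro h0
    rw [h0, map_zero, zero_mul, add_zero] at hu'
    have h1 := hev p
    rw [← hu', hu] at h1
    omega
  have hpL : algebraMap F L p ≠ 0 := (map_ne_zero _).2 hp0
  have hrL : algebraMap F L r ≠ 0 := (map_ne_zero _).2 hr0
  have hrx : algebraMap F L r * x1 ≠ 0 := mul_ne_zero hrL hx10
  have hordrx : ord P (algebraMap F L r * x1) = ord P (algebraMap F L r) := by
    rw [ord_mul P hrL hx10, hordx1, add_zero]
  have heq : ord P (algebraMap F L p) = ord P (algebraMap F L r) := by
    rcases lt_trichotomy (ord P (algebraMap F L p)) (ord P (algebraMap F L r)) with h | h | h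
    · exfalso
      have h1 := (ram_add P hpL hrx (by rw [hordrx]; exact h)).2
      rw [← hu', hu, hev] at h1
      omega
    · exact h
    · exfalso
      have h1 := (ram_add P hrx hpL (by rw [hordrx]; exact h)).2
      rw [add_comm, ← hu', hu, hordrx, hev] at h1
      omega
  have hle : ord P (algebraMap F L r) ≤ 0 := by
    have h1 := le_ord_add P hpL hrx (by rw [← hu']; exact hu0)
    rw [← hu', hu, hordrx, heq, min_self] at h1
    have h3 := hev r
    omega
  -- the quotients
  obtain ⟨p1, hp1⟩ : ∃ p1 : F, p1 = p / r := ⟨_, rfl⟩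
  have hp10 : p1 ≠ 0 := by rw [hp1]; exact div_ne_zero hp0 hr0
  have hp1L : algebraMap F L p1 ≠ 0 := (map_ne_zero _).2 hp10
  have hpp1 : algebraMap F L p = algebraMap F L r * algebraMap F L p1 := by
    rw [← map_mul, hp1]
    congr 1
    field_simp
  have hordp1 : ord P (algebraMap F L p1) = 0 := by
    have h1 := ord_mul P hrL hp1L
    rw [← hpp1, heq] at h1
    omega
  have hsum : u₀ = algebraMap F L r * (algebraMap F L p1 + x1) := by
    rw [hu', hpp1]
    ring
  have hs0 : algebraMap F L p1 + x1 ≠ 0 := by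
    intro h0
    rw [h0, mul_zero] at hsum
    exact hu0 hsum
  have hords : ord P (algebraMap F L p1 + x1) = 1 - ord P (algebraMap F L r) := by
    have h1 := ord_mul P hrL hs0
    rw [← hsum, hu] at h1
    omega
  -- `2` is a unit at `P`
  have h2P : (2 : 𝓞 L) ∉ P.asIdeal := by
    intro h
    apply hP
    obtain ⟨z, hz⟩ := h2
    rw [hz]
    push_cast
    exact Ideal.mul_mem_right _ _ h
  have h2L : (2 : L) ≠ 0 := two_ne_zero
  have hord2 : ord P (2 : L) = 0 := by
    have h1 := ord_nonneg P (2 : 𝓞 L)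
    have h3 := (ord_pos_iff P (α := (2 : 𝓞 L)) two_ne_zero).not.2 h2P
    have h4 : algebraMap (𝓞 L) L (2 : 𝓞 L) = (2 : L) := map_ofNat _ 2
    rw [h4] at h1 h3
    omega
  have h2p : (2 : L) * algebraMap F L p1 ≠ 0 := mul_ne_zero h2L hp1L
  have hord2p : ord P ((2 : L) * algebraMap F L p1) = 0 := by
    rw [ord_mul P h2L hp1L, hord2, hordp1, add_zero]
  have hd := ram_add P h2p (neg_ne_zero.2 hs0) (by rw [ord_neg, hord2p, hords]; omega)
  have hdeq : (2 : L) * algebraMap F L p1 + -(algebraMap F L p1 + x1) =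
      algebraMap F L p1 - x1 := by ring
  rw [hdeq, hord2p] at hd
  -- the product
  have hprod : (algebraMap F L p1 + x1) * (algebraMap F L p1 - x1) =
      algebraMap F L (p1 ^ 2 - b / c ^ 2) := by
    rw [map_sub, map_pow, ← hx1sq]
    ring
  have h5 := ord_mul P hs0 hd.1
  rw [hprod, hev, hords, hd.2, hev] at h5
  omega

end FreySH
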