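import Pool.Agent.Lib.MP_6babc4_nt.SH.Defs
import Pool.Agent.Lib.MP_6babc4_nt.Cyc.Kum
import Pool.Agent.Lib.MP_6babc4_nt.Cyc.Fld

/-!
# Module Se2: the classes for `w = 2`

PROOF. Fix an embedding `φ` of `K`. For `a` of even order at the primes not over `2` and not a square,
`E' = K(√a)` has degree at most `2 d` and discriminant at most `(|D| 4^d)²` (`kummer_step`), so its image
under an extension of `φ` is `ℚ(θ)` with `θ ∈ AlgInt (2 d) (C |D| 4^d)` (`field_in_C`). The field `ℚ(θ)`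
determines the class of `a`: if `√a = p + q √a₁` then `p q = 0`, so `a = q² a₁`. Count the `θ`
(`algInt_card`).
-/

set_option autoImplicit false

open NumberField IsDedekindDomain Module

namespace FreySH

open FreyTN FreyCyc FreySparse

/-- The field `ℚ(θ)` is `φ(K)(√a)`. -/
private def se2_Rel {K : Type} [Field K] (φ : K →+* ℂ) (θ : ℂ) (a : K) : Prop :=
  ¬ IsSquare a ∧ ∃ x ∈ IntermediateField.adjoin ℚ {θ}, x ^ 2 = φ a ∧
    ∀ z ∈ IntermediateField.adjoin ℚ {θ}, ∃ p q : K, z = φ p + φ q * x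

private theorem se2_uniq {K : Type} [Field K] (φ : K →+* ℂ) {θ : ℂ} {a a₁ : K}
    (h : se2_Rel φ θ a) (h₁ : se2_Rel φ θ a₁) : ∃ b : K, b ≠ 0 ∧ a = a₁ * b ^ 2 := by
  obtain ⟨hns, x, hx, hxa, -⟩ := h
  obtain ⟨hns₁, x₁, -, hxa₁, hsp⟩ := h₁
  obtain ⟨p, q, hpq⟩ := hsp x hx
  have hinj : Function.Injective φ := φ.injective
  have hexp : φ a = φ p ^ 2 + φ q ^ 2 * φ a₁ + 2 * φ p * φ q * x₁ := by
    rw [← hxa, hpq, ← hxa₁]
    ring
  by_cases hq : q = 0
  · exfalso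
    apply hns
    refine ⟨p, hinj ?_⟩
    rw [hexp, hq, map_zero, map_mul]
    ring
  by_cases hp : p = 0
  · refine ⟨q, hq, hinj ?_⟩
    rw [hexp, hp, map_zero, map_mul, map_pow]
    ring
  exfalso
  apply hns₁
  have hp' : φ p ≠ 0 := by
    rwa [ne_eq, map_eq_zero]
  have hq' : φ q ≠ 0 := by
    rwa [ne_eq, map_eq_zero]
  have hx₁ : x₁ = φ ((a - p ^ 2 - q ^ 2 * a₁) / (2 * p * q)) := by
    rw [map_div₀, map_sub, map_sub, map_mul, map_mul, map_mul, map_pow, map_pow, map_ofNat, hexp,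
      eq_div_iff (mul_ne_zero (mul_ne_zero two_ne_zero hp') hq')]
    ring
  refine ⟨(a - p ^ 2 - q ^ 2 * a₁) / (2 * p * q), hinj ?_⟩
  rw [map_mul, ← hx₁, ← hxa₁, pow_two]

private theorem se2_exists (d : ℕ) : ∃ C : ℝ, 1 ≤ C ∧ ∀ (K : Type) [Field K] [NumberField K],
    finrank ℚ K ≤ d → ∀ (φ : K →+* ℂ) (a : K), InSel 2 a → ¬ IsSquare a →
      ∃ θ ∈ AlgInt (2 * d) (C * (|(discr K : ℝ)| * 4 ^ d)), se2_Rel φ θ a := by
  obtain ⟨C, hC, hF⟩ := field_in_C (2 * d)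
  refine ⟨C, hC, fun K _ _ hKd φ a ha hns => ?_⟩
  obtain ⟨E', _, _, _, x, hx, hdeg, hdis⟩ := kummer_step (q := 2) two_pos (E := K) (ζ := -1)
    (IsPrimitiveRoot.neg_one 0 (by decide)) ha.1 (w := 2) two_ne_zero dvd_rfl (fun P hP =>
      (ha.2 P hP).two_dvd)
  have hD1 : (1 : ℝ) ≤ |(discr K : ℝ)| := by
    have h := Int.one_le_abs (discr_ne_zero K)
    exact_mod_cast h
  have hdis' : √|(discr E' : ℝ)| ≤ |(discr K : ℝ)| * 4 ^ d := by
    rw [Real.sqrt_le_left (by positivity)]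
    refine hdis.trans ?_
    norm_num
    gcongr
    norm_num
  have hE'd : finrank ℚ E' ≤ 2 * d := hdeg.trans (Nat.mul_le_mul_left _ hKd)
  -- extend the embedding
  have : FiniteDimensional K E' := Module.Finite.of_restrictScalars_finite ℚ K E'
  let _ : Algebra K ℂ := φ.toAlgebra
  obtain ⟨ψ⟩ : Nonempty (E' →ₐ[K] ℂ) := ⟨IsAlgClosed.lift⟩
  have hψ : ∀ c : K, ψ (algebraMap K E' c) = φ c := fun c => ψ.commutes c
  obtain ⟨θ, hθ, hadj⟩ := hF E' hE'd (ψ : E' →+* ℂ)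
  refine ⟨θ, ?_, hns, ψ x, ?_, ?_, ?_⟩
  · obtain ⟨h1, h2, h3⟩ := hθ
    exact ⟨h1, h2, fun w hw => (h3 w hw).trans (mul_le_mul_of_nonneg_left hdis' (by linarith))⟩
  · rw [hadj]
    exact ⟨x, rfl⟩
  · rw [← map_pow, hx, hψ]
  · intro z hz
    obtain ⟨y, rfl⟩ := (hadj z).1 hz
    -- `1, x` is a basis
    have hK0 : 0 < finrank ℚ K := finrank_pos
    have hfr : finrank K E' ≤ 2 := by
      rw [← finrank_mul_finrank ℚ K E', mul_comm 2] at hdeg
      exact Nat.le_of_mul_le_mul_left hdeg hK0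
    have hli : LinearIndependent K ![(1 : E'), x] := by
      rw [LinearIndependent.pair_iff]
      intro s t hst
      have ht : t = 0 := by
        by_contra ht
        apply hns
        have h1 : x = algebraMap K E' (-s / t) := by
          rw [map_div₀, map_neg, eq_div_iff ((map_ne_zero _).2 ht)]
          rw [Algebra.smul_def, Algebra.smul_def, mul_one] at hst
          linear_combination hst
        refine ⟨-s / t, FaithfulSMul.algebraMap_injective K E' ?_⟩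
        rw [map_mul, ← h1, ← hx, pow_two]
      refine ⟨?_, ht⟩
      rw [ht, zero_smul, add_zero] at hst
      exact (smul_eq_zero.1 hst).resolve_right one_ne_zero
    have hspan : Submodule.span K (Set.range ![(1 : E'), x]) = ⊤ := by
      apply hli.span_eq_top_of_card_eq_finrank'
      have h1 := hli.fintype_card_le_finrank
      rw [Fintype.card_fin] at h1 ⊢
      omega
    have hy : y ∈ Submodule.span K (Set.range ![(1 : E'), x]) := by
      rw [hspan]
      exact Submodule.mem_top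
    rw [Matrix.range_cons, Matrix.range_cons, Matrix.range_empty, Set.union_empty,
      Set.singleton_union, Submodule.mem_span_pair] at hy
    obtain ⟨p, q, hpq⟩ := hy
    refine ⟨p, q, ?_⟩
    change ψ y = _
    rw [← hpq, map_add, Algebra.smul_def, Algebra.smul_def, map_mul, map_mul, map_one, mul_one,
      hψ, hψ]

theorem sel_two (d : ℕ) : ∃ (A : ℕ) (C : ℝ), 1 ≤ C ∧ ∀ (K : Type) [Field K] [NumberField K],
    finrank ℚ K ≤ d → ∃ n : ℕ, 1 ≤ n ∧ (n : ℝ) ≤ C * |(discr K : ℝ)| ^ A ∧ SelLe K 2 n := by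
  classical
  obtain ⟨C₀, hC₀, hex⟩ := se2_exists d
  obtain ⟨B, hB, hcard⟩ := algInt_card (2 * d)
  obtain ⟨e, he⟩ : ∃ e : ℕ, e = 2 * d * (2 * d + 1) := ⟨_, rfl⟩
  rw [← he] at hcard
  refine ⟨e, 1 + B * (C₀ * 4 ^ d) ^ e, ?_, fun K _ _ hKd => ?_⟩
  · have h1 : 0 ≤ B * (C₀ * 4 ^ d) ^ e := by positivity
    linarith
  have hD1 : (1 : ℝ) ≤ |(discr K : ℝ)| := by
    have h := Int.one_le_abs (discr_ne_zero K)
    exact_mod_cast h
  obtain ⟨φ⟩ : Nonempty (K →+* ℂ) := inferInstance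
  obtain ⟨Y, hY⟩ : ∃ Y : ℝ, Y = C₀ * (|(discr K : ℝ)| * 4 ^ d) := ⟨_, rfl⟩
  have hY1 : 1 ≤ Y := by
    rw [hY]
    exact one_le_mul_of_one_le_of_one_le hC₀
      (one_le_mul_of_one_le_of_one_le hD1 (one_le_pow₀ (by norm_num)))
  obtain ⟨hfin, hc⟩ := hcard Y hY1
  have hexK := hex K hKd φ
  rw [← hY] at hexK
  obtain ⟨S, hS⟩ : ∃ S : Finset ℂ, S = hfin.toFinset := ⟨_, rfl⟩
  have hScard : (S.card : ℝ) ≤ B * Y ^ e := by
    rw [hS, ← Set.ncard_eq_toFinset_card _ hfin]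
    exact hc
  -- the representatives
  have h1 : InSel 2 (1 : K) := by
    refine ⟨one_ne_zero, fun P _ => ?_⟩
    have h2 : ord P (1 : K) = 0 := by
      unfold ord
      rw [map_one, WithZero.log_one, neg_zero]
    rw [h2]
    exact Even.zero
  have hch : ∀ θ : ℂ, ∃ r : K, InSel 2 r ∧
      ((∃ a : K, InSel 2 a ∧ se2_Rel φ θ a) → se2_Rel φ θ r) := by
    intro θ
    by_cases h : ∃ a : K, InSel 2 a ∧ se2_Rel φ θ a
    · obtain ⟨a, ha, hr⟩ := h
      exact ⟨a, ha, fun _ => hr⟩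
    · exact ⟨1, h1, fun h' => absurd h' h⟩
  choose f hf using hch
  refine ⟨1 + S.card, by omega, ?_, insert 1 (S.image f), ?_, ?_, ?_⟩
  · have h2 : (1 : ℝ) ≤ |(discr K : ℝ)| ^ e := one_le_pow₀ hD1
    have h3 : Y ^ e = (C₀ * 4 ^ d) ^ e * |(discr K : ℝ)| ^ e := by
      rw [hY, ← mul_pow]
      congr 1
      ring
    rw [h3] at hScard
    push_cast
    nlinarith
  · refine (Finset.card_insert_le _ _).trans ?_
    rw [add_comm]
    exact Nat.add_le_add_left Finset.card_image_le _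
  · intro r hr
    rcases Finset.mem_insert.1 hr with rfl | hr
    · exact h1
    · obtain ⟨θ, -, rfl⟩ := Finset.mem_image.1 hr
      exact (hf θ).1
  · intro a ha
    by_cases hsq : IsSquare a
    · obtain ⟨b, rfl⟩ := hsq
      refine ⟨1, Finset.mem_insert_self _ _, b, ?_, by ring⟩
      rintro rfl
      exact ha.1 (mul_zero 0)
    · obtain ⟨θ, hθ, hrel⟩ := hexK a ha hsq
      refine ⟨f θ, Finset.mem_insert_of_mem (Finset.mem_image_of_mem f ?_), ?_⟩
      · rw [hS, Set.Finite.mem_toFinset]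
        exact hθ
      · exact se2_uniq φ hrel ((hf θ).2 ⟨a, ha, hrel⟩)

end FreySH
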