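import Pool.Agent.Lib.MP_6babc4_nt.SH.Vdv

/-!
# Classes of proportional vectors of integers of comparable conjugates
-/

set_option autoImplicit false

open NumberField Module UniqueFactorizationMonoid

namespace FreySH

variable (K : Type*) [Field K] [NumberField K]

/-- The integers of comparable conjugates dividing `a`: `O(N(a)^ε)`. -/
private lemma vcl_elems {c₁ c₂ ε : ℝ} (hc₁ : 0 < c₁) (hc₂ : 0 < c₂) (hε : 0 < ε) :
    ∃ C : ℝ, 1 ≤ C ∧ ∀ m : ℝ, 0 < m → ∀ a : 𝓞 K, a ≠ 0 → ∀ T : Finset (𝓞 K),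
      (∀ z ∈ T, z ∣ a ∧ ∀ σ : K →+* ℂ, c₁ * m ≤ ‖σ z‖ ∧ ‖σ z‖ ≤ c₂ * m) →
        (T.card : ℝ) ≤ C * ((Ideal.absNorm (Ideal.span {a}) : ℕ) : ℝ) ^ ε := by
  classical
  obtain ⟨C, hC1, hC⟩ := vdv_divisors K hε
  have hfin := NumberField.Embeddings.finite_of_norm_le K ℂ (c₂ / c₁)
  set U := hfin.toFinset with hU
  refine ⟨((U.card : ℝ) + 1) * C, ?_, fun m hm a ha T hT => ?_⟩
  · have : (0 : ℝ) ≤ U.card := by positivity
    nlinarith
  have h1 : T.card ≤ (U.card + 1) * (T.image (fun z => Ideal.span {z})).card := by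
    refine Finset.card_le_mul_card_image T (U.card + 1) ?_
    intro I hI
    rw [Finset.mem_image] at hI
    obtain ⟨z₀, hz₀, rfl⟩ := hI
    have hz0 : z₀ ≠ 0 := fun h => by
      have := (hT z₀ hz₀).1
      rw [h, zero_dvd_iff] at this
      exact ha this
    have hzK : (z₀ : K) ≠ 0 := by
      intro h
      exact hz0 (by exact_mod_cast h)
    refine (Finset.card_le_card_of_injOn (t := U) (fun z : 𝓞 K => (z : K) / (z₀ : K)) ?_ ?_).trans
      (Nat.le_succ _)
    · intro z hz
      simp only [Finset.coe_filter, Set.mem_ofPred_eq] at hz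
      obtain ⟨hzT, hzs⟩ := hz
      rw [hU]
      simp only [Set.Finite.coe_toFinset, Set.mem_ofPred_eq]
      rw [Ideal.span_singleton_eq_span_singleton] at hzs
      obtain ⟨u, hu⟩ := hzs.symm
      have h2 : (z : K) / (z₀ : K) = ((u : 𝓞 K) : K) := by
        rw [div_eq_iff hzK, ← hu]
        push_cast
        ring
      refine ⟨?_, fun σ => ?_⟩
      · rw [h2]
        exact RingOfIntegers.isIntegral_coe _
      · rw [map_div₀, norm_div]
        have h3 := (hT z hzT).2 σ
        have h4 := (hT z₀ hz₀).2 σ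
        have h5 : 0 < ‖σ (z₀ : K)‖ := lt_of_lt_of_le (by positivity) h4.1
        rw [div_le_div_iff₀ h5 hc₁]
        have h6 : 0 ≤ ‖σ (z : K)‖ := norm_nonneg _
        calc ‖σ (z : K)‖ * c₁ ≤ (c₂ * m) * c₁ := mul_le_mul_of_nonneg_right h3.2 hc₁.le
          _ = c₂ * (c₁ * m) := by ring
          _ ≤ c₂ * ‖σ (z₀ : K)‖ := mul_le_mul_of_nonneg_left h4.1 hc₂.le
    · intro z hz z' hz' h
      simp only at h
      rw [div_left_inj' hzK] at h
      exact_mod_cast h
  have h2 : ((T.image (fun z => Ideal.span {z})).card : ℝ) ≤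
      C * ((Ideal.absNorm (Ideal.span {a}) : ℕ) : ℝ) ^ ε := by
    refine hC _ (by simpa using ha) _ ?_
    intro I hI
    rw [Finset.mem_image] at hI
    obtain ⟨z, hz, rfl⟩ := hI
    rw [Ideal.dvd_iff_le, Ideal.span_singleton_le_span_singleton]
    exact (hT z hz).1
  calc (T.card : ℝ) ≤ ((U.card : ℝ) + 1) * ((T.image (fun z => Ideal.span {z})).card : ℝ) := by
        exact_mod_cast h1
    _ ≤ ((U.card : ℝ) + 1) * (C * ((Ideal.absNorm (Ideal.span {a}) : ℕ) : ℝ) ^ ε) :=
        mul_le_mul_of_nonneg_left h2 (by positivity)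
    _ = _ := by ring

private lemma vcl_norm {c m : ℝ} (hc : 0 ≤ c * m) {a : 𝓞 K} (ha : ∀ σ : K →+* ℂ, ‖σ a‖ ≤ c * m) :
    ((Ideal.absNorm (Ideal.span {a}) : ℕ) : ℝ) ≤ (c * m) ^ finrank ℚ K := by
  rw [Ideal.absNorm_span_singleton]
  have h1 : ((Algebra.norm ℤ a).natAbs : ℝ) = ‖(algebraMap ℚ ℂ (Algebra.norm ℚ (a : K)))‖ := by
    rw [← Algebra.coe_norm_int]
    simp [Nat.cast_natAbs]
  rw [h1, Algebra.norm_eq_prod_embeddings, norm_prod]
  calc ∏ σ : K →ₐ[ℚ] ℂ, ‖σ (a : K)‖ ≤ ∏ _σ : K →ₐ[ℚ] ℂ, (c * m) :=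
        Finset.prod_le_prod (fun _ _ => norm_nonneg _) (fun σ _ => ha σ.toRingHom)
    _ = (c * m) ^ finrank ℚ K := by
        rw [Finset.prod_const, Finset.card_univ, AlgHom.card]

/-- Vectors of integers with comparable conjugates: the classes modulo proportionality are many. -/
theorem vcl_classes {ι : Type*} [Fintype ι] [DecidableEq ι] {i₀ i₁ : ι} (h01 : i₀ ≠ i₁)
    {c₁ c₂ ε : ℝ} (hc₁ : 0 < c₁) (hc₂ : 0 < c₂) (hε : 0 < ε) :
    ∃ C : ℝ, 1 ≤ C ∧ ∀ m : ℝ, 1 ≤ m → ∀ A : ι → Finset (𝓞 K),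
      (∀ i, ∀ z ∈ A i, ∀ σ : K →+* ℂ, c₁ * m ≤ ‖σ z‖ ∧ ‖σ z‖ ≤ c₂ * m) →
      ∃ S : Finset (ι → 𝓞 K), (∀ x ∈ S, ∀ i, x i ∈ A i) ∧
        (∀ x ∈ S, ∀ y ∈ S, x ≠ y → ∃ i j, x i * y j ≠ x j * y i) ∧
        (∏ i, ((A i).card : ℝ)) ≤ C * m ^ ε * S.card := by
  classical
  set d : ℕ := finrank ℚ K with hd
  have hdpos : 0 < d := finrank_pos
  have hd' : (0 : ℝ) < d := by exact_mod_cast hdpos
  have hε' : 0 < ε / (2 * d) := by positivity
  obtain ⟨C, hC1, hC⟩ := vcl_elems K hc₁ hc₂ hε'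
  refine ⟨C * max 1 (c₂ ^ ε), ?_, fun m hm A hA => ?_⟩
  · have : (1 : ℝ) ≤ max 1 (c₂ ^ ε) := le_max_left _ _
    nlinarith
  have hm0 : 0 < m := by linarith
  -- nonzero entries
  have hne : ∀ i, ∀ z ∈ A i, (z : K) ≠ 0 := by
    intro i z hz h
    have σ : K →+* ℂ := Classical.choice inferInstance
    have h1 := (hA i z hz σ).1
    rw [h, map_zero, norm_zero] at h1
    have : 0 < c₁ * m := by positivity
    linarith
  set X : Finset (ι → 𝓞 K) := Fintype.piFinset A with hX
  set f : (ι → 𝓞 K) → (ι → K) := fun x i => (x i : K) / (x i₀ : K) with hf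
  set F : Finset (ι → K) := X.image f with hF
  have hmemX : ∀ x, x ∈ X ↔ ∀ i, x i ∈ A i := fun x => Fintype.mem_piFinset
  -- the number of divisors
  set Λ : ℕ := ⌊C * max 1 (c₂ ^ ε) * m ^ ε⌋₊ with hΛ
  have hT : ∀ u ∈ X, ((A i₀).filter (fun z => z ∣ u i₀ * u i₁)).card ≤ Λ := by
    intro u hu
    rw [hmemX] at hu
    rw [hΛ]
    apply Nat.le_floor
    have ha : u i₀ * u i₁ ≠ 0 := by
      have h1 : (u i₀ : K) ≠ 0 := hne _ _ (hu i₀)
      have h2 : (u i₁ : K) ≠ 0 := hne _ _ (hu i₁)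
      intro h
      have h3 : ((u i₀ * u i₁ : 𝓞 K) : K) = 0 := by rw [h]; simp
      push_cast at h3
      rcases mul_eq_zero.mp h3 with h4 | h4
      · exact h1 h4
      · exact h2 h4
    refine (hC m hm0 (u i₀ * u i₁) ha _ ?_).trans ?_
    · intro z hz
      rw [Finset.mem_filter] at hz
      exact ⟨hz.2, hA _ _ hz.1⟩
    · rw [mul_assoc]
      refine mul_le_mul_of_nonneg_left ?_ (by linarith)
      have h1 : ((Ideal.absNorm (Ideal.span {u i₀ * u i₁}) : ℕ) : ℝ) ≤
          ((c₂ * m) * (c₂ * m)) ^ d := by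
        have := vcl_norm K (c := c₂ * m) (m := c₂ * m) (by positivity) (a := u i₀ * u i₁) (by
          intro σ
          push_cast
          rw [map_mul, norm_mul]
          exact mul_le_mul (hA _ _ (hu i₀) σ).2 (hA _ _ (hu i₁) σ).2 (norm_nonneg _)
            (by positivity))
        exact this
      calc ((Ideal.absNorm (Ideal.span {u i₀ * u i₁}) : ℕ) : ℝ) ^ (ε / (2 * d))
          ≤ (((c₂ * m) * (c₂ * m)) ^ d) ^ (ε / (2 * d)) :=
            Real.rpow_le_rpow (by positivity) h1 hε'.le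
        _ = (c₂ * m) ^ ε := by
            rw [← sq, ← pow_mul, ← Real.rpow_natCast, ← Real.rpow_mul (by positivity)]
            congr 1
            push_cast
            field_simp
        _ = c₂ ^ ε * m ^ ε := Real.mul_rpow hc₂.le hm0.le
        _ ≤ max 1 (c₂ ^ ε) * m ^ ε :=
            mul_le_mul_of_nonneg_right (le_max_right _ _) (by positivity)
  -- proportional pairs
  set P : Finset ((ι → 𝓞 K) × (ι → 𝓞 K)) := (X ×ˢ X).filter (fun p => f p.1 = f p.2) with hP
  set Q : Finset ((ι → 𝓞 K) × 𝓞 K) := (X ×ˢ A i₀).filter (fun q => q.2 ∣ q.1 i₀ * q.1 i₁) with hQ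
  have hcross : ∀ p ∈ P, ∀ i, p.1 i * p.2 i₀ = p.2 i * p.1 i₀ := by
    intro p hp i
    rw [hP, Finset.mem_filter, Finset.mem_product, hmemX, hmemX] at hp
    obtain ⟨⟨h1, h2⟩, h3⟩ := hp
    have h4 := congrFun h3 i
    rw [hf] at h4
    simp only at h4
    rw [div_eq_div_iff (hne _ _ (h1 i₀)) (hne _ _ (h2 i₀))] at h4
    exact_mod_cast h4
  have hPQ : P.card ≤ Q.card := by
    refine Finset.card_le_card_of_injOn (fun p => (Function.update p.1 i₁ (p.2 i₁), p.2 i₀)) ?_ ?_
    · intro p hp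
      have hc := hcross p (by exact_mod_cast hp)
      rw [Finset.mem_coe, hP, Finset.mem_filter, Finset.mem_product, hmemX, hmemX] at hp
      obtain ⟨⟨h1, h2⟩, h3⟩ := hp
      rw [Finset.mem_coe, hQ, Finset.mem_filter, Finset.mem_product, hmemX]
      refine ⟨⟨fun i => ?_, h2 i₀⟩, ?_⟩
      · simp only
        by_cases hi : i = i₁
        · subst hi
          rw [Function.update_self]
          exact h2 i
        · rw [Function.update_of_ne hi]
          exact h1 i
      · simp only [Function.update_self, Function.update_of_ne h01]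
        exact ⟨p.1 i₁, by rw [mul_comm (p.1 i₀), ← hc i₁, mul_comm]⟩
    · intro p hp p' hp' h
      have hc := hcross p (by exact_mod_cast hp)
      have hc' := hcross p' (by exact_mod_cast hp')
      rw [Finset.mem_coe, hP, Finset.mem_filter, Finset.mem_product, hmemX, hmemX] at hp hp'
      obtain ⟨⟨h1, h2⟩, h3⟩ := hp
      obtain ⟨⟨h1', h2'⟩, h3'⟩ := hp'
      simp only [Prod.mk.injEq] at h
      obtain ⟨hu, hz⟩ := h
      have hoff : ∀ i, i ≠ i₁ → p.1 i = p'.1 i := by
        intro i hi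
        have := congrFun hu i
        rwa [Function.update_of_ne hi, Function.update_of_ne hi] at this
      have h4 : p.2 i₁ = p'.2 i₁ := by
        have := congrFun hu i₁
        rwa [Function.update_self, Function.update_self] at this
      have h5 : p.1 i₀ = p'.1 i₀ := hoff i₀ h01
      have hz0 : p'.2 i₀ ≠ 0 := fun h => hne _ _ (h2' i₀) (by rw [h]; simp)
      have hx0 : p'.1 i₀ ≠ 0 := fun h => hne _ _ (h1' i₀) (by rw [h]; simp)
      have h6 : p.1 i₁ = p'.1 i₁ := by
        have e1 := hc i₁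
        have e2 := hc' i₁
        rw [hz, h4, h5, ← e2] at e1
        exact mul_right_cancel₀ hz0 e1
      have h7 : p.1 = p'.1 := by
        funext i
        by_cases hi : i = i₁
        · rw [hi, h6]
        · exact hoff i hi
      have h8 : p.2 = p'.2 := by
        funext i
        have e1 := hc i
        have e2 := hc' i
        rw [hz, h7, e2] at e1
        exact (mul_right_cancel₀ hx0 e1).symm
      exact Prod.ext h7 h8
  have hQX : Q.card ≤ Λ * X.card := by
    refine Finset.card_le_mul_card_image_of_maps_to (f := Prod.fst) ?_ Λ ?_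
    · intro q hq
      rw [hQ, Finset.mem_filter, Finset.mem_product] at hq
      exact hq.1.1
    · intro u hu
      refine le_trans (Finset.card_le_card_of_injOn (fun q => q.2) ?_ ?_) (hT u hu)
      · intro q hq
        simp only [Finset.coe_filter, Set.mem_ofPred_eq, hQ, Finset.mem_filter,
          Finset.mem_product] at hq
        rw [Finset.mem_coe, Finset.mem_filter]
        obtain ⟨⟨⟨h1, h2⟩, h3⟩, h4⟩ := hq
        rw [h4] at h3
        exact ⟨h2, h3⟩
      · intro q hq q' hq' h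
        simp only [Finset.coe_filter, Set.mem_ofPred_eq] at hq hq'
        exact Prod.ext (hq.2.trans hq'.2.symm) h
  -- Cauchy-Schwarz
  have hfib : ∀ v, (X.filter (fun x => f x = v)).card ^ 2 =
      (P.filter (fun p => f p.1 = v)).card := by
    intro v
    rw [sq, ← Finset.card_product]
    congr 1
    ext p
    simp only [Finset.mem_product, Finset.mem_filter, hP]
    constructor
    · rintro ⟨⟨h1, h2⟩, h3, h4⟩
      exact ⟨⟨⟨h1, h3⟩, h2.trans h4.symm⟩, h2⟩
    · rintro ⟨⟨⟨h1, h3⟩, h5⟩, h2⟩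
      exact ⟨⟨h1, h2⟩, h3, h5 ▸ h2⟩
  have hXsum : X.card = ∑ v ∈ F, (X.filter (fun x => f x = v)).card :=
    Finset.card_eq_sum_card_fiberwise (fun x hx => Finset.mem_image_of_mem f hx)
  have hPsum : P.card = ∑ v ∈ F, (P.filter (fun p => f p.1 = v)).card := by
    refine Finset.card_eq_sum_card_fiberwise (fun p hp => ?_)
    rw [Finset.mem_coe, hP, Finset.mem_filter, Finset.mem_product] at hp
    exact Finset.mem_image_of_mem f hp.1.1
  have hCS : X.card ^ 2 ≤ F.card * P.card := by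
    rw [hXsum, hPsum]
    refine (sq_sum_le_card_mul_sum_sq).trans ?_
    refine Nat.mul_le_mul_left _ (le_of_eq (Finset.sum_congr rfl fun v _ => hfib v))
  have hmain : X.card ≤ Λ * F.card := by
    rcases Nat.eq_zero_or_pos X.card with h0 | h0
    · rw [h0]; exact Nat.zero_le _
    · have h1 : X.card * X.card ≤ (Λ * F.card) * X.card := by
        calc X.card * X.card = X.card ^ 2 := (sq _).symm
          _ ≤ F.card * P.card := hCS
          _ ≤ F.card * (Λ * X.card) := Nat.mul_le_mul_left _ (hPQ.trans hQX)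
          _ = (Λ * F.card) * X.card := by ring
      exact Nat.le_of_mul_le_mul_right h1 h0
  -- representatives
  have hg : ∀ v : F, ∃ x ∈ X, f x = v.1 := fun v => Finset.mem_image.mp v.2
  choose g hgX hgf using hg
  have hginj : Function.Injective g := by
    intro v v' h
    apply Subtype.ext
    rw [← hgf v, ← hgf v', h]
  refine ⟨Finset.univ.image g, ?_, ?_, ?_⟩
  · intro x hx i
    rw [Finset.mem_image] at hx
    obtain ⟨v, -, rfl⟩ := hx
    exact (hmemX _).mp (hgX v) i
  · intro x hx y hy hxy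
    rw [Finset.mem_image] at hx hy
    obtain ⟨v, -, rfl⟩ := hx
    obtain ⟨v', -, rfl⟩ := hy
    have h1 : f (g v) ≠ f (g v') := by
      rw [hgf, hgf]
      intro h
      exact hxy (by rw [Subtype.ext h])
    obtain ⟨i, hi⟩ := Function.ne_iff.mp h1
    refine ⟨i, i₀, fun h => hi ?_⟩
    have e1 := hne _ _ ((hmemX _).mp (hgX v) i₀)
    have e2 := hne _ _ ((hmemX _).mp (hgX v') i₀)
    rw [hf]
    simp only
    rw [div_eq_div_iff e1 e2]
    have h2 : ((g v i * g v' i₀ : 𝓞 K) : K) = ((g v i₀ * g v' i : 𝓞 K) : K) := by rw [h]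
    push_cast at h2
    rw [h2]
    ring
  · rw [Finset.card_image_of_injective _ hginj, Finset.card_univ, Fintype.card_coe]
    have h1 : ((X.card : ℕ) : ℝ) = ∏ i, ((A i).card : ℝ) := by
      rw [hX, Fintype.card_piFinset]
      push_cast
      rfl
    rw [← h1]
    calc ((X.card : ℕ) : ℝ) ≤ (Λ : ℝ) * F.card := by exact_mod_cast hmain
      _ ≤ (C * max 1 (c₂ ^ ε) * m ^ ε) * F.card := by
          refine mul_le_mul_of_nonneg_right ?_ (by positivity)
          rw [hΛ]
          exact Nat.floor_le (by positivity)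

end FreySH
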