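import Pool.Agent.Lib.MP_6babc4_nt.AvgIdeals

/-!
# The number of divisors of an ideal
-/

set_option autoImplicit false

open NumberField Module UniqueFactorizationMonoid

namespace FreySH

open FreyAvg

private lemma vdv_succ_le {ε : ℝ} (hε : 0 < ε) (e : ℕ) {q : ℝ} (hq : 2 ≤ q) :
    ((e : ℝ) + 1) ≤ (if q ^ ε < 2 then max 1 (1 / (ε * Real.log 2)) else 1) * (q ^ e) ^ ε := by
  have hl : 0 < Real.log 2 := Real.log_pos (by norm_num)
  have hq0 : 0 < q := by linarith
  have h1 : (q ^ e) ^ ε = (q ^ ε) ^ e := by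
    rw [← Real.rpow_natCast, ← Real.rpow_natCast, ← Real.rpow_mul hq0.le,
      ← Real.rpow_mul hq0.le, mul_comm]
  split_ifs with h
  · have h2 : (2 : ℝ) ^ ε ≤ q ^ ε := Real.rpow_le_rpow (by norm_num) hq hε.le
    have h3 : 1 + ε * Real.log 2 ≤ (2 : ℝ) ^ ε := by
      rw [Real.rpow_def_of_pos (by norm_num)]
      have := Real.add_one_le_exp (Real.log 2 * ε)
      linarith
    have h4 : 1 + (e : ℝ) * (ε * Real.log 2) ≤ (q ^ ε) ^ e := by
      have h5 := one_add_mul_le_pow (a := ε * Real.log 2) (by have := mul_pos hε hl; linarith) e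
      refine h5.trans ?_
      exact pow_le_pow_left₀ (by have := mul_pos hε hl; linarith) (h3.trans h2) e
    rw [h1]
    have hc : 0 < ε * Real.log 2 := mul_pos hε hl
    have h6 : (e : ℝ) + 1 ≤ max 1 (1 / (ε * Real.log 2)) * (1 + (e : ℝ) * (ε * Real.log 2)) := by
      have h7 : (1 : ℝ) ≤ max 1 (1 / (ε * Real.log 2)) := le_max_left _ _
      have h8 : 1 / (ε * Real.log 2) ≤ max 1 (1 / (ε * Real.log 2)) := le_max_right _ _
      have h9 : (e : ℝ) = 1 / (ε * Real.log 2) * ((e : ℝ) * (ε * Real.log 2)) := by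
        field_simp
      have h10 : 1 / (ε * Real.log 2) * ((e : ℝ) * (ε * Real.log 2)) ≤
          max 1 (1 / (ε * Real.log 2)) * ((e : ℝ) * (ε * Real.log 2)) :=
        mul_le_mul_of_nonneg_right h8 (by positivity)
      nlinarith
    refine h6.trans ?_
    exact mul_le_mul_of_nonneg_left h4 (le_trans zero_le_one (le_max_left _ _))
  · push Not at h
    rw [h1, one_mul]
    have h2 : (2 : ℝ) ^ e ≤ (q ^ ε) ^ e := pow_le_pow_left₀ (by norm_num) h e
    have h3 : ((e : ℝ) + 1) ≤ 2 ^ e := by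
      have := one_add_mul_le_pow (a := (1 : ℝ)) (by norm_num) e
      norm_num at this
      linarith
    linarith

/-- The divisor bound: an ideal `J ≠ 0` has `O(N(J)^ε)` divisors. -/
theorem vdv_divisors (K : Type*) [Field K] [NumberField K] {ε : ℝ} (hε : 0 < ε) :
    ∃ C : ℝ, 1 ≤ C ∧ ∀ J : Ideal (𝓞 K), J ≠ 0 → ∀ S : Finset (Ideal (𝓞 K)),
      (∀ I ∈ S, I ∣ J) → (S.card : ℝ) ≤ C * ((Ideal.absNorm J : ℕ) : ℝ) ^ ε := by
  classical
  set B : ℝ := max 1 (1 / (ε * Real.log 2)) with hB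
  have hB1 : 1 ≤ B := le_max_left _ _
  refine ⟨B ^ Msmall K ε, one_le_pow₀ hB1, fun J hJ S hS => ?_⟩
  have h1 : S.card ≤ (Finset.Iic (normalizedFactors J)).card := by
    refine Finset.card_le_card_of_injOn (fun I => normalizedFactors I) ?_ ?_
    · intro I hI
      have hI0 : I ≠ 0 := fun h => hJ (by
        have := hS I hI
        rw [h] at this
        exact zero_dvd_iff.mp this)
      simp only [Finset.coe_Iic, Set.mem_Iic]
      exact (dvd_iff_normalizedFactors_le_normalizedFactors hI0 hJ).mp (hS I hI)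
    · intro I hI I' hI' h
      have hI0 : I ≠ 0 := fun h => hJ (by
        have := hS I hI
        rw [h] at this
        exact zero_dvd_iff.mp this)
      have hI0' : I' ≠ 0 := fun h => hJ (by
        have := hS I' hI'
        rw [h] at this
        exact zero_dvd_iff.mp this)
      simp only at h
      rw [← Ideal.prod_normalizedFactors_eq_self hI0, ← Ideal.prod_normalizedFactors_eq_self hI0', h]
  have h2 : ((Finset.Iic (normalizedFactors J)).card : ℝ) =
      ∏ p ∈ pr J, (((normalizedFactors J).count p : ℝ) + 1) := by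
    rw [Multiset.card_Iic]
    push_cast
    rfl
  have h3 : ∏ p ∈ pr J, (((normalizedFactors J).count p : ℝ) + 1) ≤
      ∏ p ∈ pr J, ((if ((Ideal.absNorm p : ℕ) : ℝ) ^ ε < 2 then B else 1) *
        (((Ideal.absNorm p : ℕ) : ℝ) ^ ((normalizedFactors J).count p)) ^ ε) := by
    refine Finset.prod_le_prod (fun _ _ => by positivity) fun p hp => ?_
    exact vdv_succ_le hε _ (by exact_mod_cast two_le_absNorm hp)
  have h4 : (((Ideal.absNorm J : ℕ) : ℝ)) =
      ∏ p ∈ pr J, ((Ideal.absNorm p : ℕ) : ℝ) ^ ((normalizedFactors J).count p) := by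
    have := absNorm_eq_prod hJ
    exact_mod_cast congrArg (Nat.cast : ℕ → ℝ) this
  calc (S.card : ℝ) ≤ ((Finset.Iic (normalizedFactors J)).card : ℝ) := by exact_mod_cast h1
    _ = ∏ p ∈ pr J, (((normalizedFactors J).count p : ℝ) + 1) := h2
    _ ≤ _ := h3
    _ = (∏ p ∈ pr J, (if ((Ideal.absNorm p : ℕ) : ℝ) ^ ε < 2 then B else 1)) *
          (∏ p ∈ pr J, ((Ideal.absNorm p : ℕ) : ℝ) ^ ((normalizedFactors J).count p)) ^ ε := by
        rw [Finset.prod_mul_distrib, Real.finsetProd_rpow _ _ (fun _ _ => by positivity)]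
    _ ≤ B ^ Msmall K ε * ((Ideal.absNorm J : ℕ) : ℝ) ^ ε := by
        rw [← h4]
        exact mul_le_mul_of_nonneg_right (prod_small_le hε hB1 _) (by positivity)

end FreySH
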